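import Pool.Agent.Y735.Comb

/-!
The heights of the minors.
-/

set_option autoImplicit false

open MvPolynomial FF Pool.Agent.W603.LV Pool.Agent.W603.PV Pool.Agent.TH145.GH

namespace Pool.Agent.Y735.S

section alt

variable {K : Type} [Field K]

/-- The determinant of four vectors. -/
noncomputable def vl (e x u v : Fin (3 + 1) → K) : K := Matrix.det (Matrix.of ![e, x, u, v])

/-- The determinant as a bilinear form. -/
theorem exists_vlb (e x : Fin (3 + 1) → K) :
    ∃ A : (Fin (3 + 1) → K) →ₗ[K] (Fin (3 + 1) → K) →ₗ[K] K, ∀ u v, A u v = vl e x u v := by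
  have hu : ∀ u v w : Fin (3 + 1) → K, Function.update ![e, x, w, v] 2 u = ![e, x, u, v] := by
    intro u v w
    funext i
    fin_cases i <;> rfl
  have hv : ∀ u v w : Fin (3 + 1) → K, Function.update ![e, x, u, w] 3 v = ![e, x, u, v] := by
    intro u v w
    funext i
    fin_cases i <;> rfl
  have hd : ∀ u v : Fin (3 + 1) → K, vl e x u v =
      (Matrix.detRowAlternating : (Fin (3 + 1) → K) [⋀^Fin (3 + 1)]→ₗ[K] K) ![e, x, u, v] :=
    fun _ _ => rfl
  refine ⟨LinearMap.mk₂ K (fun u v => vl e x u v) ?_ ?_ ?_ ?_, fun u v => rfl⟩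
  · intro u u' v
    rw [hd, hd, hd, ← hu (u + u') v 0, ← hu u v 0, ← hu u' v 0, AlternatingMap.map_update_add]
  · intro c u v
    rw [hd, hd, ← hu (c • u) v 0, ← hu u v 0, AlternatingMap.map_update_smul]
  · intro u v v'
    rw [hd, hd, hd, ← hv u (v + v') 0, ← hv u v 0, ← hv u v' 0, AlternatingMap.map_update_add]
  · intro c u v
    rw [hd, hd, ← hv u (c • v) 0, ← hv u v 0, AlternatingMap.map_update_smul]

theorem vl_self (e x u : Fin (3 + 1) → K) : vl e x u u = 0 := by
  refine Matrix.det_zero_of_row_eq (i := 2) (j := 3) (by decide) ?_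
  rfl

theorem vl_x2 (e x v : Fin (3 + 1) → K) : vl e x x v = 0 := by
  refine Matrix.det_zero_of_row_eq (i := 1) (j := 2) (by decide) ?_
  rfl

theorem vl_x3 (e x v : Fin (3 + 1) → K) : vl e x v x = 0 := by
  refine Matrix.det_zero_of_row_eq (i := 1) (j := 3) (by decide) ?_
  rfl

end alt

variable {k K : Type} [Field k] [Field K] [Algebra k K]

/-- The minors. -/
noncomputable def Dj (D : (Fin (3 + 1) →₀ ℕ) → Derivation ℤ K K) (x : Fin (3 + 1) → K)
    (j : Fin (3 + 1)) (Q : MvPolynomial (Fin (3 + 1)) K) (a b c : Fin (3 + 1)) : K :=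
  x a * vl (Pi.single j 1) x (vec D x (Q * X b)) (vec D x (Q * X c)) -
    x b * vl (Pi.single j 1) x (vec D x (Q * X a)) (vec D x (Q * X c)) +
    x c * vl (Pi.single j 1) x (vec D x (Q * X a)) (vec D x (Q * X b))

theorem Dj_mul (D : (Fin (3 + 1) →₀ ℕ) → Derivation ℤ K K) (x : Fin (3 + 1) → K)
    (j : Fin (3 + 1)) (Q : MvPolynomial (Fin (3 + 1)) K) (a b c : Fin (3 + 1)) :
    vl (Pi.single j 1) x (vec D x (Q * lf (pm x a b))) (vec D x (Q * lf (pm x a c))) =
      x a * Dj D x j Q a b c := by
  obtain ⟨A, hA⟩ := exists_vlb (Pi.single j (1 : K)) x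
  have h : ∀ i, vec D x (Q * lf (pm x a i)) =
      x a • vec D x (Q * X i) - x i • vec D x (Q * X a) := by
    intro i
    rw [lf_pm, mul_sub, mul_smul_comm, mul_smul_comm, map_sub, map_smul, map_smul]
  have hself : A (vec D x (Q * X a)) (vec D x (Q * X a)) = 0 := by rw [hA, vl_self]
  have hba : A (vec D x (Q * X b)) (vec D x (Q * X a)) =
      -A (vec D x (Q * X a)) (vec D x (Q * X b)) := by
    have h1 : A (vec D x (Q * X a) + vec D x (Q * X b))
        (vec D x (Q * X a) + vec D x (Q * X b)) = 0 := by rw [hA, vl_self]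
    have h2 : A (vec D x (Q * X b)) (vec D x (Q * X b)) = 0 := by rw [hA, vl_self]
    simp only [map_add, LinearMap.add_apply] at h1
    rw [hself, h2] at h1
    linear_combination h1
  unfold Dj
  rw [← hA, ← hA, ← hA, ← hA, h, h]
  simp only [map_sub, map_smul, LinearMap.sub_apply, LinearMap.smul_apply, smul_eq_mul]
  rw [hself, hba]
  ring

theorem Dj_swap (D : (Fin (3 + 1) →₀ ℕ) → Derivation ℤ K K) (x : Fin (3 + 1) → K)
    (j : Fin (3 + 1)) (Q : MvPolynomial (Fin (3 + 1)) K) (a b c : Fin (3 + 1)) :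
    Dj D x j Q b a c = -Dj D x j Q a b c := by
  obtain ⟨A, hA⟩ := exists_vlb (Pi.single j (1 : K)) x
  have hba : A (vec D x (Q * X b)) (vec D x (Q * X a)) =
      -A (vec D x (Q * X a)) (vec D x (Q * X b)) := by
    have h1 : A (vec D x (Q * X a) + vec D x (Q * X b))
        (vec D x (Q * X a) + vec D x (Q * X b)) = 0 := by rw [hA, vl_self]
    have h2 : A (vec D x (Q * X b)) (vec D x (Q * X b)) = 0 := by rw [hA, vl_self]
    have h3 : A (vec D x (Q * X a)) (vec D x (Q * X a)) = 0 := by rw [hA, vl_self]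
    simp only [map_add, LinearMap.add_apply] at h1
    rw [h2, h3] at h1
    linear_combination h1
  unfold Dj
  rw [← hA, ← hA, ← hA, ← hA, hba]
  ring

theorem Dj_swap' (D : (Fin (3 + 1) →₀ ℕ) → Derivation ℤ K K) (x : Fin (3 + 1) → K)
    (j : Fin (3 + 1)) (Q : MvPolynomial (Fin (3 + 1)) K) (a b c : Fin (3 + 1)) :
    Dj D x j Q a c b = -Dj D x j Q a b c := by
  obtain ⟨A, hA⟩ := exists_vlb (Pi.single j (1 : K)) x
  have hcb : A (vec D x (Q * X c)) (vec D x (Q * X b)) =
      -A (vec D x (Q * X b)) (vec D x (Q * X c)) := by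
    have h1 : A (vec D x (Q * X c) + vec D x (Q * X b))
        (vec D x (Q * X c) + vec D x (Q * X b)) = 0 := by rw [hA, vl_self]
    have h2 : A (vec D x (Q * X b)) (vec D x (Q * X b)) = 0 := by rw [hA, vl_self]
    have h3 : A (vec D x (Q * X c)) (vec D x (Q * X c)) = 0 := by rw [hA, vl_self]
    simp only [map_add, LinearMap.add_apply] at h1
    rw [h2, h3] at h1
    linear_combination h1
  unfold Dj
  rw [← hA, ← hA, ← hA, ← hA, hcb]
  ring

theorem det_mul {F : MvPolynomial (Fin (3 + 1)) K} {x u v : Fin (3 + 1) → K} {j : Fin (3 + 1)}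
    (hj : eval x (pderiv j F) ≠ 0) (hx : dF F x x = 0) (hu : dF F x u = 0) (hv : dF F x v = 0)
    (z : Fin (3 + 1) → K) :
    vl z x u v = vl (Pi.single j 1) x u v / eval x (pderiv j F) * dF F x z := by
  classical
  have hs : dF F x (Pi.single j 1) = eval x (pderiv j F) := by
    have := dF_single F x j 1
    simpa using this
  have hl : ∀ (c : K) (z z' : Fin (3 + 1) → K), vl (z + c • z') x u v =
      vl z x u v + c * vl z' x u v := by
    intro c z z'
    have hw : ∀ w, Function.update ![(0 : Fin (3 + 1) → K), x, u, v] 0 w = ![w, x, u, v] := by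
      intro w
      funext i
      fin_cases i <;> rfl
    have hd : ∀ w : Fin (3 + 1) → K, vl w x u v =
        (Matrix.detRowAlternating : (Fin (3 + 1) → K) [⋀^Fin (3 + 1)]→ₗ[K] K)
          (Function.update ![(0 : Fin (3 + 1) → K), x, u, v] 0 w) := by
      intro w
      rw [hw]
      rfl
    rw [hd, hd, hd, AlternatingMap.map_update_add, AlternatingMap.map_update_smul, smul_eq_mul]
  have hker : ∀ z, dF F x z = 0 → vl z x u v = 0 := by
    intro z hz
    by_contra hne
    have h1 : LinearIndependent K ![z, x, u, v] := by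
      have h2 := Matrix.linearIndependent_rows_iff_isUnit (A := Matrix.of ![z, x, u, v])
      rw [Matrix.isUnit_iff_isUnit_det, isUnit_iff_ne_zero] at h2
      exact h2.2 hne
    have h2 : Submodule.span K (Set.range ![z, x, u, v]) = ⊤ :=
      h1.span_eq_top_of_card_eq_finrank' (by rw [Fintype.card_fin, Module.finrank_fin_fun])
    have h3 : (⊤ : Submodule K (Fin (3 + 1) → K)) ≤ LinearMap.ker (dFl F x) := by
      rw [← h2, Submodule.span_le]
      rintro _ ⟨i, rfl⟩
      rw [SetLike.mem_coe, LinearMap.mem_ker]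
      fin_cases i
      · exact hz
      · exact hx
      · exact hu
      · exact hv
    have h4 : dFl F x (Pi.single j 1) = 0 := h3 trivial
    rw [dFl_apply, hs] at h4
    exact hj h4
  have h1 := hker (z + (-(dF F x z / eval x (pderiv j F))) • Pi.single j 1) (by
    rw [dF_add, dF_smul, hs]
    field_simp
    ring)
  rw [hl] at h1
  linear_combination h1

section

variable {d : ℕ} {F : MvPolynomial (Fin (3 + 1)) K}
    {D : (Fin (3 + 1) →₀ ℕ) → Derivation ℤ K K} {e g : Place k K → ℤ}

/-- The local inequality for the minors. -/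
theorem pair_local (hdat : Data k F 5 D e g) {x : Fin (3 + 1) → K} (hxF : eval x F = 0)
    {j : Fin (3 + 1)} (hj : eval x (pderiv j F) ≠ 0) (P : Place k K)
    {Q : MvPolynomial (Fin (3 + 1)) K} (hQ : Q.IsHomogeneous 4) (hcQ : ∀ u, Ge P 0 (Q.coeff u))
    {a : Fin (3 + 1)} (ha : x a ≠ 0) (b c : Fin (3 + 1)) :
    Ge P (-(((3 : ℕ) + 1) * (e P + g P) + g P)) (Dj D x j Q a b c / eval x (pderiv j F)) := by
  classical
  by_cases h0 : Dj D x j Q a b c = 0
  · rw [h0, zero_div]
    exact Ge.zero
  -- a second point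
  obtain ⟨y, ik, hik⟩ : ∃ (y : Fin (3 + 1) → K) (ik : Fin (3 + 1) × Fin (3 + 1)),
      pl x y ik ≠ 0 := by
    obtain ⟨l, hl⟩ : ∃ l, l ≠ a := exists_ne a
    refine ⟨Pi.single l 1, (a, l), ?_⟩
    simp only [pl, Pi.single_eq_same, mul_one]
    rw [Pi.single_eq_of_ne hl.symm, mul_zero, sub_zero]
    exact ha
  obtain ⟨rd, hrd⟩ : ∃ rd : RD K 3 Empty Unit Empty Empty,
      rd = ⟨fun e => e.elim, fun _ => Q, fun _ => b, fun _ => c, fun e => e.elim,
        fun e => e.elim, fun e => e.elim⟩ := ⟨_, rfl⟩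
  have hE : ∃ E : Ri Empty Unit Empty Empty ≃ Fin (3 + 1), E.symm 0 = none ∧
      E.symm 1 = some none ∧ E.symm 2 = some (some (Sum.inr (Sum.inl (Sum.inl ())))) ∧
      E.symm 3 = some (some (Sum.inr (Sum.inl (Sum.inr ())))) := by
    refine ⟨{ toFun := fun κ => match κ with
                | none => 0
                | some none => 1
                | some (some (Sum.inr (Sum.inl (Sum.inl _)))) => 2
                | some (some (Sum.inr (Sum.inl (Sum.inr _)))) => 3
              invFun := ![none, some none, some (some (Sum.inr (Sum.inl (Sum.inl ())))),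
                some (some (Sum.inr (Sum.inl (Sum.inr ()))))]
              left_inv := ?_
              right_inv := ?_ }, rfl, rfl, rfl, rfl⟩
    · intro κ
      match κ with
      | none => rfl
      | some none => rfl
      | some (some (Sum.inr (Sum.inl (Sum.inl ())))) => rfl
      | some (some (Sum.inr (Sum.inl (Sum.inr ())))) => rfl
    · intro i
      fin_cases i <;> rfl
  obtain ⟨E, hE0, hE1, hE2, hE3⟩ := hE
  have hvl : ∀ z, vol E (row F D x y a ik rd z) =
      vl z x (vec D x (Q * lf (pm x a b))) (vec D x (Q * lf (pm x a c))) := by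
    intro z
    rw [vol_apply]
    unfold vl
    congr 1
    ext i l
    rw [Matrix.of_apply, Matrix.of_apply]
    fin_cases i
    · change row F D x y a ik rd z (E.symm 0) l = _
      rw [hE0]
      rfl
    · change row F D x y a ik rd z (E.symm 1) l = _
      rw [hE1]
      rfl
    · change row F D x y a ik rd z (E.symm 2) l = _
      rw [hE2, hrd]
      rfl
    · change row F D x y a ik rd z (E.symm 3) l = _
      rw [hE3, hrd]
      rfl
  have hx0 : dF F x x = 0 := dF_x hdat.hom hxF
  have hv : ∀ i, dF F x (vec D x (Q * lf (pm x a i))) = 0 := fun i =>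
    dF_vlf hdat.pos hdat.hom hdat.dual hxF hQ (by rw [← eval_lf]; exact eval_pm x a i)
  have hΘ0 : x a * Dj D x j Q a b c / eval x (pderiv j F) ≠ 0 :=
    div_ne_zero (mul_ne_zero ha h0) hj
  have h1 := local_ineq hdat ha hik rd (fun _ => by rw [hrd]; exact hQ) (fun b => b.elim)
    (fun b => b.elim) P (fun _ u => by rw [hrd]; exact hcQ u) (fun b => b.elim)
    (fun b => b.elim) (fun z t => t.elim) E hΘ0 (fun z => by
      rw [hvl, det_mul hj hx0 (hv b) (hv c), Dj_mul])
  rw [Fintype.card_empty, Fintype.card_unit] at h1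
  right
  have h2 : x a * Dj D x j Q a b c / eval x (pderiv j F) =
      x a * (Dj D x j Q a b c / eval x (pderiv j F)) := mul_div_assoc _ _ _
  rw [h2, P.ord_mul ha (div_ne_zero h0 hj)] at h1
  push_cast at h1 ⊢
  linarith

/-- The local inequality for all the minors. -/
theorem pair_local' (hdat : Data k F 5 D e g) {x : Fin (3 + 1) → K} (hxF : eval x F = 0)
    {j : Fin (3 + 1)} (hj : eval x (pderiv j F) ≠ 0) (P : Place k K)
    {Q : MvPolynomial (Fin (3 + 1)) K} (hQ : Q.IsHomogeneous 4) (hcQ : ∀ u, Ge P 0 (Q.coeff u))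
    (a b c : Fin (3 + 1)) :
    Ge P (-(((3 : ℕ) + 1) * (e P + g P) + g P)) (Dj D x j Q a b c / eval x (pderiv j F)) := by
  by_cases ha : x a = 0
  · by_cases hb : x b = 0
    · by_cases hc : x c = 0
      · have h0 : Dj D x j Q a b c = 0 := by
          unfold Dj
          rw [ha, hb, hc]
          ring
        rw [h0, zero_div]
        exact Ge.zero
      · have h1 := pair_local hdat hxF hj P hQ hcQ hc a b
        rw [Dj_swap, Dj_swap', neg_neg] at h1
        exact h1
    · have h1 := pair_local hdat hxF hj P hQ hcQ hb a c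
      rw [Dj_swap, neg_div] at h1
      have := h1.neg
      rwa [neg_neg] at this
  · exact pair_local hdat hxF hj P hQ hcQ ha b c

end

end Pool.Agent.Y735.S
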