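import Pool.Agent.Y735.FinL
import Pool.Agent.Y735.S.PairHt

/-!
The cases for quintic surfaces.
-/

set_option autoImplicit false

open MvPolynomial FF Pool.Agent.W603.LV Pool.Agent.W603.PV Pool.Agent.TH145.GH

namespace Pool.Agent.Y735.S

variable {k K : Type} [Field k] [Field K] [Algebra k K]

/-- The remaining case. -/
def Rest (k : Type) {K : Type} [Field k] [Field K] [Algebra k K]
    (F : MvPolynomial (Fin (3 + 1)) K) (D : (Fin (3 + 1) →₀ ℕ) → Derivation ℤ K K)
    (x : Fin (3 + 1) → K) : Prop :=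
  (∀ pq, ∃ a : K, wv F D x pq = a • x) ∧ ∃ Q ∈ CS k K 3 4, ∃ a b c, ∀ j,
    eval x (pderiv j F) ≠ 0 → Dj D x j Q a b c ≠ 0

variable [CharZero k] [IsFF k K] [IsAlgClosed k]

theorem cases5 {F : MvPolynomial (Fin (3 + 1)) K}
    {D : (Fin (3 + 1) →₀ ℕ) → Derivation ℤ K K} {e g : Place k K → ℤ}
    (hdat : Data k F 5 D e g) {x : Fin (3 + 1) → K}
    (hxF : eval x F = 0) (hx0 : x ≠ 0) (hL : LineBound F 5 D x) :
    (∃ (y : Fin (3 + 1) → K) (ik : Fin (3 + 1) × Fin (3 + 1)), pl x y ik ≠ 0 ∧
      ∀ a b : K, eval (a • x + b • y) F = 0) ∨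
    pht k x ≤ 6 * CC 3 e g + 2 * ∑ᶠ P, g P ∨ Rest k F D x := by
  classical
  have hC := CC_nonneg hdat
  have hg : 0 ≤ ∑ᶠ P, g P := finsum_nonneg fun P => hdat.g_nonneg P
  have hh := pht_nonneg (k := k) hx0
  have hF0 : dFl F x ≠ 0 := dFl_ne' hdat hx0
  have hker := ker_finrank hF0
  have hWle := Wsp_le hdat.pos hdat.hom hdat.dual hxF
  have hwn : Module.finrank K (Wsp F D x) ≤ 3 := (Submodule.finrank_mono hWle).trans_eq hker
  have hw1 : 1 ≤ Module.finrank K (Wsp F D x) :=
    (finrank_span_singleton (K := K) hx0).symm.le.trans (Submodule.finrank_mono le_sup_left)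
  obtain ⟨C, hCC⟩ : ∃ C, C = CC 3 e g := ⟨_, rfl⟩
  obtain ⟨G, hGG⟩ : ∃ G, G = ∑ᶠ P, g P := ⟨_, rfl⟩
  obtain ⟨h, hhh⟩ : ∃ h, h = pht k x := ⟨_, rfl⟩
  rw [← hCC, ← hGG, ← hhh]
  rw [← hCC] at hC
  rw [← hGG] at hg
  rw [← hhh] at hh
  have hd4 : (((5 - 1 : ℕ) : ℤ)) = 4 := by norm_num
  -- points on lines of bounded height
  have hline : ∀ (y : Fin (3 + 1) → K) (ik : Fin (3 + 1) × Fin (3 + 1)), pl x y ik ≠ 0 →
      fht k (pl x y) ≤ C → ((∃ (y : Fin (3 + 1) → K) (ik : Fin (3 + 1) × Fin (3 + 1)),
        pl x y ik ≠ 0 ∧ ∀ a b : K, eval (a • x + b • y) F = 0) ∨ h ≤ 6 * C + 2 * G) := by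
    intro y ik hik hl
    by_cases hz : ∀ a b : K, eval (a • x + b • y) F = 0
    · exact Or.inl ⟨y, ik, hik, hz⟩
    · push Not at hz
      obtain ⟨a, b, hab⟩ := hz
      have h1 := line_ht hdat hxF hik hab
      right
      rw [← hhh, ← hGG] at h1
      push_cast at h1
      nlinarith
  by_cases hG : Good (Bset k D x (5 - 1)) (LinearMap.ker (dFl F x)) (Wsp F D x)
  · have hw : Module.finrank K (Wsp F D x) = 1 ∨ Module.finrank K (Wsp F D x) = 2 ∨
        Module.finrank K (Wsp F D x) = 3 := by omega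
    rcases hw with hw | hw | hw
    · -- the remaining case
      right
      right
      have hWx : Wsp F D x = Submodule.span K {x} := by
        symm
        refine Submodule.eq_of_le_of_finrank_eq le_sup_left ?_
        rw [hw, finrank_span_singleton hx0]
      refine ⟨fun pq => ?_, ?_⟩
      · have h1 := wv_mem_Wsp F D x pq
        rw [hWx, Submodule.mem_span_singleton] at h1
        obtain ⟨a, ha⟩ := h1
        exact ⟨a, ha.symm⟩
      · obtain ⟨i0, hi0⟩ := Function.ne_iff.1 hx0
        have hi0' : x i0 ≠ 0 := hi0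
        obtain ⟨b, i, j, hb, hfin⟩ := exists_pairs (pmx x i0) (span_pmx hi0')
          (Bset k D x (5 - 1)) (LinearMap.ker (dFl F x)) 1 (Wsp F D x)
          (im_top hdat.pos hdat.hom hdat.dual hxF hi0') hG (by rw [hker, hw])
        obtain ⟨Q, hQ, hbQ⟩ := mem_Bset.1 (hb 0)
        refine ⟨Q, hQ, i0, i 0, j 0, fun l hl h0 => ?_⟩
        obtain ⟨u, hu⟩ : ∃ u, u = vec D x (Q * lf (pm x i0 (i 0))) := ⟨_, rfl⟩
        obtain ⟨v, hv⟩ : ∃ v, v = vec D x (Q * lf (pm x i0 (j 0))) := ⟨_, rfl⟩
        have hspan : Submodule.span K (Set.range ![x, u, v]) = LinearMap.ker (dFl F x) := by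
          have h1 : Wsp F D x ⊔ Submodule.span K
              (Set.range (fun a => b a (pmx x i0 (i a))) ∪
                Set.range (fun a => b a (pmx x i0 (j a)))) = LinearMap.ker (dFl F x) := by
            refine Submodule.eq_of_le_of_finrank_eq ?_ (by rw [hfin, hker, hw])
            refine sup_le hWle ?_
            rw [Submodule.span_le]
            rintro _ (⟨a, rfl⟩ | ⟨a, rfl⟩)
            · dsimp only
              have ha : a = 0 := Subsingleton.elim _ _
              rw [ha, hbQ]
              exact dF_vlf hdat.pos hdat.hom hdat.dual hxF hQ.1 (mem_Mx.1 (pmx x i0 (i 0)).2)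
            · dsimp only
              have ha : a = 0 := Subsingleton.elim _ _
              rw [ha, hbQ]
              exact dF_vlf hdat.pos hdat.hom hdat.dual hxF hQ.1 (mem_Mx.1 (pmx x i0 (j 0)).2)
          rw [← h1, hWx]
          refine le_antisymm ?_ (sup_le ?_ ?_)
          · rw [Submodule.span_le]
            rintro _ ⟨κ, rfl⟩
            fin_cases κ
            · exact Submodule.mem_sup_left (Submodule.mem_span_singleton_self x)
            · refine Submodule.mem_sup_right (Submodule.subset_span (Or.inl ⟨0, ?_⟩))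
              dsimp only
              rw [hbQ]
              exact hu.symm
            · refine Submodule.mem_sup_right (Submodule.subset_span (Or.inr ⟨0, ?_⟩))
              dsimp only
              rw [hbQ]
              exact hv.symm
          · rw [Submodule.span_le, Set.singleton_subset_iff]
            exact Submodule.subset_span ⟨0, rfl⟩
          · rw [Submodule.span_le]
            rintro _ (⟨a, rfl⟩ | ⟨a, rfl⟩)
            · dsimp only
              have ha : a = 0 := Subsingleton.elim _ _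
              rw [ha, hbQ]
              exact Submodule.subset_span ⟨1, hu⟩
            · dsimp only
              have ha : a = 0 := Subsingleton.elim _ _
              rw [ha, hbQ]
              exact Submodule.subset_span ⟨2, hv⟩
        have h2 := Dj_mul D x l Q i0 (i 0) (j 0)
        rw [h0, mul_zero, ← hu, ← hv] at h2
        -- the four vectors are independent
        have hind3 : LinearIndependent K ![x, u, v] := by
          rw [linearIndependent_iff_card_eq_finrank_span, Set.finrank, hspan, hker,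
            Fintype.card_fin]
        have hind4 : LinearIndependent K ![(Pi.single l 1 : Fin (3 + 1) → K), x, u, v] := by
          have h3 : (![(Pi.single l 1 : Fin (3 + 1) → K), x, u, v]) =
              Fin.cons (Pi.single l 1 : Fin (3 + 1) → K) ![x, u, v] := rfl
          rw [h3, linearIndependent_finCons]
          refine ⟨hind3, ?_⟩
          rw [hspan, LinearMap.mem_ker, dFl_apply]
          have h4 : dF F x (Pi.single l 1) = eval x (pderiv l F) := by
            have := dF_single F x l 1
            simpa using this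
          rw [h4]
          exact hl
        have h5 := Matrix.linearIndependent_rows_iff_isUnit
          (A := Matrix.of ![(Pi.single l 1 : Fin (3 + 1) → K), x, u, v])
        rw [Matrix.isUnit_iff_isUnit_det, isUnit_iff_ne_zero] at h5
        exact h5.1 hind4 h2
    · obtain ⟨y, ik, hik, h1⟩ := case_odd hdat hxF hx0 hG (p := 0) (by omega)
      rw [hd4, ← hCC, ← hhh] at h1
      push_cast at h1
      rcases hline y ik hik (by linarith) with h2 | h2
      · exact Or.inl h2
      · exact Or.inr (Or.inl h2)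
    · right
      left
      have h1 := case_even hdat (by omega) hxF hx0 hG (p := 0) (by omega)
      rw [hd4, ← hCC, ← hhh] at h1
      push_cast at h1
      linarith
  · unfold Good at hG
    push Not at hG
    obtain ⟨φ, hφ0, hφ⟩ := hG
    obtain ⟨y, hy, ik, hik⟩ := exists_pl hx0 hφ0
    rw [← Vl_eq F D (5 - 1) hy, hker] at hφ
    have hWV : Module.finrank K (Wsp F D x) ≤ Module.finrank K (Vl F D x y (5 - 1)) :=
      Submodule.finrank_mono le_sup_left
    have hv1 : Module.finrank K (Vl F D x y (5 - 1)) = 1 := by omega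
    have hw1' : Module.finrank K (Wsp F D x) = 1 := by omega
    have hL1 := hL y ik hik
    have hcl := case_line hdat hxF hik (j := 0) (r := 2) (by omega) (by omega)
    have hL2 := hL1 (by omega)
    have hl0 : 0 ≤ fht k (pl x y) := fht_nonneg fun h0 => hik (by rw [h0]; rfl)
    rw [hd4, ← hCC, ← hhh] at hcl
    obtain ⟨l, hll⟩ : ∃ l, l = fht k (pl x y) := ⟨_, rfl⟩
    rw [← hll] at hcl hl0
    by_cases hz : ∀ a b : K, eval (a • x + b • y) F = 0
    · exact Or.inl ⟨y, ik, hik, hz⟩
    · push Not at hz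
      obtain ⟨a, b, hab⟩ := hz
      right
      left
      have h3 := line_ht_d hdat (hL2.2 (by omega)) hik hab
      rw [← hhh, ← hGG, ← hll] at h3
      push_cast at h3 hcl
      have h4 : h ≤ l + G := by
        by_contra hcon
        push Not at hcon
        linarith
      linarith

theorem ineq5 {F : MvPolynomial (Fin (3 + 1)) K}
    {D : (Fin (3 + 1) →₀ ℕ) → Derivation ℤ K K} {e g : Place k K → ℤ}
    (hdat : Data k F 5 D e g) (hc : ∀ I J a, D I (D J a) = D J (D I a))
    {x : Fin (3 + 1) → K} (hxF : eval x F = 0) (hx0 : x ≠ 0) :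
    OnL F x ∨ pht k x ≤ 6 * CC 3 e g + 2 * ∑ᶠ P, g P ∨ Rest k F D x := by
  have hcz : CharZero K := charZero_of_injective_algebraMap (algebraMap k K).injective
  exact cases5 hdat hxF hx0
    (lineBound hdat.pos hdat.hom hdat.dual hc hxF (dFl_ne' hdat hx0))

/-- The heights of the ratios. -/
theorem ratio_ht {C : Place k K → ℤ} (hC0 : ∀ P, 0 ≤ C P) (hC : {P | C P ≠ 0}.Finite) {f f' : K}
    (h : ∀ P, Ge P (-C P) f) (h' : ∀ P, Ge P (-C P) f') (hf' : f' ≠ 0) :
    hgt k (f / f') ≤ ∑ᶠ P, C P := by
  classical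
  by_cases hf : f = 0
  · rw [hf, zero_div]
    have := Pool.Agent.TH145.MG.hgt_const (k := k) (L := K) 0
    rw [map_zero] at this
    rw [this]
    exact finsum_nonneg hC0
  obtain ⟨S, hS⟩ := exists_supp (k := k) (Finset.univ : Finset (Fin 2)) ![f, f']
  obtain ⟨V, hV⟩ : ∃ V : Finset (Place k K), V = S ∪ hC.toFinset := ⟨_, rfl⟩
  have hf1 : ∀ P : Place k K, P.ord f ≠ 0 → P ∈ V := fun P hP => by
    rw [hV]; exact Finset.mem_union_left _ (hS 0 (Finset.mem_univ _) P hP)
  have hf2 : ∀ P : Place k K, P.ord f' ≠ 0 → P ∈ V := fun P hP => by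
    rw [hV]; exact Finset.mem_union_left _ (hS 1 (Finset.mem_univ _) P hP)
  have hf3 : ∀ P : Place k K, P.ord (f / f') ≠ 0 → P ∈ V := by
    intro P hP
    by_contra hcon
    apply hP
    rw [P.ord_div hf hf']
    have h1 : P.ord f = 0 := by
      by_contra h1
      exact hcon (hf1 P h1)
    have h2 : P.ord f' = 0 := by
      by_contra h2
      exact hcon (hf2 P h2)
    rw [h1, h2, sub_zero]
  have h3 : ∑ᶠ P, C P = ∑ P ∈ V, C P := by
    rw [finsum_eq_sum_of_support_subset (s := V)]
    intro P hP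
    rw [hV]
    exact Finset.mem_union_right _ (hC.mem_toFinset.2 hP)
  rw [hgt_finset _ V hf3, h3]
  have h4 := sum_ord_finset f' V hf2
  have h5 : ∑ P ∈ V, max (-P.ord (f / f')) 0 ≤ ∑ P ∈ V, (P.ord f' + C P) := by
    refine Finset.sum_le_sum fun P _ => ?_
    have e1 := (h P).resolve_left hf
    have e2 := (h' P).resolve_left hf'
    rw [P.ord_div hf hf']
    refine max_le ?_ ?_ <;> linarith
  rw [Finset.sum_add_distrib, h4, zero_add] at h5
  exact h5

/-- The heights of the ratios of the minors. -/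
theorem ratio_Dj {F : MvPolynomial (Fin (3 + 1)) K}
    {D : (Fin (3 + 1) →₀ ℕ) → Derivation ℤ K K} {e g : Place k K → ℤ}
    (hdat : Data k F 5 D e g) {x : Fin (3 + 1) → K} (hxF : eval x F = 0)
    {j : Fin (3 + 1)} (hj : eval x (pderiv j F) ≠ 0)
    {Q Q' : MvPolynomial (Fin (3 + 1)) K} (hQ : Q ∈ CS k K 3 4) (hQ' : Q' ∈ CS k K 3 4)
    (a b c a' b' c' : Fin (3 + 1)) (hne : Dj D x j Q' a' b' c' ≠ 0) :
    hgt k (Dj D x j Q a b c / Dj D x j Q' a' b' c') ≤ CC 3 e g := by
  have hfin : {P : Place k K | ((3 : ℕ) + 1 : ℤ) * (e P + g P) + g P ≠ 0}.Finite := by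
    refine hdat.fin.subset fun P hP => ?_
    by_contra hcon
    simp only [Set.mem_ofPred_eq, not_or, not_not] at hcon
    apply hP
    rw [hcon.1, hcon.2]
    ring
  have h1 := ratio_ht (k := k) (C := fun P => ((3 : ℕ) + 1 : ℤ) * (e P + g P) + g P)
    (fun P => by
      have h1 := hdat.e_nonneg P
      have h2 := hdat.g_nonneg P
      positivity) hfin
    (fun P => pair_local' hdat hxF hj P hQ.1 (fun u => ge_const P hQ.2 u) a b c)
    (fun P => pair_local' hdat hxF hj P hQ'.1 (fun u => ge_const P hQ'.2 u) a' b' c')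
    (div_ne_zero hne hj)
  rw [div_div_div_cancel_right₀ hj] at h1
  exact h1

end Pool.Agent.Y735.S
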