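import Pool.Agent.Y735.S.Concl

/-!
Generic forms and ring homomorphisms.
-/

set_option autoImplicit false

open MvPolynomial Pool.Agent.TH145.GH

namespace Pool.Agent.Y735.S

/-- The coefficients are algebraically independent. -/
def GenF {L : Type} [Field L] {n : ℕ} (d : ℕ) (F : MvPolynomial (Fin (n + 1)) L) : Prop :=
  AlgebraicIndependent ℤ fun I : {I : Fin (n + 1) →₀ ℕ // I.degree = d} => F.coeff I.1

theorem GenF.map {L M : Type} [Field L] [Field M] (φ : L →+* M) {n d : ℕ}
    {F : MvPolynomial (Fin (n + 1)) L} (h : GenF d F) : GenF d (MvPolynomial.map φ F) := by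
  have h1 := AlgebraicIndependent.map' h (f := φ.toIntAlgHom) φ.injective
  have h2 : (φ.toIntAlgHom ∘ fun I : {I : Fin (n + 1) →₀ ℕ // I.degree = d} => F.coeff I.1) =
      fun I : {I : Fin (n + 1) →₀ ℕ // I.degree = d} => (MvPolynomial.map φ F).coeff I.1 := by
    funext I
    rw [coeff_map]
    rfl
  rw [h2] at h1
  exact h1

theorem GenF.of_map {L M : Type} [Field L] [Field M] (φ : L →+* M) {n d : ℕ}
    {F : MvPolynomial (Fin (n + 1)) L} (h : GenF d (MvPolynomial.map φ F)) : GenF d F := by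
  refine AlgebraicIndependent.of_comp φ.toIntAlgHom ?_
  have h2 : (φ.toIntAlgHom ∘ fun I : {I : Fin (n + 1) →₀ ℕ // I.degree = d} => F.coeff I.1) =
      fun I : {I : Fin (n + 1) →₀ ℕ // I.degree = d} => (MvPolynomial.map φ F).coeff I.1 := by
    funext I
    rw [coeff_map]
    rfl
  rw [h2]
  exact h

theorem GenF.of_base {k0 L : Type} [Field k0] [Field L] [Algebra k0 L] [CharZero L] {n d : ℕ}
    {F : MvPolynomial (Fin (n + 1)) L}
    (h : AlgebraicIndependent k0 fun I : {I : Fin (n + 1) →₀ ℕ // I.degree = d} =>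
      F.coeff I.1) : GenF d F := by
  have hcz : CharZero k0 := by
    constructor
    intro a b hab
    have h1 := congrArg (algebraMap k0 L) hab
    rw [map_natCast, map_natCast] at h1
    exact_mod_cast h1
  exact AlgebraicIndependent.restrictScalars (K := k0)
    (by
      intro a b hab
      rw [eq_intCast, eq_intCast] at hab
      exact_mod_cast hab) h

theorem GenF.rat {L : Type} [Field L] [CharZero L] {n d : ℕ}
    {F : MvPolynomial (Fin (n + 1)) L} (h : GenF d F) :
    AlgebraicIndependent ℚ fun I : {I : Fin (n + 1) →₀ ℕ // I.degree = d} => F.coeff I.1 := by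
  have : Algebra.IsAlgebraic ℤ ℚ := IsLocalization.isAlgebraic ℚ (nonZeroDivisors ℤ)
  exact AlgebraicIndependent.extendScalars (R := ℤ) (A := L) ℚ h

theorem GenF.no_lines {L : Type} [Field L] [CharZero L]
    {F : MvPolynomial (Fin (3 + 1)) L} (hF : F.IsHomogeneous 5) (h : GenF 5 F)
    (p : Fin (3 + 1) → L) : ¬ OnL F p :=
  Pool.Agent.Y735.no_lines (k := ℚ) (by norm_num) hF h.rat p

theorem GenF.no_conics {L : Type} [Field L] [CharZero L]
    {F : MvPolynomial (Fin (3 + 1)) L} (hF : F.IsHomogeneous 5) (h : GenF 5 F)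
    (ψ : Fin (3 + 1) → Fin 3 → L)
    (hψ : ∀ c : Fin 3 → L, (∀ l, ∑ i, ψ l i * c i = 0) → c = 0) :
    ¬ ∀ v : L, eval (fun l => ψ l 0 * v ^ 2 + ψ l 1 * v + ψ l 2) F = 0 :=
  Pool.Agent.Y735.S.no_conics (k0 := ℚ) (by norm_num) hF h.rat hψ

/-- Smoothness. -/
theorem smooth_map {L M : Type} [Field L] [Field M] (φ : L →+* M) {n N : ℕ}
    {F : MvPolynomial (Fin (n + 1)) L} {Q : Fin (n + 1) → Fin (n + 1) → MvPolynomial (Fin (n + 1)) L}
    (h : ∀ l, X l ^ N = ∑ i, Q l i * pderiv i F) (p : Fin (n + 1) → M) (hp : p ≠ 0) :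
    ∃ i, eval p (pderiv i (MvPolynomial.map φ F)) ≠ 0 := by
  by_contra hcon
  push Not at hcon
  apply hp
  funext l
  have h1 := congrArg (MvPolynomial.map φ) (h l)
  rw [map_pow, map_X, map_sum] at h1
  have h2 := congrArg (eval p) h1
  rw [map_pow, eval_X, map_sum, Finset.sum_eq_zero] at h2
  · exact eq_zero_of_pow_eq_zero h2
  · intro i _
    rw [map_mul, map_mul, ← pderiv_map, hcon, mul_zero]

end Pool.Agent.Y735.S
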