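import Pool.Agent.Y735.S.Level

/-!
The algebraic statement for points with derivations.
-/

set_option autoImplicit false

open MvPolynomial Pool.Agent.TH145.GH

namespace Pool.Agent.Y735.S

theorem eval_hom {L K : Type} [Field L] [Field K] (ι : L →+* K) {n : ℕ}
    (p : MvPolynomial (Fin (n + 1)) L) (x : Fin (n + 1) → L) :
    eval (fun l => ι (x l)) (map ι p) = ι (eval x p) := by
  rw [eval_map]
  have h2 := hom_eval₂ p (RingHom.id L) ι x
  rw [RingHom.comp_id] at h2
  exact h2.symm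

/-- The algebraic statement for points with derivations. -/
theorem level {L K k : Type} [Field L] [Field K] [Field k] [Algebra k K] [IsAlgClosed k]
    [CharZero k] (ι : L →+* K) {FL : MvPolynomial (Fin (3 + 1)) L}
    {F : MvPolynomial (Fin (3 + 1)) k} (hFF : map ι FL = map (algebraMap k K) F)
    (hF : F.IsHomogeneous 5) (hno : ∀ p, ¬ OnL F p)
    (hcon : ∀ ψ : Fin (3 + 1) → Fin 3 → k,
      (∀ c : Fin 3 → k, (∀ l, ∑ i, ψ l i * c i = 0) → c = 0) →
      ¬ ∀ v : k, eval (fun l => ψ l 0 * v ^ 2 + ψ l 1 * v + ψ l 2) F = 0)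
    (hsm : ∀ p : Fin (3 + 1) → k, p ≠ 0 → ∃ i, eval p (pderiv i F) ≠ 0)
    {D : (Fin (3 + 1) →₀ ℕ) → Derivation ℤ L L} {x : Fin (3 + 1) → L} {l0 : Fin (3 + 1)}
    (hx : x l0 = 1) (hxF : eval x FL = 0)
    (hW : ∀ pq, ∃ a : L, wv FL D x pq = a • x) {j : Fin (3 + 1)}
    (hj : eval x (pderiv j FL) ≠ 0)
    (hne : ∃ I J : Fin (3 + 1) →₀ ℕ, I.degree = 4 ∧ J.degree = 4 ∧ ∃ a b c,
      Dj D x j (monomial I 1 + monomial J 1) a b c ≠ 0)
    (hratio : ∀ I J I' J' : Fin (3 + 1) →₀ ℕ, I.degree = 4 → J.degree = 4 → I'.degree = 4 →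
      J'.degree = 4 → ∀ a b c a' b' c', Dj D x j (monomial I' 1 + monomial J' 1) a' b' c' ≠ 0 →
      In k (ι (Dj D x j (monomial I 1 + monomial J 1) a b c /
        Dj D x j (monomial I' 1 + monomial J' 1) a' b' c')))
    (l : Fin (3 + 1)) : In k (ι (x l)) := by
  classical
  obtain ⟨I0, J0, hI0, hJ0, a0, b0, c0, hne0⟩ := hne
  obtain ⟨g, η, hg, hη, w, hw1, iw, hw2⟩ := exists_g hW hj ⟨_, a0, b0, c0, hne0⟩
  choose g' hg' using fun i => exists_bc ι (g i)
  obtain ⟨x1, hx1⟩ : ∃ x1 : Fin (3 + 1) → K, x1 = fun l => ι (x l) := ⟨_, rfl⟩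
  have hgX : ∀ i (Q : MvPolynomial (Fin (3 + 1)) L) q, g' i (map ι Q * X q) =
      ι (g i (Q * X q)) := by
    intro i Q q
    have h1 : map ι (Q * X q) = map ι Q * X q := by rw [map_mul, map_X]
    rw [← hg', h1]
  have hD3 : ∀ (Q : MvPolynomial (Fin (3 + 1)) L) a b c,
      D3 g' x1 (map ι Q) a b c = ι (Dj D x j Q a b c) := by
    intro Q a b c
    rw [← hg]
    unfold D3
    rw [hgX, hgX, hgX, hgX, hgX, hgX, hx1]
    simp only [map_add, map_sub, map_mul]
  have hmon : ∀ I J : Fin (3 + 1) →₀ ℕ, (monomial I 1 + monomial J 1 :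
      MvPolynomial (Fin (3 + 1)) K) = map ι (monomial I 1 + monomial J 1) := by
    intro I J
    rw [map_add, map_monomial, map_monomial, ι.map_one]
  have hpd : ∀ p, map (algebraMap k K) (pderiv p F) = map ι (pderiv p FL) := by
    intro p
    rw [← pderiv_map, ← pderiv_map, hFF]
  obtain ⟨A, hA⟩ : ∃ A : MvPolynomial (Fin (3 + 1)) K →ₗ[K] MvPolynomial (Fin (3 + 1)) K →ₗ[K] K,
      ∀ G H, A G H = g' 0 G * g' 1 H - g' 0 H * g' 1 G := by
    refine ⟨LinearMap.mk₂ K (fun G H => g' 0 G * g' 1 H - g' 0 H * g' 1 G) ?_ ?_ ?_ ?_,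
      fun _ _ => rfl⟩
    · intro G G' H
      simp only [map_add]
      ring
    · intro r G H
      simp only [map_smul, smul_eq_mul]
      ring
    · intro G H H'
      simp only [map_add]
      ring
    · intro r G H
      simp only [map_smul, smul_eq_mul]
      ring
  have hBl : ∀ Q a b c, Bl A x1 Q Q a b c = D3 g' x1 Q a b c := by
    intro Q a b c
    unfold Bl D3
    rw [hA, hA, hA]
  have hx1l : x1 l0 = 1 := by
    rw [hx1]
    dsimp only
    rw [hx, map_one]
  have hx1F : eval x1 (map (algebraMap k K) F) = 0 := by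
    rw [← hFF, hx1, eval_hom, hxF, map_zero]
  have key := alg5 hF hno hcon hsm (x := x1) hx1l hx1F (g := g')
    (τ := ι (Dj D x j (monomial I0 1 + monomial J0 1) a0 b0 c0))
    (fun Q hQ a b c => by
      rw [← hBl]
      refine Bl_all (fun I J hI hJ a b c => ?_) hQ a b c
      obtain ⟨r, hr⟩ := hratio I J I0 J0 hI hJ hI0 hJ0 a b c a0 b0 c0 hne0
      refine ⟨r, ?_⟩
      rw [hBl, hmon, hD3, hr, ← map_mul, div_mul_cancel₀ _ hne0])
    ⟨monomial I0 1 + monomial J0 1, add_mem (monomial_mem_CS hI0) (monomial_mem_CS hJ0), a0, b0,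
      c0, by
        rw [hmon, hD3]
        exact fun h0 => hne0 (ι.injective (by rw [h0, map_zero]))⟩
    (η := fun i p => ι (η i p)) (fun i p μ => by
      rw [hpd, lf_apply, Finset.mul_sum, map_sum, ← Finset.sum_neg_distrib, Finset.sum_mul]
      refine Finset.sum_congr rfl fun q _ => ?_
      rw [mul_smul_comm, map_smul, hgX, hη, smul_eq_mul, hx1, map_mul, map_neg]
      ring)
    ⟨fun p => ι (w p), by
      rw [← map_zero ι, ← hw1, map_sum]
      refine Finset.sum_congr rfl fun p _ => ?_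
      rw [hpd, hx1, eval_hom, map_mul], iw, by
      have h1 : ∑ p, ι (w p) * ι (η iw p) = ι (∑ p, w p * η iw p) := by
        rw [map_sum]
        exact Finset.sum_congr rfl fun p _ => (map_mul _ _ _).symm
      rw [h1]
      exact fun h0 => hw2 (ι.injective (by rw [h0, map_zero]))⟩ l
  rw [hx1] at key
  exact key

end Pool.Agent.Y735.S
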