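import Pool.Agent.TH145.MG.Unb
import Pool.Agent.Y735.S.GenF
import Pool.Agent.Y735.S.Level2
import Pool.Agent.Y735.S.Cases5

/-!
Points of unbounded height in the ultrapower.
-/

set_option autoImplicit false

open MvPolynomial FF Pool.Agent.W603.LV Pool.Agent.W603.PV Pool.Agent.W602.RG Pool.Agent.TH145.GH
  Pool.Agent.TH145.MF

namespace Pool.Agent.Y735.S

section mk

variable {L : Type} [Field L]

theorem vec_mk {n : ℕ} (D : (Fin (n + 1) →₀ ℕ) → Derivation ℤ L L) (x : ℕ → Fin (n + 1) → L)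
    (G : MvPolynomial (Fin (n + 1)) L) (l : Fin (n + 1)) :
    vec (fun I => hat (D I)) (fun l => Om.mk fun m => x m l) (map (cst L) G) l =
      Om.mk fun m => vec D (x m) G l := by
  induction G using MvPolynomial.induction_on' with
  | monomial u a =>
    rw [MvPolynomial.map_monomial, vec_apply, DD_monomial]
    simp only [vec_apply, DD_monomial]
    rfl
  | add p q hp hq =>
    rw [map_add, map_add, Pi.add_apply, hp, hq, Om.mk_add]
    congr 1
    funext m
    rw [map_add, Pi.add_apply]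

theorem eval_cst {n : ℕ} (x : ℕ → Fin (n + 1) → L) (G : MvPolynomial (Fin (n + 1)) L) :
    eval (fun l => Om.mk fun m => x m l) (map (cst L) G) = Om.mk fun m => eval (x m) G := by
  rw [eval_map, Pool.Agent.TH145.MG.eval_mk]

theorem single_mk {n : ℕ} (j l : Fin (n + 1)) :
    (Pi.single j 1 : Fin (n + 1) → Om L) l = Om.mk fun _ => (Pi.single j 1 : Fin (n + 1) → L) l := by
  by_cases h : l = j
  · rw [h, Pi.single_eq_same]
    simp only [Pi.single_eq_same]
    rfl
  · rw [Pi.single_eq_of_ne h]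
    simp only [Pi.single_eq_of_ne h]
    rfl

theorem wv_mk {n : ℕ} (F : MvPolynomial (Fin (n + 1)) L)
    (D : (Fin (n + 1) →₀ ℕ) → Derivation ℤ L L) (x : ℕ → Fin (n + 1) → L)
    (pq : Fin (n + 1) × Fin (n + 1)) (l : Fin (n + 1)) :
    wv (map (cst L) F) (fun I => hat (D I)) (fun l => Om.mk fun m => x m l) pq l =
      Om.mk fun m => wv F D (x m) pq l := by
  unfold wv
  have h1 : X pq.2 * pderiv pq.1 (map (cst L) F) = map (cst L) (X pq.2 * pderiv pq.1 F) := by
    rw [map_mul, map_X, pderiv_map]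
  rw [h1, Pi.add_apply, Pi.smul_apply, smul_eq_mul, vec_mk, single_mk, Om.mk_mul, Om.mk_add]
  rfl

theorem vl_mk (e x u v : ℕ → Fin (3 + 1) → L) :
    vl (fun l => Om.mk fun m => e m l) (fun l => Om.mk fun m => x m l)
      (fun l => Om.mk fun m => u m l) (fun l => Om.mk fun m => v m l) =
      Om.mk fun m => vl (e m) (x m) (u m) (v m) := by
  obtain ⟨M, hM⟩ : ∃ M : Matrix (Fin (3 + 1)) (Fin (3 + 1)) (ℕ → L),
    M = Matrix.of ![fun l m => e m l, fun l m => x m l, fun l m => u m l, fun l m => v m l] :=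
    ⟨_, rfl⟩
  have h1 := (mkHom L).map_det M
  have h2 : (mkHom L).mapMatrix M = Matrix.of ![(fun l => Om.mk fun m => e m l),
      (fun l => Om.mk fun m => x m l), (fun l => Om.mk fun m => u m l),
      fun l => Om.mk fun m => v m l] := by
    rw [hM]
    ext i l
    fin_cases i <;> rfl
  rw [h2] at h1
  refine Eq.trans h1.symm ?_
  rw [mkHom_apply]
  congr 1
  funext m
  have h3 := (Pi.evalRingHom (fun _ : ℕ => L) m).map_det M
  refine Eq.trans h3 ?_
  unfold vl
  congr 1
  rw [hM]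
  ext i l
  fin_cases i <;> rfl

theorem Dj_mk (D : (Fin (3 + 1) →₀ ℕ) → Derivation ℤ L L) (x : ℕ → Fin (3 + 1) → L)
    (j : Fin (3 + 1)) (Q : MvPolynomial (Fin (3 + 1)) L) (a b c : Fin (3 + 1)) :
    Dj (fun I => hat (D I)) (fun l => Om.mk fun m => x m l) j (map (cst L) Q) a b c =
      Om.mk fun m => Dj D (x m) j Q a b c := by
  have hs : (Pi.single j 1 : Fin (3 + 1) → Om L) =
      fun l => Om.mk fun _ => (Pi.single j 1 : Fin (3 + 1) → L) l := funext fun l => single_mk j l
  have hv : ∀ i, vec (fun I => hat (D I)) (fun l => Om.mk fun m => x m l)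
      (map (cst L) Q * X i) = fun l => Om.mk fun m => vec D (x m) (Q * X i) l := by
    intro i
    funext l
    have h1 : map (cst L) Q * X i = map (cst L) (Q * X i) := by rw [map_mul, map_X]
    rw [h1, vec_mk]
  unfold Dj
  rw [hs, hv, hv, hv]
  have h := fun p q : Fin (3 + 1) => vl_mk (fun _ => (Pi.single j 1 : Fin (3 + 1) → L)) x
    (fun m => vec D (x m) (Q * X p)) (fun m => vec D (x m) (Q * X q))
  rw [h, h, h]
  simp only [← mkHom_apply]
  rw [← map_mul, ← map_mul, ← map_mul, ← map_sub, ← map_add]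
  rfl

end mk

/-- The minors as bilinear forms. -/
theorem exists_ADj {K : Type} [Field K] (D : (Fin (3 + 1) →₀ ℕ) → Derivation ℤ K K)
    (x : Fin (3 + 1) → K) (j : Fin (3 + 1)) :
    ∃ A : MvPolynomial (Fin (3 + 1)) K →ₗ[K] MvPolynomial (Fin (3 + 1)) K →ₗ[K] K,
      ∀ Q a b c, Bl A x Q Q a b c = Dj D x j Q a b c := by
  obtain ⟨A, hA⟩ := exists_vlb (Pi.single j (1 : K)) x
  refine ⟨A.compl₁₂ (vec D x) (vec D x), fun Q a b c => ?_⟩
  unfold Bl Dj
  rw [LinearMap.compl₁₂_apply, LinearMap.compl₁₂_apply, LinearMap.compl₁₂_apply, hA, hA, hA]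

/-- There are only finitely many minors to consider. -/
theorem Dj_zero {K : Type} [Field K] [CharZero K] {D : (Fin (3 + 1) →₀ ℕ) → Derivation ℤ K K}
    {x : Fin (3 + 1) → K} {j : Fin (3 + 1)}
    (h : ∀ I J : Fin (3 + 1) →₀ ℕ, I.degree = 4 → J.degree = 4 → ∀ a b c,
      Dj D x j (monomial I 1 + monomial J 1) a b c = 0)
    {Q : MvPolynomial (Fin (3 + 1)) K} (hQ : Q.IsHomogeneous 4) (a b c : Fin (3 + 1)) :
    Dj D x j Q a b c = 0 := by
  obtain ⟨A, hA⟩ := exists_ADj D x j
  obtain ⟨r, hr⟩ := Bl_all (k := K) (A := A) (x := x) (τ := 0) (e := 4)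
    (fun I J hI hJ a b c => ⟨0, by rw [hA, h I J hI hJ, mul_zero]⟩)
    (Q := Q) ⟨hQ, fun u => ⟨_, rfl⟩⟩ a b c
  rw [← hA, hr, mul_zero]

/-- The limits of the remaining points have bounded height. -/
theorem ultra5 {κ L : Type} [Field κ] [Field L] [Algebra κ L] [CharZero κ] [IsFF κ L]
    [IsAlgClosed κ] {F : MvPolynomial (Fin (3 + 1)) L}
    {D : (Fin (3 + 1) →₀ ℕ) → Derivation ℤ L L} {e g : Place κ L → ℤ}
    (hdat : Data κ F 5 D e g) {N : ℕ}
    {Q : Fin (3 + 1) → Fin (3 + 1) → MvPolynomial (Fin (3 + 1)) L}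
    (hnull : ∀ l, X l ^ N = ∑ i, Q l i * pderiv i F) (hgen : GenF 5 F) {l0 : Fin (3 + 1)}
    (x : ℕ → Fin (3 + 1) → L) (hx : ∀ m, x m l0 = 1) (hxF : ∀ m, eval (x m) F = 0)
    (hR : ∀ m, Rest κ F D (x m)) (l : Fin (3 + 1)) : Om.mk (fun m => x m l) ∈ EE κ L := by
  classical
  have hczL : CharZero L := charZero_of_injective_algebraMap (algebraMap κ L).injective
  have hczOm : CharZero (Om L) :=
    charZero_of_injective_algebraMap (algebraMap L (Om L)).injective
  obtain ⟨ι, hι⟩ : ∃ ι : Om L →+* AlgebraicClosure (Om L),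
    ι = algebraMap (Om L) (AlgebraicClosure (Om L)) := ⟨_, rfl⟩
  have hczK : CharZero (AlgebraicClosure (Om L)) :=
    charZero_of_injective_algebraMap (algebraMap (Om L) (AlgebraicClosure (Om L))).injective
  have hac : IsAlgClosed (algebraicClosure (EE κ L) (AlgebraicClosure (Om L))) :=
    (algebraicClosure.isAlgClosure (EE κ L) (AlgebraicClosure (Om L))).isAlgClosed
  have hcz1 : CharZero (algebraicClosure (EE κ L) (AlgebraicClosure (Om L))) := by
    constructor
    intro a b hab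
    have h1 := congrArg (fun z : algebraicClosure (EE κ L) (AlgebraicClosure (Om L)) =>
      (z : AlgebraicClosure (Om L))) hab
    simpa using h1
  have hmem : ∀ z ∈ EE κ L, ι z ∈ algebraicClosure (EE κ L) (AlgebraicClosure (Om L)) := by
    intro z hz
    rw [mem_algebraicClosure_iff]
    have h1 : ι z = algebraMap (EE κ L) (AlgebraicClosure (Om L)) ⟨z, hz⟩ := by
      rw [IsScalarTower.algebraMap_apply (EE κ L) (Om L) (AlgebraicClosure (Om L)), hι]
      rfl
    rw [h1]
    exact isAlgebraic_algebraMap _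
  have hmem' : ∀ z, ι z ∈ algebraicClosure (EE κ L) (AlgebraicClosure (Om L)) → z ∈ EE κ L := by
    intro z hz
    rw [mem_algebraicClosure_iff, hι] at hz
    exact Pool.Agent.TH145.MG.mem_of_isAlgebraic
      ((isAlgebraic_algebraMap_iff (algebraMap (Om L) (AlgebraicClosure (Om L))).injective).1 hz)
  let φ : L →+* algebraicClosure (EE κ L) (AlgebraicClosure (Om L)) :=
    { toFun := fun a => ⟨ι (cst L a), hmem _ (cst_mem κ L a)⟩
      map_one' := Subtype.ext (by
        change ι (cst L 1) = 1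
        rw [map_one, map_one])
      map_mul' := fun a b => Subtype.ext (by
        change ι (cst L (a * b)) = ι (cst L a) * ι (cst L b)
        rw [map_mul, map_mul])
      map_zero' := Subtype.ext (by
        change ι (cst L 0) = 0
        rw [map_zero, map_zero])
      map_add' := fun a b => Subtype.ext (by
        change ι (cst L (a + b)) = ι (cst L a) + ι (cst L b)
        rw [map_add, map_add]) }
  have hFF : map ι (map (cst L) F) = map (algebraMap (algebraicClosure (EE κ L)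
      (AlgebraicClosure (Om L))) (AlgebraicClosure (Om L))) (map φ F) := by
    rw [map_map, map_map]
    congr 1
  -- the limit point
  obtain ⟨z, hz⟩ : ∃ z : Fin (3 + 1) → Om L, z = fun l => Om.mk fun m => x m l := ⟨_, rfl⟩
  have hz0 : z ≠ 0 := by
    intro h0
    have h1 := congrFun h0 l0
    rw [hz] at h1
    simp only [hx] at h1
    exact one_ne_zero h1
  obtain ⟨j, hj⟩ := smooth_map (cst L) hnull z hz0
  have hj' : ∀ᶠ m in (Filter.hyperfilter ℕ : Filter ℕ), eval (x m) (pderiv j F) ≠ 0 := by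
    rw [pderiv_map, hz, eval_cst] at hj
    rw [Ultrafilter.eventually_not]
    intro h0
    apply hj
    exact Om.mk_eq.2 h0
  have hmon : ∀ I J : Fin (3 + 1) →₀ ℕ, (monomial I 1 + monomial J 1 :
      MvPolynomial (Fin (3 + 1)) (Om L)) = map (cst L) (monomial I 1 + monomial J 1) := by
    intro I J
    rw [map_add, MvPolynomial.map_monomial, MvPolynomial.map_monomial, (cst L).map_one]
  have hCS : ∀ I J : Fin (3 + 1) →₀ ℕ, I.degree = 4 → J.degree = 4 →
      (monomial I 1 + monomial J 1 : MvPolynomial (Fin (3 + 1)) L) ∈ CS κ L 3 4 :=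
    fun I J hI hJ => add_mem (monomial_mem_CS hI) (monomial_mem_CS hJ)
  have hfd := finite_deg 3 4
  have key := level ι hFF (hdat.hom.map φ) (fun p => (hgen.map φ).no_lines (hdat.hom.map φ) p)
    (fun ψ hψ => (hgen.map φ).no_conics (hdat.hom.map φ) ψ hψ) (fun p hp => smooth_map φ hnull p hp)
    (D := fun I => hat (D I)) (x := z) (l0 := l0) (by
      rw [hz]
      simp only [hx]
      rfl) (by
      rw [hz, eval_cst]
      simp only [hxF]
      rfl) (fun pq => by
      choose a ha using fun m => (hR m).1 pq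
      refine ⟨Om.mk a, ?_⟩
      funext l
      rw [hz, wv_mk, Pi.smul_apply, smul_eq_mul, Om.mk_mul]
      congr 1
      funext m
      rw [ha]
      rfl) (j := j) hj (by
      by_contra hcon
      push Not at hcon
      have h1 : ∀ t : {I : Fin (3 + 1) →₀ ℕ // I.degree = 4} ×
          {I : Fin (3 + 1) →₀ ℕ // I.degree = 4} × Fin (3 + 1) × Fin (3 + 1) × Fin (3 + 1),
          ∀ᶠ m in (Filter.hyperfilter ℕ : Filter ℕ),
          Dj D (x m) j (monomial t.1.1 1 + monomial t.2.1.1 1) t.2.2.1 t.2.2.2.1 t.2.2.2.2 = 0 := by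
        rintro ⟨I, J, a, b, c⟩
        have h2 := hcon I.1 J.1 I.2 J.2 a b c
        rw [hmon, hz, Dj_mk] at h2
        exact Om.mk_eq.1 h2
      obtain ⟨m, h2, h3⟩ := ((Filter.eventually_all.2 h1).and hj').exists
      obtain ⟨-, R, hRR, a, b, c, hne⟩ := hR m
      exact hne j h3 (Dj_zero (fun I J hI hJ a b c => h2 (⟨I, hI⟩, ⟨J, hJ⟩, a, b, c)) hRR.1 a b c))
    (fun I J I' J' hI hJ hI' hJ' a b c a' b' c' hne => by
      rw [hmon, hz, Dj_mk] at hne
      rw [hmon, hmon, hz, Dj_mk, Dj_mk, Om.mk_div]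
      refine ⟨⟨_, hmem _ (Pool.Agent.TH145.MG.mem_of_bdd (k := κ) (B := CC 3 e g) ?_)⟩, rfl⟩
      have h1 : ∀ᶠ m in (Filter.hyperfilter ℕ : Filter ℕ),
          Dj D (x m) j (monomial I' 1 + monomial J' 1) a' b' c' ≠ 0 := by
        rw [Ultrafilter.eventually_not]
        intro h0
        apply hne
        exact Om.mk_eq.2 h0
      filter_upwards [hj', h1] with m h2 h3
      exact ratio_Dj hdat (hxF m) h2 (hCS I J hI hJ) (hCS I' J' hI' hJ') a b c a' b' c' h3) l
  obtain ⟨w, hw⟩ := key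
  have h1 : ι (z l) ∈ algebraicClosure (EE κ L) (AlgebraicClosure (Om L)) := by
    rw [← hw]
    exact w.2
  have h2 := hmem' _ h1
  rw [hz] at h2
  exact h2

/-- The heights of the remaining points are bounded. -/
theorem bounded5 {κ L : Type} [Field κ] [Field L] [Algebra κ L] [CharZero κ] [IsFF κ L]
    [IsAlgClosed κ] {F : MvPolynomial (Fin (3 + 1)) L}
    {D : (Fin (3 + 1) →₀ ℕ) → Derivation ℤ L L} {e g : Place κ L → ℤ}
    (hdat : Data κ F 5 D e g) {N : ℕ}
    {Q : Fin (3 + 1) → Fin (3 + 1) → MvPolynomial (Fin (3 + 1)) L}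
    (hnull : ∀ l, X l ^ N = ∑ i, Q l i * pderiv i F) (hgen : GenF 5 F) (l0 : Fin (3 + 1)) :
    ∃ B : ℤ, ∀ x : Fin (3 + 1) → L, x l0 = 1 → eval x F = 0 → Rest κ F D x →
      ∀ l, hgt κ (x l) ≤ B := by
  classical
  by_contra hcon
  push Not at hcon
  choose x hx hxF hR l hl using fun m : ℕ => hcon (m : ℤ)
  have h1 := ultra5 hdat hnull hgen x hx hxF hR
  choose B hB using fun l => Pool.Agent.TH145.MG.bdd_of_mem (h1 l)
  obtain ⟨C, hC⟩ : ∃ C : ℕ, ∀ l, B l ≤ C := by
    refine ⟨∑ l, (B l).toNat, fun l => ?_⟩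
    have h2 := Finset.single_le_sum (f := fun l => (B l).toNat) (fun _ _ => Nat.zero_le _)
      (Finset.mem_univ l)
    have h3 := Int.self_le_toNat (B l)
    push_cast
    have h4 : (((B l).toNat : ℕ) : ℤ) ≤ ((∑ l, (B l).toNat : ℕ) : ℤ) := by exact_mod_cast h2
    push_cast at h4
    linarith
  have h2 : ∀ᶠ m in (Filter.hyperfilter ℕ : Filter ℕ), C ≤ m := by
    have h3 : ∀ᶠ m in (Filter.cofinite : Filter ℕ), C ≤ m := by
      rw [Nat.cofinite_eq_atTop]
      exact Filter.eventually_ge_atTop C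
    exact Filter.hyperfilter_le_cofinite h3
  obtain ⟨m, h3, h4⟩ := ((Filter.eventually_all.2 hB).and h2).exists
  have h5 := hl m
  have h6 := h3 (l m)
  have h7 := hC (l m)
  have h8 : (C : ℤ) ≤ m := by exact_mod_cast h4
  linarith

end Pool.Agent.Y735.S
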