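import Pool.Agent.Y735.S.Red

/-!
Planes.
-/

set_option autoImplicit false

open MvPolynomial

namespace Pool.Agent.Y735.S

variable {k K : Type} [Field k] [Field K] [Algebra k K]

theorem CS_smul {n e : ℕ} (c : k) {Q : MvPolynomial (Fin (n + 1)) K} (hQ : Q ∈ CS k K n e) :
    algebraMap k K c • Q ∈ CS k K n e := by
  refine ⟨?_, fun u => ?_⟩
  · rw [smul_eq_C_mul]
    have := (isHomogeneous_C (Fin (n + 1)) (algebraMap k K c)).mul hQ.1
    rwa [zero_add] at this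
  · obtain ⟨c', hc⟩ := hQ.2 u
    exact ⟨c * c', by rw [coeff_smul, hc, smul_eq_mul, map_mul]⟩

/-- Two vectors in the kernel of a linear form in two variables. -/
theorem par2 {φ0 φ1 u0 u1 z0 z1 : K} (hφ : φ0 ≠ 0 ∨ φ1 ≠ 0) (hu : φ0 * u0 + φ1 * u1 = 0)
    (hz : φ0 * z0 + φ1 * z1 = 0) (hu0 : u0 ≠ 0 ∨ u1 ≠ 0) : ∃ c : K, z0 = c * u0 ∧ z1 = c * u1 := by
  have h1 : z0 * u1 = z1 * u0 := by
    rcases hφ with h | h
    · have : φ0 * (z0 * u1 - z1 * u0) = 0 := by linear_combination u1 * hz - z1 * hu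
      exact sub_eq_zero.1 ((mul_eq_zero.1 this).resolve_left h)
    · have : φ1 * (z0 * u1 - z1 * u0) = 0 := by linear_combination z0 * hu - u0 * hz
      exact sub_eq_zero.1 ((mul_eq_zero.1 this).resolve_left h)
  rcases hu0 with h | h
  · exact ⟨z0 / u0, (div_mul_cancel₀ _ h).symm, by
      rw [div_mul_eq_mul_div, eq_div_iff h, h1]⟩
  · exact ⟨z1 / u1, by rw [div_mul_eq_mul_div, eq_div_iff h, h1], (div_mul_cancel₀ _ h).symm⟩

/-- The normalised case. -/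
theorem alg3a [IsAlgClosed k] [CharZero k] {x : Fin (2 + 1) → K} (hx : x ≠ 0)
    {g : Fin 2 → MvPolynomial (Fin (2 + 1)) K →ₗ[K] K} {m : Fin 2 → Fin (2 + 1) → K}
    (perp : ∀ j, ∑ l, m j l * x l = 0)
    (indep : ∀ a b : K, (∀ l, a * m 0 l + b * m 1 l = 0) → a = 0 ∧ b = 0)
    {Q1 : MvPolynomial (Fin (2 + 1)) K} (hQ1 : Q1 ∈ CS k K 2 4)
    (h00 : g 0 (Q1 * lf (m 0)) = 1) (h01 : g 0 (Q1 * lf (m 1)) = 0)
    (h10 : g 1 (Q1 * lf (m 0)) = 0) (h11 : g 1 (Q1 * lf (m 1)) = 1)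
    (hdet : ∀ Q ∈ CS k K 2 4, In k (g 0 (Q * lf (m 0)) * g 1 (Q * lf (m 1)) -
      g 0 (Q * lf (m 1)) * g 1 (Q * lf (m 0))))
    (pts : ∀ p : Fin (2 + 1) → k, p ≠ 0 → ∃ P ∈ CS k K 2 4, eval (up K p) P ≠ 0 ∧
      ∀ i j, g i (P * lf (m j)) = 0)
    (free : ∃ P : MvPolynomial (Fin (2 + 1)) K, P.IsHomogeneous 4 ∧ eval x P = 0 ∧
      (∀ i j, g i (P * lf (m j)) = 0) ∧ ∃ (μ : Fin (2 + 1) → K) (i : Fin 2), g i (P * lf μ) ≠ 0) :
    Quad k x ∨ OnLn k x := by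
  classical
  have htr : ∀ Q ∈ CS k K 2 4, In k (g 0 (Q * lf (m 0)) + g 1 (Q * lf (m 1))) := by
    intro Q hQ
    have h1 := hdet _ (add_mem hQ hQ1)
    rw [add_mul, add_mul, map_add, map_add, map_add, map_add, h00, h01, h10, h11, add_zero,
      add_zero] at h1
    have h2 := (h1.sub (hdet Q hQ)).sub In.one
    have h3 : (g 0 (Q * lf (m 0)) + 1) * (g 1 (Q * lf (m 1)) + 1) -
        g 0 (Q * lf (m 1)) * g 1 (Q * lf (m 0)) -
        (g 0 (Q * lf (m 0)) * g 1 (Q * lf (m 1)) -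
          g 0 (Q * lf (m 1)) * g 1 (Q * lf (m 0))) - 1 =
        g 0 (Q * lf (m 0)) + g 1 (Q * lf (m 1)) := by ring
    rw [h3] at h2
    exact h2
  -- the reducible case
  by_cases hred : ∃ v0 v1 : K, (v0 ≠ 0 ∨ v1 ≠ 0) ∧ ∀ Q ∈ CS k K 2 4, ∃ c : K,
      g 0 (Q * lf (m 0)) * v0 + g 0 (Q * lf (m 1)) * v1 = c * v0 ∧
      g 1 (Q * lf (m 0)) * v0 + g 1 (Q * lf (m 1)) * v1 = c * v1
  · right
    obtain ⟨v0, v1, hv, heig⟩ := hred
    by_cases hv0 : v0 = 0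
    · have hv1 : v1 ≠ 0 := hv.resolve_left (not_not.2 hv0)
      refine red_core (g0 := g 1) (g1 := g 0) (m0 := m 1) (m1 := m 0) (perp 1) (perp 0)
        (fun a b h => ?_) (v0 := v1) (v1 := v0) hv1 (fun Q hQ => ?_) (fun Q hQ => ?_)
        (fun Q hQ => ?_) ⟨Q1, hQ1, ?_⟩ fun p hp => ?_
      · have h1 := indep b a fun l => by
          have := h l
          linear_combination this
        exact ⟨h1.2, h1.1⟩
      · obtain ⟨c, h1, h2⟩ := heig Q hQ
        exact ⟨c, by linear_combination h2, by linear_combination h1⟩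
      · have := htr Q hQ
        rwa [add_comm] at this
      · have := hdet Q hQ
        have h3 : g 1 (Q * lf (m 1)) * g 0 (Q * lf (m 0)) -
          g 1 (Q * lf (m 0)) * g 0 (Q * lf (m 1)) = g 0 (Q * lf (m 0)) * g 1 (Q * lf (m 1)) -
          g 0 (Q * lf (m 1)) * g 1 (Q * lf (m 0)) := by ring
        rw [h3]
        exact this
      · rw [h00, h10, mul_one, mul_zero, sub_zero]
        exact hv1
      · obtain ⟨P, hP, hPp, hPg⟩ := pts p hp
        exact ⟨P, hP, hPp, hPg 1 0, hPg 0 0⟩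
    · refine red_core (g0 := g 0) (g1 := g 1) (m0 := m 0) (m1 := m 1) (perp 0) (perp 1)
        indep (v0 := v0) (v1 := v1) hv0 heig htr hdet ⟨Q1, hQ1, ?_⟩ fun p hp => ?_
      · rw [h11, h01, mul_one, mul_zero, sub_zero]
        exact hv0
      · obtain ⟨P, hP, hPp, hPg⟩ := pts p hp
        exact ⟨P, hP, hPp, hPg 0 1, hPg 1 1⟩
  -- the irreducible case
  obtain ⟨W, hW⟩ : ∃ W : Submodule k (Matrix (Fin 2) (Fin 2) K), ∀ A, A ∈ W ↔
      ∃ Q ∈ CS k K 2 4, ∀ i j, A i j = g i (Q * lf (m j)) := by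
    refine ⟨{ carrier := {A | ∃ Q ∈ CS k K 2 4, ∀ i j, A i j = g i (Q * lf (m j))}
              add_mem' := ?_
              zero_mem' := ?_
              smul_mem' := ?_ }, fun A => Iff.rfl⟩
    · rintro A B ⟨Q, hQ, hA⟩ ⟨R, hR, hB⟩
      exact ⟨Q + R, add_mem hQ hR, fun i j => by rw [Matrix.add_apply, hA, hB, add_mul, map_add]⟩
    · exact ⟨0, zero_mem _, fun i j => by rw [Matrix.zero_apply, zero_mul, map_zero]⟩
    · rintro c A ⟨Q, hQ, hA⟩
      exact ⟨_, CS_smul c hQ, fun i j => by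
        rw [Matrix.smul_apply, hA, smul_mul_assoc, map_smul, Algebra.smul_def, smul_eq_mul]⟩
  rcases mat2 W (fun A hA => by
      obtain ⟨Q, hQ, h⟩ := (hW A).1 hA
      rw [h, h]
      exact htr Q hQ) (fun A hA => by
      obtain ⟨Q, hQ, h⟩ := (hW A).1 hA
      rw [h, h, h, h]
      exact hdet Q hQ) with ⟨v0, v1, hv, h⟩ | ⟨v0, v1, w0, w1, hD, h⟩
  · exfalso
    apply hred
    refine ⟨v0, v1, hv, fun Q hQ => ?_⟩
    obtain ⟨c, h1, h2⟩ := h (Matrix.of fun i j => g i (Q * lf (m j))) ((hW _).2 ⟨Q, hQ,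
      fun i j => rfl⟩)
    exact ⟨c, h1, h2⟩
  -- the system
  obtain ⟨D, hDD⟩ : ∃ D, D = v0 * w1 - v1 * w0 := ⟨_, rfl⟩
  rw [← hDD] at hD
  obtain ⟨m', hm'⟩ : ∃ m' : Fin 2 → Fin (2 + 1) → K, m' = ![fun l => v0 * m 0 l + v1 * m 1 l,
    fun l => w0 * m 0 l + w1 * m 1 l] := ⟨_, rfl⟩
  obtain ⟨g', hg'⟩ : ∃ g' : Fin 2 → MvPolynomial (Fin (2 + 1)) K →ₗ[K] K,
    g' = ![D⁻¹ • (w1 • g 0 - w0 • g 1), D⁻¹ • (v0 • g 1 - v1 • g 0)] := ⟨_, rfl⟩
  have hg0 : ∀ G, g' 0 G = D⁻¹ * (w1 * g 0 G - w0 * g 1 G) := fun G => by rw [hg']; rfl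
  have hg1 : ∀ G, g' 1 G = D⁻¹ * (v0 * g 1 G - v1 * g 0 G) := fun G => by rw [hg']; rfl
  have hcomb : ∀ (p q : K) (Q : MvPolynomial (Fin (2 + 1)) K) (i : Fin 2),
      g i (Q * lf (fun l => p * m 0 l + q * m 1 l)) =
        g i (Q * lf (m 0)) * p + g i (Q * lf (m 1)) * q := by
    intro p q Q i
    rw [lf_comb, mul_add, mul_smul_comm, mul_smul_comm, map_add, map_smul, map_smul, smul_eq_mul,
      smul_eq_mul]
    ring
  have hm0 : ∀ Q i, g i (Q * lf (m' 0)) = g i (Q * lf (m 0)) * v0 + g i (Q * lf (m 1)) * v1 := by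
    intro Q i
    rw [hm']
    exact hcomb v0 v1 Q i
  have hm1 : ∀ Q i, g i (Q * lf (m' 1)) = g i (Q * lf (m 0)) * w0 + g i (Q * lf (m 1)) * w1 := by
    intro Q i
    rw [hm']
    exact hcomb w0 w1 Q i
  have hsum : ∀ p q : K, ∑ l, (p * m 0 l + q * m 1 l) * x l = 0 := by
    intro p q
    have h1 : ∀ l, (p * m 0 l + q * m 1 l) * x l = p * (m 0 l * x l) + q * (m 1 l * x l) :=
      fun l => by ring
    rw [Finset.sum_congr rfl fun l _ => h1 l, Finset.sum_add_distrib, ← Finset.mul_sum,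
      ← Finset.mul_sum, perp, perp, mul_zero, mul_zero, add_zero]
  have hzero : ∀ P : MvPolynomial (Fin (2 + 1)) K, (∀ i j, g i (P * lf (m j)) = 0) →
      ∀ i j, g' i (P * lf (m' j)) = 0 := by
    intro P hP i j
    have h1 : ∀ i j, g i (P * lf (m' j)) = 0 := by
      intro i j
      fin_cases j
      · change g i (P * lf (m' 0)) = 0
        rw [hm0, hP, hP, zero_mul, zero_mul, add_zero]
      · change g i (P * lf (m' 1)) = 0
        rw [hm1, hP, hP, zero_mul, zero_mul, add_zero]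
    fin_cases i
    · change g' 0 (P * lf (m' j)) = 0
      rw [hg0, h1, h1, mul_zero, mul_zero, sub_zero, mul_zero]
    · change g' 1 (P * lf (m' j)) = 0
      rw [hg1, h1, h1, mul_zero, mul_zero, sub_zero, mul_zero]
  refine irr_main (g := g') (m := m') ⟨hx, fun j => ?_, fun p q hpq => ?_, fun Q hQ i j => ?_,
    fun e φ he hφ => ?_, fun p hp => ?_, ?_⟩
  · rw [hm']
    fin_cases j
    · exact hsum v0 v1
    · exact hsum w0 w1
  · have h1 := indep (p * v0 + q * w0) (p * v1 + q * w1) fun l => by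
      have := hpq l
      rw [hm'] at this
      change p * (v0 * m 0 l + v1 * m 1 l) + q * (w0 * m 0 l + w1 * m 1 l) = 0 at this
      linear_combination this
    have h2 : p * D = 0 := by rw [hDD]; linear_combination w1 * h1.1 - w0 * h1.2
    have h3 : q * D = 0 := by rw [hDD]; linear_combination v0 * h1.2 - v1 * h1.1
    exact ⟨(mul_eq_zero.1 h2).resolve_right hD, (mul_eq_zero.1 h3).resolve_right hD⟩
  · obtain ⟨a, b, c, d, ha, hb, hc, hd, e1, e2, e3, e4⟩ :=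
      h (Matrix.of fun i j => g i (Q * lf (m j))) ((hW _).2 ⟨Q, hQ, fun i j => rfl⟩)
    change g 0 (Q * lf (m 0)) * v0 + g 0 (Q * lf (m 1)) * v1 = a * v0 + c * w0 at e1
    change g 1 (Q * lf (m 0)) * v0 + g 1 (Q * lf (m 1)) * v1 = a * v1 + c * w1 at e2
    change g 0 (Q * lf (m 0)) * w0 + g 0 (Q * lf (m 1)) * w1 = b * v0 + d * w0 at e3
    change g 1 (Q * lf (m 0)) * w0 + g 1 (Q * lf (m 1)) * w1 = b * v1 + d * w1 at e4
    have f00 : g' 0 (Q * lf (m' 0)) = a := by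
      rw [hg0, hm0, hm0, e1, e2]
      have : w1 * (a * v0 + c * w0) - w0 * (a * v1 + c * w1) = D * a := by rw [hDD]; ring
      rw [this, ← mul_assoc, inv_mul_cancel₀ hD, one_mul]
    have f10 : g' 1 (Q * lf (m' 0)) = c := by
      rw [hg1, hm0, hm0, e1, e2]
      have : v0 * (a * v1 + c * w1) - v1 * (a * v0 + c * w0) = D * c := by rw [hDD]; ring
      rw [this, ← mul_assoc, inv_mul_cancel₀ hD, one_mul]
    have f01 : g' 0 (Q * lf (m' 1)) = b := by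
      rw [hg0, hm1, hm1, e3, e4]
      have : w1 * (b * v0 + d * w0) - w0 * (b * v1 + d * w1) = D * b := by rw [hDD]; ring
      rw [this, ← mul_assoc, inv_mul_cancel₀ hD, one_mul]
    have f11 : g' 1 (Q * lf (m' 1)) = d := by
      rw [hg1, hm1, hm1, e3, e4]
      have : v0 * (b * v1 + d * w1) - v1 * (b * v0 + d * w0) = D * d := by rw [hDD]; ring
      rw [this, ← mul_assoc, inv_mul_cancel₀ hD, one_mul]
    fin_cases i <;> fin_cases j
    · exact f00 ▸ ha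
    · exact f01 ▸ hb
    · exact f10 ▸ hc
    · exact f11 ▸ hd
  · by_contra hcon
    push Not at hcon
    apply hred
    -- the vector and the linear form in the old bases
    obtain ⟨u0, hu0⟩ : ∃ u, u = e 0 * v0 + e 1 * w0 := ⟨_, rfl⟩
    obtain ⟨u1, hu1⟩ : ∃ u, u = e 0 * v1 + e 1 * w1 := ⟨_, rfl⟩
    obtain ⟨ψ0, hψ0⟩ : ∃ u, u = φ 0 * w1 - φ 1 * v1 := ⟨_, rfl⟩
    obtain ⟨ψ1, hψ1⟩ : ∃ u, u = φ 1 * v0 - φ 0 * w0 := ⟨_, rfl⟩
    have key : ∀ Q ∈ CS k K 2 4, ψ0 * (g 0 (Q * lf (m 0)) * u0 + g 0 (Q * lf (m 1)) * u1) +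
        ψ1 * (g 1 (Q * lf (m 0)) * u0 + g 1 (Q * lf (m 1)) * u1) = 0 := by
      intro Q hQ
      have h1 := hcon Q hQ
      rw [Fin.sum_univ_two, hg0, hg0, hg1, hg1, hm0, hm0, hm1, hm1] at h1
      have h2 : D * (φ 0 * (e 0 * (D⁻¹ * (w1 * (g 0 (Q * lf (m 0)) * v0 + g 0 (Q * lf (m 1)) * v1) -
          w0 * (g 1 (Q * lf (m 0)) * v0 + g 1 (Q * lf (m 1)) * v1))) +
          e 1 * (D⁻¹ * (w1 * (g 0 (Q * lf (m 0)) * w0 + g 0 (Q * lf (m 1)) * w1) -
          w0 * (g 1 (Q * lf (m 0)) * w0 + g 1 (Q * lf (m 1)) * w1)))) +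
          φ 1 * (e 0 * (D⁻¹ * (v0 * (g 1 (Q * lf (m 0)) * v0 + g 1 (Q * lf (m 1)) * v1) -
          v1 * (g 0 (Q * lf (m 0)) * v0 + g 0 (Q * lf (m 1)) * v1))) +
          e 1 * (D⁻¹ * (v0 * (g 1 (Q * lf (m 0)) * w0 + g 1 (Q * lf (m 1)) * w1) -
          v1 * (g 0 (Q * lf (m 0)) * w0 + g 0 (Q * lf (m 1)) * w1))))) =
          ψ0 * (g 0 (Q * lf (m 0)) * u0 + g 0 (Q * lf (m 1)) * u1) +
        ψ1 * (g 1 (Q * lf (m 0)) * u0 + g 1 (Q * lf (m 1)) * u1) := by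
        rw [hψ0, hψ1, hu0, hu1]
        have hDi : D * D⁻¹ = 1 := mul_inv_cancel₀ hD
        linear_combination (φ 0 * (e 0 * (w1 * (g 0 (Q * lf (m 0)) * v0 + g 0 (Q * lf (m 1)) * v1) -
          w0 * (g 1 (Q * lf (m 0)) * v0 + g 1 (Q * lf (m 1)) * v1)) +
          e 1 * (w1 * (g 0 (Q * lf (m 0)) * w0 + g 0 (Q * lf (m 1)) * w1) -
          w0 * (g 1 (Q * lf (m 0)) * w0 + g 1 (Q * lf (m 1)) * w1))) +
          φ 1 * (e 0 * (v0 * (g 1 (Q * lf (m 0)) * v0 + g 1 (Q * lf (m 1)) * v1) -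
          v1 * (g 0 (Q * lf (m 0)) * v0 + g 0 (Q * lf (m 1)) * v1)) +
          e 1 * (v0 * (g 1 (Q * lf (m 0)) * w0 + g 1 (Q * lf (m 1)) * w1) -
          v1 * (g 0 (Q * lf (m 0)) * w0 + g 0 (Q * lf (m 1)) * w1)))) * hDi
      rw [← h2, h1, mul_zero]
    have hu : u0 ≠ 0 ∨ u1 ≠ 0 := by
      by_contra hc
      push Not at hc
      apply he
      have h1 : e 0 * D = 0 := by
        rw [hDD]
        linear_combination w1 * (hu0.symm.trans hc.1) - w0 * (hu1.symm.trans hc.2)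
      have h2 : e 1 * D = 0 := by
        rw [hDD]
        linear_combination v0 * (hu1.symm.trans hc.2) - v1 * (hu0.symm.trans hc.1)
      funext j
      fin_cases j
      · exact (mul_eq_zero.1 h1).resolve_right hD
      · exact (mul_eq_zero.1 h2).resolve_right hD
    have hψ : ψ0 ≠ 0 ∨ ψ1 ≠ 0 := by
      by_contra hc
      push Not at hc
      apply hφ
      have h1 : φ 0 * D = 0 := by
        rw [hDD]
        linear_combination v0 * (hψ0.symm.trans hc.1) + v1 * (hψ1.symm.trans hc.2)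
      have h2 : φ 1 * D = 0 := by
        rw [hDD]
        linear_combination w0 * (hψ0.symm.trans hc.1) + w1 * (hψ1.symm.trans hc.2)
      funext j
      fin_cases j
      · exact (mul_eq_zero.1 h1).resolve_right hD
      · exact (mul_eq_zero.1 h2).resolve_right hD
    have h1 := key Q1 hQ1
    rw [h00, h01, h10, h11, one_mul, zero_mul, zero_mul, one_mul, add_zero, zero_add] at h1
    exact ⟨u0, u1, hu, fun Q hQ => par2 hψ h1 (key Q hQ) hu⟩
  · obtain ⟨P, hP, hPp, hPg⟩ := pts p hp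
    exact ⟨P, hP, hPp, hzero P hPg⟩
  · obtain ⟨P, hP, hPx, hPg, μ, i, hμ⟩ := free
    refine ⟨P, hP, hPx, hzero P hPg, μ, ?_⟩
    by_contra hcon
    push Not at hcon
    apply hμ
    have h0 := hcon 0
    have h1 := hcon 1
    rw [hg0] at h0
    rw [hg1] at h1
    have h0' := (mul_eq_zero.1 h0).resolve_left (inv_ne_zero hD)
    have h1' := (mul_eq_zero.1 h1).resolve_left (inv_ne_zero hD)
    have h2 : g 0 (P * lf μ) * D = 0 := by
      rw [hDD]
      linear_combination v0 * h0' + w0 * h1'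
    have h3 : g 1 (P * lf μ) * D = 0 := by
      rw [hDD]
      linear_combination v1 * h0' + w1 * h1'
    fin_cases i
    · exact (mul_eq_zero.1 h2).resolve_right hD
    · exact (mul_eq_zero.1 h3).resolve_right hD

end Pool.Agent.Y735.S
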