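import Pool.Agent.Y735.S.Alg3

/-!
Planes, continued.
-/

set_option autoImplicit false

open MvPolynomial

namespace Pool.Agent.Y735.S

variable {k K : Type} [Field k] [Field K] [Algebra k K]

/-- The minors. -/
noncomputable def D3 {n : ℕ} (g : Fin 2 → MvPolynomial (Fin (n + 1)) K →ₗ[K] K) (x : Fin (n + 1) → K)
    (Q : MvPolynomial (Fin (n + 1)) K) (a b c : Fin (n + 1)) : K :=
  x a * (g 0 (Q * X b) * g 1 (Q * X c) - g 0 (Q * X c) * g 1 (Q * X b)) -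
  x b * (g 0 (Q * X a) * g 1 (Q * X c) - g 0 (Q * X c) * g 1 (Q * X a)) +
  x c * (g 0 (Q * X a) * g 1 (Q * X b) - g 0 (Q * X b) * g 1 (Q * X a))

theorem exists_basis2 {x : Fin (2 + 1) → K} (hx : x ≠ 0) : ∃ m : Fin 2 → Fin (2 + 1) → K,
    (∀ j, ∑ l, m j l * x l = 0) ∧
    ∀ a b : K, (∀ l, a * m 0 l + b * m 1 l = 0) → a = 0 ∧ b = 0 := by
  obtain ⟨c, hc⟩ := Function.ne_iff.1 hx
  have hc' : x c ≠ 0 := hc
  fin_cases c
  · refine ⟨![![-x 1, x 0, 0], ![-x 2, 0, x 0]], fun j => ?_, fun a b h => ?_⟩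
    · rw [Fin.sum_univ_three]
      fin_cases j
      · change -x 1 * x 0 + x 0 * x 1 + 0 * x 2 = 0
        ring
      · change -x 2 * x 0 + 0 * x 1 + x 0 * x 2 = 0
        ring
    · have h1 : a * x 0 + b * 0 = 0 := h 1
      have h2 : a * 0 + b * x 0 = 0 := h 2
      rw [mul_zero, add_zero] at h1
      rw [mul_zero, zero_add] at h2
      exact ⟨(mul_eq_zero.1 h1).resolve_right hc', (mul_eq_zero.1 h2).resolve_right hc'⟩
  · refine ⟨![![x 1, -x 0, 0], ![0, -x 2, x 1]], fun j => ?_, fun a b h => ?_⟩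
    · rw [Fin.sum_univ_three]
      fin_cases j
      · change x 1 * x 0 + -x 0 * x 1 + 0 * x 2 = 0
        ring
      · change 0 * x 0 + -x 2 * x 1 + x 1 * x 2 = 0
        ring
    · have h1 : a * x 1 + b * 0 = 0 := h 0
      have h2 : a * 0 + b * x 1 = 0 := h 2
      rw [mul_zero, add_zero] at h1
      rw [mul_zero, zero_add] at h2
      exact ⟨(mul_eq_zero.1 h1).resolve_right hc', (mul_eq_zero.1 h2).resolve_right hc'⟩
  · refine ⟨![![x 2, 0, -x 0], ![0, x 2, -x 1]], fun j => ?_, fun a b h => ?_⟩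
    · rw [Fin.sum_univ_three]
      fin_cases j
      · change x 2 * x 0 + 0 * x 1 + -x 0 * x 2 = 0
        ring
      · change 0 * x 0 + x 2 * x 1 + -x 1 * x 2 = 0
        ring
    · have h1 : a * x 2 + b * 0 = 0 := h 0
      have h2 : a * 0 + b * x 2 = 0 := h 1
      rw [mul_zero, add_zero] at h1
      rw [mul_zero, zero_add] at h2
      exact ⟨(mul_eq_zero.1 h1).resolve_right hc', (mul_eq_zero.1 h2).resolve_right hc'⟩

/-- The case of the plane. -/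
theorem alg3 [IsAlgClosed k] [CharZero k] {x : Fin (2 + 1) → K} (hx : x ≠ 0)
    {g : Fin 2 → MvPolynomial (Fin (2 + 1)) K →ₗ[K] K} {τ : K}
    (hτ : ∀ Q ∈ CS k K 2 4, ∃ c : k, D3 g x Q 0 1 2 = algebraMap k K c * τ)
    (hne : ∃ Q ∈ CS k K 2 4, D3 g x Q 0 1 2 ≠ 0)
    (pts : ∀ p : Fin (2 + 1) → k, p ≠ 0 → ∃ P ∈ CS k K 2 4, eval (up K p) P ≠ 0 ∧
      ∀ i, ∀ m : Fin (2 + 1) → K, ∑ l, m l * x l = 0 → g i (P * lf m) = 0)
    (free : ∃ P : MvPolynomial (Fin (2 + 1)) K, P.IsHomogeneous 4 ∧ eval x P = 0 ∧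
      (∀ i, ∀ m : Fin (2 + 1) → K, ∑ l, m l * x l = 0 → g i (P * lf m) = 0) ∧
      ∃ (μ : Fin (2 + 1) → K) (i : Fin 2), g i (P * lf μ) ≠ 0) :
    Quad k x ∨ OnLn k x := by
  classical
  obtain ⟨m, perp, indep⟩ := exists_basis2 hx
  obtain ⟨c, e0, e1, e2⟩ := cross_eq perp indep
  have hc : c ≠ 0 := by
    rintro rfl
    apply hx
    funext l
    fin_cases l
    · rw [zero_mul] at e0; exact e0
    · rw [zero_mul] at e1; exact e1
    · rw [zero_mul] at e2; exact e2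
  have hlf : ∀ (Q : MvPolynomial (Fin (2 + 1)) K) (i j : Fin 2), g i (Q * lf (m j)) =
      m j 0 * g i (Q * X 0) + m j 1 * g i (Q * X 1) + m j 2 * g i (Q * X 2) := by
    intro Q i j
    rw [lf_apply, Fin.sum_univ_three, mul_add, mul_add, mul_smul_comm, mul_smul_comm,
      mul_smul_comm, map_add, map_add, map_smul, map_smul, map_smul, smul_eq_mul, smul_eq_mul,
      smul_eq_mul]
  have hdet : ∀ Q : MvPolynomial (Fin (2 + 1)) K, D3 g x Q 0 1 2 =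
      c * (g 0 (Q * lf (m 0)) * g 1 (Q * lf (m 1)) - g 0 (Q * lf (m 1)) * g 1 (Q * lf (m 0))) := by
    intro Q
    rw [hlf, hlf, hlf, hlf, D3, e0, e1, e2]
    ring
  obtain ⟨Q1, hQ1, hne1⟩ := hne
  obtain ⟨r00, hr00⟩ : ∃ r, r = g 0 (Q1 * lf (m 0)) := ⟨_, rfl⟩
  obtain ⟨r01, hr01⟩ : ∃ r, r = g 0 (Q1 * lf (m 1)) := ⟨_, rfl⟩
  obtain ⟨r10, hr10⟩ : ∃ r, r = g 1 (Q1 * lf (m 0)) := ⟨_, rfl⟩
  obtain ⟨r11, hr11⟩ : ∃ r, r = g 1 (Q1 * lf (m 1)) := ⟨_, rfl⟩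
  obtain ⟨δ, hδ⟩ : ∃ δ, δ = r00 * r11 - r01 * r10 := ⟨_, rfl⟩
  have hdet1 := hdet Q1
  rw [← hr00, ← hr01, ← hr10, ← hr11, ← hδ] at hdet1
  have hδ0 : δ ≠ 0 := by
    rintro h0
    rw [hdet1, h0, mul_zero] at hne1
    exact hne1 rfl
  obtain ⟨g', hg'⟩ : ∃ g' : Fin 2 → MvPolynomial (Fin (2 + 1)) K →ₗ[K] K,
    g' = ![δ⁻¹ • (r11 • g 0 - r01 • g 1), δ⁻¹ • (r00 • g 1 - r10 • g 0)] := ⟨_, rfl⟩
  have hg0 : ∀ G, g' 0 G = δ⁻¹ * (r11 * g 0 G - r01 * g 1 G) := fun G => by rw [hg']; rfl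
  have hg1 : ∀ G, g' 1 G = δ⁻¹ * (r00 * g 1 G - r10 * g 0 G) := fun G => by rw [hg']; rfl
  have hz : ∀ G, g 0 G = 0 → g 1 G = 0 → ∀ i, g' i G = 0 := by
    intro G h0 h1 i
    fin_cases i
    · change g' 0 G = 0
      rw [hg0, h0, h1, mul_zero, mul_zero, sub_zero, mul_zero]
    · change g' 1 G = 0
      rw [hg1, h0, h1, mul_zero, mul_zero, sub_zero, mul_zero]
  refine alg3a (g := g') (m := m) hx perp indep hQ1 ?_ ?_ ?_ ?_ (fun Q hQ => ?_)
    (fun p hp => ?_) ?_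
  · rw [hg0, ← hr00, ← hr10]
    have : r11 * r00 - r01 * r10 = δ := by rw [hδ]; ring
    rw [this, inv_mul_cancel₀ hδ0]
  · rw [hg0, ← hr01, ← hr11]
    ring
  · rw [hg1, ← hr00, ← hr10]
    ring
  · rw [hg1, ← hr01, ← hr11]
    have : r00 * r11 - r10 * r01 = δ := by rw [hδ]; ring
    rw [this, inv_mul_cancel₀ hδ0]
  · obtain ⟨a, ha⟩ := hτ Q hQ
    obtain ⟨b, hb⟩ := hτ Q1 hQ1
    have hτ0 : τ ≠ 0 := by
      rintro rfl
      rw [hb, mul_zero] at hne1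
      exact hne1 rfl
    have hb0 : algebraMap k K b ≠ 0 := by
      intro h0
      rw [hb, h0, zero_mul] at hne1
      exact hne1 rfl
    have h1 : g' 0 (Q * lf (m 0)) * g' 1 (Q * lf (m 1)) -
        g' 0 (Q * lf (m 1)) * g' 1 (Q * lf (m 0)) = algebraMap k K a / algebraMap k K b := by
      have h2 := hdet Q
      rw [ha] at h2
      rw [hb] at hdet1
      obtain ⟨z, hz⟩ : ∃ z, z = g 0 (Q * lf (m 0)) * g 1 (Q * lf (m 1)) -
        g 0 (Q * lf (m 1)) * g 1 (Q * lf (m 0)) := ⟨_, rfl⟩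
      rw [← hz] at h2
      have h3 : g' 0 (Q * lf (m 0)) * g' 1 (Q * lf (m 1)) -
        g' 0 (Q * lf (m 1)) * g' 1 (Q * lf (m 0)) = δ⁻¹ * z := by
        rw [hg0, hg0, hg1, hg1, hz]
        have h4 : δ⁻¹ * (r11 * r00 - r01 * r10) = 1 := by
          have : r11 * r00 - r01 * r10 = δ := by rw [hδ]; ring
          rw [this, inv_mul_cancel₀ hδ0]
        linear_combination δ⁻¹ * (g 0 (Q * lf (m 0)) * g 1 (Q * lf (m 1)) -
          g 0 (Q * lf (m 1)) * g 1 (Q * lf (m 0))) * h4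
      rw [h3, eq_div_iff hb0, inv_mul_eq_div, div_mul_eq_mul_div, div_eq_iff hδ0]
      have h5 : c * τ ≠ 0 := mul_ne_zero hc hτ0
      apply mul_left_cancel₀ h5
      linear_combination algebraMap k K a * τ * hdet1 - algebraMap k K b * τ * h2
    rw [h1]
    exact (In.alg a).div (In.alg b)
  · obtain ⟨P, hP, hPp, hPg⟩ := pts p hp
    exact ⟨P, hP, hPp, fun i j => hz _ (hPg 0 _ (perp j)) (hPg 1 _ (perp j)) i⟩
  · obtain ⟨P, hP, hPx, hPg, μ, i, hμ⟩ := free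
    refine ⟨P, hP, hPx, fun i j => hz _ (hPg 0 _ (perp j)) (hPg 1 _ (perp j)) i, μ, ?_⟩
    by_contra hcon
    push Not at hcon
    apply hμ
    have h0 := hcon 0
    have h1 := hcon 1
    rw [hg0] at h0
    rw [hg1] at h1
    have h0' := (mul_eq_zero.1 h0).resolve_left (inv_ne_zero hδ0)
    have h1' := (mul_eq_zero.1 h1).resolve_left (inv_ne_zero hδ0)
    have h2 : g 0 (P * lf μ) * δ = 0 := by
      rw [hδ]
      linear_combination r00 * h0' + r01 * h1'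
    have h3 : g 1 (P * lf μ) * δ = 0 := by
      rw [hδ]
      linear_combination r10 * h0' + r11 * h1'
    fin_cases i
    · exact (mul_eq_zero.1 h2).resolve_right hδ0
    · exact (mul_eq_zero.1 h3).resolve_right hδ0

end Pool.Agent.Y735.S
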