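import Pool.Agent.Y735.S.Alg3b

/-!
Reduction to a plane.
-/

set_option autoImplicit false

open MvPolynomial

namespace Pool.Agent.Y735.S

variable {k K : Type} [Field k] [Field K] [Algebra k K]

theorem CS_map {n e : ℕ} {Q0 : MvPolynomial (Fin (n + 1)) k} (h : Q0.IsHomogeneous e) :
    map (algebraMap k K) Q0 ∈ CS k K n e := ⟨h.map _, fun u => ⟨Q0.coeff u, coeff_map _ _ _⟩⟩

theorem exists_CS_map {n e : ℕ} {Q : MvPolynomial (Fin (n + 1)) K} (h : Q ∈ CS k K n e) :
    ∃ Q0 : MvPolynomial (Fin (n + 1)) k, Q0.IsHomogeneous e ∧ map (algebraMap k K) Q0 = Q := by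
  classical
  obtain ⟨h1, h2⟩ := h
  choose c hc using h2
  refine ⟨∑ u ∈ Q.support, monomial u (c u), ?_, ?_⟩
  · exact IsHomogeneous.sum _ _ _ fun u hu => isHomogeneous_monomial _
      (Pool.Agent.TH145.GH.deg_of_mem h1 hu)
  · rw [map_sum]
    conv_rhs => rw [Q.as_sum]
    exact Finset.sum_congr rfl fun u _ => by rw [map_monomial, ← hc]

theorem comp_lin {n : ℕ} (e : ℕ) {G : MvPolynomial (Fin (n + 1)) K} (hG : G.IsHomogeneous 1)
    (W : MvPolynomial (Fin (n + 1)) K) :
    homogeneousComponent (e + 1) (W * G) = homogeneousComponent e W * G := by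
  classical
  have h1 : homogeneousComponent (e + 1) (W * G) =
      ∑ i ∈ Finset.range (W.totalDegree + 1), if e + 1 = i + 1 then homogeneousComponent i W * G
        else 0 := by
    conv_lhs => rw [← sum_homogeneousComponent W]
    rw [Finset.sum_mul, map_sum]
    refine Finset.sum_congr rfl fun i _ => ?_
    rw [homogeneousComponent_of_mem (n := i + 1)
      ((homogeneousComponent_isHomogeneous i W).mul hG)]
  rw [h1]
  by_cases h2 : e ∈ Finset.range (W.totalDegree + 1)
  · rw [Finset.sum_eq_single e]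
    · rw [if_pos rfl]
    · intro i _ hi
      rw [if_neg (by omega)]
    · intro h3
      exact absurd h2 h3
  · rw [homogeneousComponent_eq_zero _ _ (by rw [Finset.mem_range] at h2; omega), zero_mul]
    refine Finset.sum_eq_zero fun i hi => ?_
    rw [if_neg]
    intro h
    apply h2
    have : e = i := by omega
    rwa [this]

/-- Two independent linear equations. -/
def TwoLn (k : Type) {K : Type} [Field k] [Field K] [Algebra k K] {n : ℕ} (x : Fin n → K) : Prop :=
  ∃ ν ν' : Fin n → k, (∀ a b : k, (∀ l, a * ν l + b * ν' l = 0) → a = 0 ∧ b = 0) ∧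
    ∑ l, algebraMap k K (ν l) * x l = 0 ∧ ∑ l, algebraMap k K (ν' l) * x l = 0

theorem map_lf {n : ℕ} (a : Fin (n + 1) → k) : map (algebraMap k K) (lf a) = lf (up K a) := by
  rw [lf_apply, lf_apply, map_sum]
  refine Finset.sum_congr rfl fun i _ => ?_
  rw [smul_eq_C_mul, smul_eq_C_mul, map_mul, map_C, map_X]
  rfl

/-- The restriction to the plane. -/
theorem alg4_plane [IsAlgClosed k] [CharZero k] {x : Fin (3 + 1) → K} (hx : x ≠ 0)
    {g : Fin 2 → MvPolynomial (Fin (3 + 1)) K →ₗ[K] K} {τ : K}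
    (hτ : ∀ Q ∈ CS k K 3 4, ∀ a b c, ∃ r : k, D3 g x Q a b c = algebraMap k K r * τ)
    {lam : Fin (3 + 1) → k} {c : Fin (3 + 1)} (hlc : lam c ≠ 0)
    (hlx : ∑ l, algebraMap k K (lam l) * x l = 0)
    (hL : ∀ Q ∈ CS k K 3 4, ∀ i, g i (Q * lf (up K lam)) = 0)
    (hne : ∃ Q ∈ CS k K 3 4, D3 g x Q (c.succAbove 0) (c.succAbove 1) (c.succAbove 2) ≠ 0)
    (pts : ∀ p : Fin (3 + 1) → k, p ≠ 0 → ∃ P ∈ CS k K 3 4, eval (up K p) P ≠ 0 ∧
      ∀ i, ∀ m : Fin (3 + 1) → K, ∑ l, m l * x l = 0 → g i (P * lf m) = 0)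
    (free : ∃ P : MvPolynomial (Fin (3 + 1)) K, P.IsHomogeneous 4 ∧ eval x P = 0 ∧
      (∀ i, ∀ m : Fin (3 + 1) → K, ∑ l, m l * x l = 0 → g i (P * lf m) = 0) ∧
      ∃ (μ : Fin (3 + 1) → K) (i : Fin 2), g i (P * lf μ) ≠ 0) :
    Quad k x ∨ TwoLn k x := by
  classical
  obtain ⟨σ, hσ⟩ : ∃ σ : Fin (2 + 1) → Fin (3 + 1), σ = c.succAbove := ⟨_, rfl⟩
  have hσc : ∀ j, σ j ≠ c := fun j => by rw [hσ]; exact Fin.succAbove_ne c j
  have hσinj : Function.Injective σ := by rw [hσ]; exact Fin.succAbove_right_injective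
  have hsum : ∀ {M : Type} [AddCommMonoid M] (f : Fin (3 + 1) → M),
      ∑ l, f l = f c + ∑ j, f (σ j) := by
    intro M _ f
    rw [hσ]
    exact Fin.sum_univ_succAbove f c
  -- the matrix of the substitution
  obtain ⟨A, hA⟩ : ∃ A : Fin (3 + 1) → Fin (2 + 1) → k, A = fun l j =>
    if l = c then -lam (σ j) / lam c else if l = σ j then 1 else 0 := ⟨_, rfl⟩
  have hAc : ∀ j, A c j = -lam (σ j) / lam c := fun j => by rw [hA]; simp
  have hAσ : ∀ j' j, A (σ j') j = if j' = j then 1 else 0 := by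
    intro j' j
    rw [hA]
    simp only [if_neg (hσc j'), hσinj.eq_iff]
  obtain ⟨s0, hs0⟩ : ∃ s0 : Fin (3 + 1) → MvPolynomial (Fin (2 + 1)) k, s0 = fun l => lf (A l) :=
    ⟨_, rfl⟩
  obtain ⟨s, hs⟩ : ∃ s : Fin (3 + 1) → MvPolynomial (Fin (2 + 1)) K,
    s = fun l => lf (up K (A l)) := ⟨_, rfl⟩
  have hss0 : ∀ l, map (algebraMap k K) (s0 l) = s l := by
    intro l
    rw [hs0, hs]
    exact map_lf _
  have hslf : ∀ l, s l = lf (up K (A l)) := fun l => by rw [hs]
  have hlam : algebraMap k K (lam c) ≠ 0 := fun h0 =>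
    hlc ((algebraMap k K).injective (by rw [h0, map_zero]))
  have hsσ : ∀ j, s (σ j) = X j := by
    intro j
    rw [hslf, lf_apply, Finset.sum_eq_single j]
    · have : up K (A (σ j)) j = 1 := by
        change algebraMap k K (A (σ j) j) = 1
        rw [hAσ, if_pos rfl, map_one]
      rw [this, one_smul]
    · intro j' _ hj'
      have : up K (A (σ j)) j' = 0 := by
        change algebraMap k K (A (σ j) j') = 0
        rw [hAσ, if_neg hj'.symm, map_zero]
      rw [this, zero_smul]
    · intro h; exact absurd (Finset.mem_univ j) h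
  -- the points
  have hxA : ∀ l, x l = ∑ j, algebraMap k K (A l j) * x (σ j) := by
    intro l
    by_cases hl : l = c
    · rw [hl]
      have h1 := hsum fun l => algebraMap k K (lam l) * x l
      rw [hlx] at h1
      have h2 : ∀ j, algebraMap k K (A c j) * x (σ j) =
          -(algebraMap k K (lam c))⁻¹ * (algebraMap k K (lam (σ j)) * x (σ j)) := by
        intro j
        rw [hAc, map_div₀, map_neg]
        field_simp
      rw [Finset.sum_congr rfl fun j _ => h2 j, ← Finset.mul_sum]
      have h3 : ∑ j, algebraMap k K (lam (σ j)) * x (σ j) = -(algebraMap k K (lam c) * x c) := by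
        linear_combination -h1
      rw [h3]
      field_simp
    · obtain ⟨j, rfl⟩ : ∃ j, σ j = l := by
        rw [hσ]
        exact Fin.exists_succAbove_eq hl
      rw [Finset.sum_eq_single j]
      · rw [hAσ, if_pos rfl, map_one, one_mul]
      · intro j' _ hj'
        rw [hAσ, if_neg hj'.symm, map_zero, zero_mul]
      · intro h; exact absurd (Finset.mem_univ j) h
  obtain ⟨x', hx'⟩ : ∃ x' : Fin (2 + 1) → K, x' = fun j => x (σ j) := ⟨_, rfl⟩
  have hx'0 : x' ≠ 0 := by
    intro h0
    apply hx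
    funext l
    rw [hxA]
    refine Finset.sum_eq_zero fun j _ => ?_
    have : x (σ j) = x' j := by rw [hx']
    rw [this, h0, Pi.zero_apply, mul_zero]
  -- the functionals
  obtain ⟨gh, hgh⟩ : ∃ gh : Fin 2 → MvPolynomial (Fin (3 + 1)) K →ₗ[K] K,
    ∀ i G, gh i G = g i (homogeneousComponent 5 G) :=
    ⟨fun i => g i ∘ₗ homogeneousComponent 5, fun _ _ => rfl⟩
  have hgh5 : ∀ i {G : MvPolynomial (Fin (3 + 1)) K}, G.IsHomogeneous 5 → gh i G = g i G := by
    intro i G hG
    rw [hgh, homogeneousComponent_of_mem hG, if_pos rfl]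
  obtain ⟨L, hLL⟩ : ∃ L, L = lf (up K lam) := ⟨_, rfl⟩
  have hghL : ∀ i W, gh i (W * L) = 0 := by
    intro i W
    rw [hgh, hLL, comp_lin 4 (lf_hom (up K lam)) W]
    exact zero_of_CS (k := k) (e := 4) (mulR (g i) (lf (up K lam))) (fun Q hQ => hL Q hQ i)
      (homogeneousComponent_isHomogeneous 4 W)
  obtain ⟨S, hS⟩ : ∃ S : MvPolynomial (Fin (3 + 1)) K →ₐ[K] MvPolynomial (Fin (2 + 1)) K,
    S = aeval s := ⟨_, rfl⟩
  have hSX : ∀ l, S (X l) = s l := fun l => by rw [hS, aeval_X]
  obtain ⟨R, hR⟩ : ∃ R : MvPolynomial (Fin (2 + 1)) K →ₐ[K] MvPolynomial (Fin (3 + 1)) K,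
    R = rename σ := ⟨_, rfl⟩
  have hRX : ∀ j, R (X j) = X (σ j) := fun j => by rw [hR, rename_X]
  have hSR : ∀ G, S (R G) = G := by
    intro G
    have h1 : S.comp R = AlgHom.id K _ := by
      apply MvPolynomial.algHom_ext
      intro j
      rw [AlgHom.comp_apply, hRX, hSX, hsσ]
      rfl
    exact DFunLike.congr_fun h1 G
  have hcong : ∀ G, ∃ W, R (S G) = G + W * L := by
    intro G
    have h1 : (Ideal.Quotient.mkₐ K (Ideal.span {L})).comp (R.comp S) =
        Ideal.Quotient.mkₐ K (Ideal.span {L}) := by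
      apply MvPolynomial.algHom_ext
      intro l
      rw [AlgHom.comp_apply, AlgHom.comp_apply, hSX]
      rw [Ideal.Quotient.mkₐ_eq_mk, Ideal.Quotient.eq, Ideal.mem_span_singleton']
      by_cases hl : l = c
      · refine ⟨C (-(algebraMap k K (lam c))⁻¹), ?_⟩
        rw [hl, hslf, lf_apply, map_sum, hLL, lf_apply, hsum, mul_add, Finset.mul_sum]
        have h2 : ∀ j, R (up K (A c) j • X j) =
            C (-(algebraMap k K (lam c))⁻¹) * (up K lam (σ j) • X (σ j)) := by
          intro j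
          rw [map_smul, hRX, smul_eq_C_mul, smul_eq_C_mul, ← mul_assoc, ← C_mul]
          congr 2
          change algebraMap k K (A c j) = _ * algebraMap k K (lam (σ j))
          rw [hAc, map_div₀, map_neg]
          field_simp
        rw [Finset.sum_congr rfl fun j _ => h2 j]
        have h3 : C (-(algebraMap k K (lam c))⁻¹) * (up K lam c • X c) =
            (-X c : MvPolynomial (Fin (3 + 1)) K) := by
          rw [smul_eq_C_mul, ← mul_assoc, ← C_mul]
          have : -(algebraMap k K (lam c))⁻¹ * up K lam c = -1 := by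
            change -(algebraMap k K (lam c))⁻¹ * algebraMap k K (lam c) = -1
            rw [neg_mul, inv_mul_cancel₀ hlam]
          rw [this, C_neg, C_1, neg_one_mul]
        rw [h3]
        ring
      · obtain ⟨j, rfl⟩ : ∃ j, σ j = l := by
          rw [hσ]
          exact Fin.exists_succAbove_eq hl
        exact ⟨0, by rw [hsσ, hRX, sub_self, zero_mul]⟩
    have h2 := DFunLike.congr_fun h1 G
    rw [AlgHom.comp_apply, AlgHom.comp_apply, Ideal.Quotient.mkₐ_eq_mk, Ideal.Quotient.eq,
      Ideal.mem_span_singleton'] at h2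
    obtain ⟨W, hW⟩ := h2
    exact ⟨W, by rw [hW]; ring⟩
  obtain ⟨g', hg'⟩ : ∃ g' : Fin 2 → MvPolynomial (Fin (2 + 1)) K →ₗ[K] K,
    ∀ i G, g' i G = gh i (R G) := ⟨fun i => gh i ∘ₗ R.toLinearMap, fun _ _ => rfl⟩
  have key : ∀ i G, g' i (S G) = gh i G := by
    intro i G
    obtain ⟨W, hW⟩ := hcong G
    rw [hg', hW, map_add, hghL, add_zero]
  -- homogeneity and constant coefficients
  have hSC : ∀ {P : MvPolynomial (Fin (3 + 1)) K}, P ∈ CS k K 3 4 → S P ∈ CS k K 2 4 := by
    intro P hP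
    obtain ⟨P0, hP0, rfl⟩ := exists_CS_map hP
    have h1 : S (map (algebraMap k K) P0) = map (algebraMap k K) (aeval s0 P0) := by
      have h2 : (S : MvPolynomial (Fin (3 + 1)) K →+* MvPolynomial (Fin (2 + 1)) K).comp
          (map (algebraMap k K)) = (map (algebraMap k K)).comp
          ((aeval s0 : MvPolynomial (Fin (3 + 1)) k →ₐ[k] MvPolynomial (Fin (2 + 1)) k) :
            MvPolynomial (Fin (3 + 1)) k →+* MvPolynomial (Fin (2 + 1)) k) := by
        apply MvPolynomial.ringHom_ext
        · intro a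
          rw [RingHom.comp_apply, RingHom.comp_apply, map_C]
          change S (C (algebraMap k K a)) = map (algebraMap k K) (aeval s0 (C a))
          rw [aeval_C]
          change S (algebraMap K _ (algebraMap k K a)) = map (algebraMap k K) (C a)
          rw [AlgHom.commutes, map_C]
          rfl
        · intro l
          rw [RingHom.comp_apply, RingHom.comp_apply, map_X]
          change S (X l) = map (algebraMap k K) (aeval s0 (X l))
          rw [aeval_X, hSX, hss0]
      exact DFunLike.congr_fun h2 P0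
    rw [h1]
    refine CS_map ?_
    have := hP0.aeval s0 (n := 1) fun l => by rw [hs0]; exact lf_hom _
    rwa [one_mul] at this
  have hShom : ∀ {P : MvPolynomial (Fin (3 + 1)) K}, P.IsHomogeneous 4 →
      (S P).IsHomogeneous 4 := by
    intro P hP
    rw [hS]
    have := hP.aeval s (n := 1) fun l => by rw [hs]; exact lf_hom _
    rwa [one_mul] at this
  have hRC : ∀ {Q : MvPolynomial (Fin (2 + 1)) K}, Q ∈ CS k K 2 4 → R Q ∈ CS k K 3 4 := by
    intro Q hQ
    obtain ⟨Q0, hQ0, rfl⟩ := exists_CS_map hQ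
    rw [hR, ← map_rename]
    exact CS_map hQ0.rename_isHomogeneous
  -- the values of the functionals
  have hval : ∀ {Q : MvPolynomial (Fin (2 + 1)) K}, Q ∈ CS k K 2 4 → ∀ i j,
      g' i (Q * X j) = g i (R Q * X (σ j)) := by
    intro Q hQ i j
    rw [hg', map_mul, hRX]
    exact hgh5 i ((hRC hQ).1.mul (isHomogeneous_X K (σ j)))
  have hD3 : ∀ {Q : MvPolynomial (Fin (2 + 1)) K}, Q ∈ CS k K 2 4 →
      D3 g' x' Q 0 1 2 = D3 g x (R Q) (σ 0) (σ 1) (σ 2) := by
    intro Q hQ
    unfold D3
    rw [hval hQ, hval hQ, hval hQ, hval hQ, hval hQ, hval hQ, hx']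
  have hvalS : ∀ {P : MvPolynomial (Fin (3 + 1)) K}, P.IsHomogeneous 4 → ∀ i l,
      g' i (S P * s l) = g i (P * X l) := by
    intro P hP i l
    rw [← hSX, ← map_mul, key]
    exact hgh5 i (hP.mul (isHomogeneous_X K l))
  have hvalm : ∀ {P : MvPolynomial (Fin (3 + 1)) K}, P.IsHomogeneous 4 → ∀ i
      (m : Fin (3 + 1) → K), g' i (S P * S (lf m)) = g i (P * lf m) := by
    intro P hP i m
    rw [← map_mul, key]
    exact hgh5 i (hP.mul (lf_hom m))
  have hSlf : ∀ m : Fin (3 + 1) → K, ∃ m' : Fin (2 + 1) → K, S (lf m) = lf m' := by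
    intro m
    refine ⟨∑ l, m l • up K (A l), ?_⟩
    rw [lf_apply, map_sum, map_sum]
    refine Finset.sum_congr rfl fun l _ => ?_
    rw [map_smul, hSX, hslf, map_smul]
  have hext : ∀ m' : Fin (2 + 1) → K, ∃ m : Fin (3 + 1) → K, S (lf m) = lf m' ∧
      ∑ l, m l * x l = ∑ j, m' j * x' j ∧ m c = 0 ∧ ∀ j, m (σ j) = m' j := by
    intro m'
    obtain ⟨m, hm⟩ : ∃ m : Fin (3 + 1) → K, m = fun l => ∑ j, if l = σ j then m' j else 0 :=
      ⟨_, rfl⟩
    have hmc : m c = 0 := by
      rw [hm]
      exact Finset.sum_eq_zero fun j _ => if_neg (hσc j).symm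
    have hmσ : ∀ j, m (σ j) = m' j := by
      intro j
      rw [hm]
      dsimp only
      rw [Finset.sum_eq_single j]
      · rw [if_pos rfl]
      · intro j' _ hj'
        rw [if_neg]
        exact fun h => hj' (hσinj h).symm
      · intro h; exact absurd (Finset.mem_univ j) h
    refine ⟨m, ?_, ?_, hmc, hmσ⟩
    · rw [lf_apply, map_sum, hsum, map_smul, hmc, zero_smul, zero_add, lf_apply]
      refine Finset.sum_congr rfl fun j _ => ?_
      rw [map_smul, hSX, hsσ, hmσ]
    · rw [hsum, hmc, zero_mul, zero_add, hx']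
      exact Finset.sum_congr rfl fun j _ => by rw [hmσ]
  have hvan : ∀ {P : MvPolynomial (Fin (3 + 1)) K}, P.IsHomogeneous 4 →
      (∀ i, ∀ m : Fin (3 + 1) → K, ∑ l, m l * x l = 0 → g i (P * lf m) = 0) →
      ∀ i, ∀ m : Fin (2 + 1) → K, ∑ l, m l * x' l = 0 → g' i (S P * lf m) = 0 := by
    intro P hP h i m hm
    obtain ⟨m1, h1, h2, -⟩ := hext m
    rw [← h1, hvalm hP]
    exact h i m1 (by rw [h2, hm])
  have heval : ∀ (q : Fin (2 + 1) → k) (P : MvPolynomial (Fin (3 + 1)) K),
      eval (up K q) (S P) = eval (up K fun l => ∑ j, A l j * q j) P := by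
    intro q P
    rw [hS, aeval_def, eval_eval₂]
    have h1 : (eval (up K q)).comp (algebraMap K (MvPolynomial (Fin (2 + 1)) K)) = RingHom.id K := by
      ext a
      simp
    rw [h1]
    change eval _ P = _
    congr 1
    congr 1
    funext l
    rw [hslf, eval_lf]
    change _ = algebraMap k K (∑ j, A l j * q j)
    rw [map_sum]
    exact Finset.sum_congr rfl fun j _ => (map_mul _ _ _).symm
  rcases alg3 (k := k) (K := K) (x := x') hx'0 (g := g') (τ := τ) (fun Q hQ => by
      rw [hD3 hQ]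
      exact hτ _ (hRC hQ) _ _ _) (by
      obtain ⟨Q, hQ, hne⟩ := hne
      refine ⟨S Q, hSC hQ, fun h0 => hne ?_⟩
      rw [← hσ, ← h0]
      unfold D3
      have h1 : ∀ i j, g' i (S Q * X j) = g i (Q * X (σ j)) := by
        intro i j
        rw [← hsσ, hvalS hQ.1]
      rw [h1, h1, h1, h1, h1, h1, hx']) (fun p hp => by
      obtain ⟨P, hP, hPp, hPg⟩ := pts (fun l => ∑ j, A l j * p j) (fun h0 => by
        apply hp
        funext j
        have h1 : ∑ j', A (σ j) j' * p j' = 0 := congrFun h0 (σ j)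
        rw [Finset.sum_eq_single j] at h1
        · rw [hAσ, if_pos rfl, one_mul] at h1
          exact h1
        · intro j' _ hj'
          rw [hAσ, if_neg hj'.symm, zero_mul]
        · intro h; exact absurd (Finset.mem_univ j) h)
      exact ⟨S P, hSC hP, by rw [heval]; exact hPp, hvan hP.1 hPg⟩) (by
      obtain ⟨P, hP, hPx, hPg, μ, i, hμ⟩ := free
      obtain ⟨μ', hμ'⟩ := hSlf μ
      refine ⟨S P, hShom hP, ?_, hvan hP hPg, μ', i, ?_⟩
      · rw [hS, aeval_def, eval_eval₂]
        have h1 : (eval x').comp (algebraMap K (MvPolynomial (Fin (2 + 1)) K)) =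
            RingHom.id K := by
          ext a
          simp
        rw [h1, ← hPx]
        change eval _ P = _
        congr 1
        congr 1
        funext l
        rw [hslf, eval_lf, hxA l, hx']
        rfl
      · rw [← hμ', hvalm hP]
        exact hμ) with h | h
  · left
    obtain ⟨a, b, e, ψ, hψ⟩ := h
    refine ⟨a, b, e, fun l i => ∑ j, A l j * ψ j i, fun l => ?_⟩
    rw [hxA l]
    have h1 : ∀ j, x (σ j) = x' j := fun j => by rw [hx']
    simp only [h1, hψ, map_sum, map_mul, Finset.sum_mul, Finset.mul_sum, ← Finset.sum_add_distrib]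
    exact Finset.sum_congr rfl fun j _ => by ring
  · right
    obtain ⟨ν, hν0, hν⟩ := h
    refine ⟨fun l => ∑ j, if l = σ j then ν j else 0, lam, fun a b h => ?_, ?_, hlx⟩
    · have hc := h c
      dsimp only at hc
      rw [Finset.sum_eq_zero fun j _ => if_neg (hσc j).symm, mul_zero, zero_add] at hc
      have hb : b = 0 := (mul_eq_zero.1 hc).resolve_right hlc
      refine ⟨?_, hb⟩
      obtain ⟨j, hj⟩ := Function.ne_iff.1 hν0
      have h1 := h (σ j)
      dsimp only at h1
      rw [hb, zero_mul, add_zero, Finset.sum_eq_single j] at h1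
      · rw [if_pos rfl] at h1
        exact (mul_eq_zero.1 h1).resolve_right hj
      · intro j' _ hj'
        rw [if_neg]
        exact fun h => hj' (hσinj h).symm
      · intro h; exact absurd (Finset.mem_univ j) h
    · rw [hsum]
      beta_reduce
      rw [Finset.sum_eq_zero fun j _ => if_neg (hσc j).symm, map_zero, zero_mul, zero_add,
        ← hν, hx']
      refine Finset.sum_congr rfl fun j _ => ?_
      rw [Finset.sum_eq_single j]
      · rw [if_pos rfl]
      · intro j' _ hj'
        rw [if_neg]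
        exact fun h => hj' (hσinj h).symm
      · intro h; exact absurd (Finset.mem_univ j) h

end Pool.Agent.Y735.S
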