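import Pool.Agent.Y735.S.Alg4

/-!
The case of the space.
-/

set_option autoImplicit false

open MvPolynomial

namespace Pool.Agent.Y735.S

variable {k K : Type} [Field k] [Field K] [Algebra k K]

/-- The vector of the minors. -/
noncomputable def Vq (g : Fin 2 → MvPolynomial (Fin (3 + 1)) K →ₗ[K] K) (x : Fin (3 + 1) → K)
    (Q : MvPolynomial (Fin (3 + 1)) K) : Fin (3 + 1) → K :=
  ![D3 g x Q 1 2 3, -D3 g x Q 0 2 3, D3 g x Q 0 1 3, -D3 g x Q 0 1 2]

theorem Vq_x (g : Fin 2 → MvPolynomial (Fin (3 + 1)) K →ₗ[K] K) (x : Fin (3 + 1) → K)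
    (Q : MvPolynomial (Fin (3 + 1)) K) : ∑ l, Vq g x Q l * x l = 0 := by
  rw [Fin.sum_univ_four]
  change D3 g x Q 1 2 3 * x 0 + -D3 g x Q 0 2 3 * x 1 + D3 g x Q 0 1 3 * x 2 +
    -D3 g x Q 0 1 2 * x 3 = 0
  unfold D3
  ring

theorem Vq_g (g : Fin 2 → MvPolynomial (Fin (3 + 1)) K →ₗ[K] K) (x : Fin (3 + 1) → K)
    (Q : MvPolynomial (Fin (3 + 1)) K) (i : Fin 2) : g i (Q * lf (Vq g x Q)) = 0 := by
  rw [lf_apply, Fin.sum_univ_four, mul_add, mul_add, mul_add, mul_smul_comm, mul_smul_comm,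
    mul_smul_comm, mul_smul_comm, map_add, map_add, map_add, map_smul, map_smul, map_smul,
    map_smul, smul_eq_mul, smul_eq_mul, smul_eq_mul, smul_eq_mul]
  change D3 g x Q 1 2 3 * g i (Q * X 0) + -D3 g x Q 0 2 3 * g i (Q * X 1) +
    D3 g x Q 0 1 3 * g i (Q * X 2) + -D3 g x Q 0 1 2 * g i (Q * X 3) = 0
  fin_cases i
  · change D3 g x Q 1 2 3 * g 0 (Q * X 0) + -D3 g x Q 0 2 3 * g 0 (Q * X 1) +
      D3 g x Q 0 1 3 * g 0 (Q * X 2) + -D3 g x Q 0 1 2 * g 0 (Q * X 3) = 0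
    unfold D3
    ring
  · change D3 g x Q 1 2 3 * g 1 (Q * X 0) + -D3 g x Q 0 2 3 * g 1 (Q * X 1) +
      D3 g x Q 0 1 3 * g 1 (Q * X 2) + -D3 g x Q 0 1 2 * g 1 (Q * X 3) = 0
    unfold D3
    ring

theorem D3_swap {n : ℕ} (g : Fin 2 → MvPolynomial (Fin (n + 1)) K →ₗ[K] K) (x : Fin (n + 1) → K)
    (Q : MvPolynomial (Fin (n + 1)) K) (a b c : Fin (n + 1)) :
    D3 g x Q b a c = -D3 g x Q a b c := by
  unfold D3
  ring

theorem D3_swap' {n : ℕ} (g : Fin 2 → MvPolynomial (Fin (n + 1)) K →ₗ[K] K)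
    (x : Fin (n + 1) → K) (Q : MvPolynomial (Fin (n + 1)) K) (a b c : Fin (n + 1)) :
    D3 g x Q a c b = -D3 g x Q a b c := by
  unfold D3
  ring

theorem D3_zero {g : Fin 2 → MvPolynomial (Fin (3 + 1)) K →ₗ[K] K} {x : Fin (3 + 1) → K}
    {Q : MvPolynomial (Fin (3 + 1)) K} (h : Vq g x Q = 0) (a b c : Fin (3 + 1)) :
    D3 g x Q a b c = 0 := by
  have h0 : D3 g x Q 1 2 3 = 0 := congrFun h 0
  have h1 : D3 g x Q 0 2 3 = 0 := neg_eq_zero.1 (congrFun h 1)
  have h2 : D3 g x Q 0 1 3 = 0 := congrFun h 2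
  have h3 : D3 g x Q 0 1 2 = 0 := neg_eq_zero.1 (congrFun h 3)
  have key : ∀ a b c : Fin (3 + 1), a ≤ b → b ≤ c → D3 g x Q a b c = 0 := by
    intro a b c hab hbc
    by_cases e1 : a = b
    · subst e1
      unfold D3
      ring
    by_cases e2 : b = c
    · subst e2
      unfold D3
      ring
    have h4 : a < b := lt_of_le_of_ne hab e1
    have h5 : b < c := lt_of_le_of_ne hbc e2
    have : (a = 1 ∧ b = 2 ∧ c = 3) ∨ (a = 0 ∧ b = 2 ∧ c = 3) ∨ (a = 0 ∧ b = 1 ∧ c = 3) ∨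
        (a = 0 ∧ b = 1 ∧ c = 2) := by
      revert a b c
      decide
    rcases this with ⟨rfl, rfl, rfl⟩ | ⟨rfl, rfl, rfl⟩ | ⟨rfl, rfl, rfl⟩ | ⟨rfl, rfl, rfl⟩ <;>
      assumption
  rcases le_total a b with h1 | h1 <;> rcases le_total b c with h2 | h2 <;>
    rcases le_total a c with h3 | h3
  · exact key a b c h1 h2
  · exact key a b c h1 h2
  · rw [D3_swap', key a c b h3 h2, neg_zero]
  · rw [D3_swap', D3_swap, key c a b h3 h1, neg_zero, neg_zero]
  · rw [D3_swap, key b a c h1 h3, neg_zero]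
  · rw [D3_swap, D3_swap', key b c a h2 h3, neg_zero, neg_zero]
  · rw [D3_swap, D3_swap', D3_swap, key c b a h2 h1, neg_zero, neg_zero, neg_zero]
  · rw [D3_swap, D3_swap', D3_swap, key c b a h2 h1, neg_zero, neg_zero, neg_zero]

theorem Vq_par (g : Fin 2 → MvPolynomial (Fin (3 + 1)) K →ₗ[K] K) (x : Fin (3 + 1) → K)
    (Q R : MvPolynomial (Fin (3 + 1)) K) :
    Vq g x (Q + R) + Vq g x (Q - R) = 2 • Vq g x Q + 2 • Vq g x R := by
  have h : ∀ a b c, D3 g x (Q + R) a b c + D3 g x (Q - R) a b c =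
      2 * D3 g x Q a b c + 2 * D3 g x R a b c := by
    intro a b c
    unfold D3
    simp only [add_mul, sub_mul, map_add, map_sub]
    ring
  have h' : ∀ a b c, -D3 g x (Q + R) a b c + -D3 g x (Q - R) a b c =
      2 * (-D3 g x Q a b c) + 2 * (-D3 g x R a b c) := by
    intro a b c
    linear_combination -(h a b c)
  funext l
  rw [two_smul, two_smul, Pi.add_apply, Pi.add_apply, Pi.add_apply, Pi.add_apply, ← two_mul,
    ← two_mul]
  fin_cases l
  · exact h 1 2 3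
  · exact h' 0 2 3
  · exact h 0 1 3
  · exact h' 0 1 2

/-- The case of the space. -/
theorem alg4 [IsAlgClosed k] [CharZero k] {x : Fin (3 + 1) → K} (hx : x ≠ 0)
    {g : Fin 2 → MvPolynomial (Fin (3 + 1)) K →ₗ[K] K} {τ : K}
    (hτ : ∀ Q ∈ CS k K 3 4, ∀ a b c, ∃ r : k, D3 g x Q a b c = algebraMap k K r * τ)
    (hne : ∃ Q ∈ CS k K 3 4, ∃ a b c, D3 g x Q a b c ≠ 0)
    (pts : ∀ p : Fin (3 + 1) → k, p ≠ 0 → ∃ P ∈ CS k K 3 4, eval (up K p) P ≠ 0 ∧
      ∀ i, ∀ m : Fin (3 + 1) → K, ∑ l, m l * x l = 0 → g i (P * lf m) = 0)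
    (free : ∃ P : MvPolynomial (Fin (3 + 1)) K, P.IsHomogeneous 4 ∧ eval x P = 0 ∧
      (∀ i, ∀ m : Fin (3 + 1) → K, ∑ l, m l * x l = 0 → g i (P * lf m) = 0) ∧
      ∃ (μ : Fin (3 + 1) → K) (i : Fin 2), g i (P * lf μ) ≠ 0) :
    Quad k x ∨ TwoLn k x := by
  classical
  have hczK : CharZero K := charZero_of_injective_algebraMap (algebraMap k K).injective
  obtain ⟨Q1, hQ1, a1, b1, c1, hne1⟩ := hne
  have hτ0 : τ ≠ 0 := by
    rintro rfl
    obtain ⟨r, hr⟩ := hτ Q1 hQ1 a1 b1 c1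
    rw [hr, mul_zero] at hne1
    exact hne1 rfl
  have hr : ∀ Q ∈ CS k K 3 4, ∃ r : Fin (3 + 1) → k, ∀ l, Vq g x Q l = algebraMap k K (r l) * τ := by
    intro Q hQ
    obtain ⟨r0, h0⟩ := hτ Q hQ 1 2 3
    obtain ⟨r1, h1⟩ := hτ Q hQ 0 2 3
    obtain ⟨r2, h2⟩ := hτ Q hQ 0 1 3
    obtain ⟨r3, h3⟩ := hτ Q hQ 0 1 2
    refine ⟨![r0, -r1, r2, -r3], fun l => ?_⟩
    fin_cases l
    · exact h0
    · change -D3 g x Q 0 2 3 = algebraMap k K (-r1) * τ
      rw [h1, map_neg, neg_mul]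
    · exact h2
    · change -D3 g x Q 0 1 2 = algebraMap k K (-r3) * τ
      rw [h3, map_neg, neg_mul]
  have hrx : ∀ Q ∈ CS k K 3 4, ∀ r : Fin (3 + 1) → k,
      (∀ l, Vq g x Q l = algebraMap k K (r l) * τ) → ∑ l, algebraMap k K (r l) * x l = 0 := by
    intro Q hQ r hr
    have h1 := Vq_x g x Q
    have h2 : ∑ l, Vq g x Q l * x l = τ * ∑ l, algebraMap k K (r l) * x l := by
      rw [Finset.mul_sum]
      exact Finset.sum_congr rfl fun l _ => by rw [hr]; ring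
    rw [h2] at h1
    exact (mul_eq_zero.1 h1).resolve_left hτ0
  obtain ⟨lam, hlam⟩ := hr Q1 hQ1
  have hV1 : Vq g x Q1 ≠ 0 := fun h0 => hne1 (D3_zero h0 a1 b1 c1)
  have hlam0 : lam ≠ 0 := by
    rintro rfl
    apply hV1
    funext l
    rw [hlam, Pi.zero_apply, map_zero, zero_mul]
    rfl
  have hlx := hrx Q1 hQ1 lam hlam
  by_cases hind : ∃ Q ∈ CS k K 3 4, ∃ r : Fin (3 + 1) → k,
      (∀ l, Vq g x Q l = algebraMap k K (r l) * τ) ∧
      ∀ a b : k, (∀ l, a * lam l + b * r l = 0) → a = 0 ∧ b = 0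
  · obtain ⟨Q, hQ, r, hr, hi⟩ := hind
    exact Or.inr ⟨lam, r, hi, hlx, hrx Q hQ r hr⟩
  push Not at hind
  -- all the minors are proportional
  have hpr : ∀ Q ∈ CS k K 3 4, ∃ c : k, ∀ l, Vq g x Q l = algebraMap k K (c * lam l) * τ := by
    intro Q hQ
    obtain ⟨r, hr⟩ := hr Q hQ
    obtain ⟨a, b, h1, h2⟩ := hind Q hQ r hr
    have hb : b ≠ 0 := by
      rintro rfl
      by_cases ha : a = 0
      · exact h2 ha rfl
      · apply hlam0
        funext l
        have := h1 l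
        rw [zero_mul, add_zero] at this
        exact (mul_eq_zero.1 this).resolve_left ha
    refine ⟨-a / b, fun l => ?_⟩
    rw [hr]
    congr 2
    have := h1 l
    field_simp
    linear_combination this
  have hL1 : ∀ Q ∈ CS k K 3 4, Vq g x Q ≠ 0 → ∀ i, g i (Q * lf (up K lam)) = 0 := by
    intro Q hQ hV i
    obtain ⟨c, hc⟩ := hpr Q hQ
    have hc0 : c ≠ 0 := by
      rintro rfl
      apply hV
      funext l
      rw [hc, zero_mul, map_zero, zero_mul]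
      rfl
    have h1 : Vq g x Q = (algebraMap k K c * τ) • up K lam := by
      funext l
      rw [hc, Pi.smul_apply, smul_eq_mul, map_mul]
      change _ = _ * algebraMap k K (lam l)
      ring
    have h2 := Vq_g g x Q i
    rw [h1, map_smul, mul_smul_comm, map_smul, smul_eq_mul] at h2
    refine (mul_eq_zero.1 h2).resolve_left (mul_ne_zero ?_ hτ0)
    intro h0
    exact hc0 ((algebraMap k K).injective (by rw [h0, map_zero]))
  have hL : ∀ Q ∈ CS k K 3 4, ∀ i, g i (Q * lf (up K lam)) = 0 := by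
    intro Q hQ i
    by_cases hV : Vq g x Q = 0
    · have hp := Vq_par g x Q Q1
      rw [hV, smul_zero, zero_add] at hp
      have h1 := hL1 Q1 hQ1 hV1 i
      by_cases h2 : Vq g x (Q + Q1) = 0
      · have h3 : Vq g x (Q - Q1) ≠ 0 := by
          intro h3
          rw [h2, h3, add_zero] at hp
          apply hV1
          have h4 : (2 : K) • Vq g x Q1 = 0 := by
            rw [two_smul, ← two_nsmul, ← hp]
          exact (smul_eq_zero.1 h4).resolve_left two_ne_zero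
        have h4 : Q - Q1 ∈ CS k K 3 4 := by
          have h5 := add_mem hQ (CS_smul (-1) hQ1)
          rwa [map_neg, map_one, neg_one_smul, ← sub_eq_add_neg] at h5
        have h5 := hL1 _ h4 h3 i
        rw [sub_mul, map_sub, h1, sub_zero] at h5
        exact h5
      · have h5 := hL1 _ (add_mem hQ hQ1) h2 i
        rw [add_mul, map_add, h1, add_zero] at h5
        exact h5
    · exact hL1 Q hQ hV i
  obtain ⟨c, hc⟩ := Function.ne_iff.1 hlam0
  have hc' : lam c ≠ 0 := hc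
  refine alg4_plane hx hτ hc' hlx hL ⟨Q1, hQ1, ?_⟩ pts free
  intro h0
  have h1 := hlam c
  have h2 : Vq g x Q1 c = 0 := by
    fin_cases c
    · exact h0
    · change -D3 g x Q1 0 2 3 = 0
      rw [neg_eq_zero]
      exact h0
    · exact h0
    · change -D3 g x Q1 0 1 2 = 0
      rw [neg_eq_zero]
      exact h0
  rw [h2] at h1
  rcases mul_eq_zero.1 h1.symm with h3 | h3
  · exact hc' ((algebraMap k K).injective (by rw [h3, map_zero]))
  · exact hτ0 h3

end Pool.Agent.Y735.S
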