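import Pool.Agent.Y735.S.Concl

/-!
The algebraic statement.
-/

set_option autoImplicit false

open MvPolynomial Pool.Agent.TH145.GH

namespace Pool.Agent.Y735.S

variable {k K : Type} [Field k] [Field K] [Algebra k K]

/-- The algebraic statement. -/
theorem alg5 [IsAlgClosed k] [CharZero k] {F : MvPolynomial (Fin (3 + 1)) k}
    (hF : F.IsHomogeneous 5) (hno : ∀ p, ¬ OnL F p)
    (hcon : ∀ ψ : Fin (3 + 1) → Fin 3 → k,
      (∀ c : Fin 3 → k, (∀ l, ∑ i, ψ l i * c i = 0) → c = 0) →
      ¬ ∀ v : k, eval (fun l => ψ l 0 * v ^ 2 + ψ l 1 * v + ψ l 2) F = 0)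
    (hsm : ∀ p : Fin (3 + 1) → k, p ≠ 0 → ∃ i, eval p (pderiv i F) ≠ 0)
    {x : Fin (3 + 1) → K} {l0 : Fin (3 + 1)} (hx : x l0 = 1)
    (hxF : eval x (map (algebraMap k K) F) = 0)
    {g : Fin 2 → MvPolynomial (Fin (3 + 1)) K →ₗ[K] K} {τ : K}
    (hτ : ∀ Q ∈ CS k K 3 4, ∀ a b c, ∃ r : k, D3 g x Q a b c = algebraMap k K r * τ)
    (hne : ∃ Q ∈ CS k K 3 4, ∃ a b c, D3 g x Q a b c ≠ 0)
    {η : Fin 2 → Fin (3 + 1) → K}
    (hη : ∀ (i : Fin 2) (p : Fin (3 + 1)) (μ : Fin (3 + 1) → K),
      g i (map (algebraMap k K) (pderiv p F) * lf μ) = -(∑ l, μ l * x l) * η i p)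
    (hw : ∃ w : Fin (3 + 1) → K,
      ∑ p, w p * eval x (map (algebraMap k K) (pderiv p F)) = 0 ∧ ∃ i, ∑ p, w p * η i p ≠ 0)
    (l : Fin (3 + 1)) : In k (x l) := by
  classical
  have hx0 : x ≠ 0 := by
    intro h0
    rw [h0] at hx
    exact zero_ne_one hx
  have hpC : ∀ p, map (algebraMap k K) (pderiv p F) ∈ CS k K 3 4 := fun p => CS_map hF.pderiv
  rcases alg4 (k := k) hx0 hτ hne (fun p hp => by
      obtain ⟨i, hi⟩ := hsm p hp
      refine ⟨_, hpC i, ?_, fun i' m hm => ?_⟩
      · have h1 : eval (up K p) (map (algebraMap k K) (pderiv i F)) =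
            algebraMap k K (eval p (pderiv i F)) := by
          rw [eval_map]
          have h2 := hom_eval₂ (pderiv i F) (RingHom.id k) (algebraMap k K) p
          rw [RingHom.comp_id] at h2
          exact h2.symm
        rw [h1]
        exact fun h0 => hi ((algebraMap k K).injective (by rw [h0, map_zero]))
      · rw [hη, hm, neg_zero, zero_mul]) (by
      obtain ⟨w, hw, i, hi⟩ := hw
      refine ⟨∑ p, w p • map (algebraMap k K) (pderiv p F), ?_, ?_, ?_, Pi.single l0 1, i, ?_⟩
      · refine IsHomogeneous.sum _ _ _ fun p _ => ?_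
        rw [smul_eq_C_mul]
        have := (isHomogeneous_C (Fin (3 + 1)) (w p)).mul (hpC p).1
        rwa [zero_add] at this
      · rw [map_sum, ← hw]
        exact Finset.sum_congr rfl fun p _ => smul_eval _ _ _
      · intro i' m hm
        rw [Finset.sum_mul, map_sum]
        refine Finset.sum_eq_zero fun p _ => ?_
        rw [smul_mul_assoc, map_smul, hη, hm, neg_zero, zero_mul, smul_zero]
      · have h1 : ∑ l, (Pi.single l0 1 : Fin (3 + 1) → K) l * x l = 1 := by
          rw [Finset.sum_eq_single l0]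
          · rw [Pi.single_eq_same, one_mul, hx]
          · intro l _ hl
            rw [Pi.single_eq_of_ne hl, zero_mul]
          · intro h; exact absurd (Finset.mem_univ l0) h
        rw [Finset.sum_mul, map_sum]
        have h2 : ∀ p, g i (w p • map (algebraMap k K) (pderiv p F) * lf (Pi.single l0 1)) =
            -(w p * η i p) := by
          intro p
          rw [smul_mul_assoc, map_smul, hη, h1, smul_eq_mul]
          ring
        rw [Finset.sum_congr rfl fun p _ => h2 p, Finset.sum_neg_distrib, neg_ne_zero]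
        exact hi) with h | h
  · exact of_Quad (by norm_num) hF hno hcon hx hxF h l
  · exact of_TwoLn (by norm_num) hF hno hx hxF h l

end Pool.Agent.Y735.S
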