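import Pool.Agent.Y735.S.Conic
import Pool.Agent.Y735.LineH
import Pool.Agent.Y735.S.Alg4b

/-!
Points on lines and conics over the smaller field.
-/

set_option autoImplicit false

open MvPolynomial Pool.Agent.TH145.GH

namespace Pool.Agent.Y735.S

variable {k K : Type} [Field k] [Field K] [Algebra k K]

theorem root_in [IsAlgClosed k] {p : Polynomial k} (hp : p ≠ 0) {u : K}
    (h : Polynomial.aeval u p = 0) : In k u := by
  have h1 : IsAlgebraic k u := ⟨p, hp, h⟩
  have h2 := IsAlgClosed.degree_eq_one_of_irreducible k (minpoly.irreducible h1.isIntegral)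
  obtain ⟨c, hc⟩ := minpoly.mem_range_of_degree_eq_one k u h2
  exact ⟨c, hc⟩

/-- A point that is proportional to a point over the smaller field. -/
theorem of_pt {ι : Type} {v : ι → K} (hv : ∀ l, In k (v l)) {x : ι → K} {s : K} {l0 : ι}
    (hx : x l0 = 1) (h : ∀ l, x l = s * v l) (l : ι) : In k (x l) := by
  have h1 := h l0
  rw [hx] at h1
  have hs : In k s := by
    have h2 : s = (v l0)⁻¹ := eq_inv_of_mul_eq_one_left h1.symm
    rw [h2]
    exact (hv l0).inv
  rw [h]
  exact hs.mul (hv l)

theorem aeval_rho {n : ℕ} (p q : Fin (n + 1) → k) (F : MvPolynomial (Fin (n + 1)) k) (u : K) :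
    Polynomial.aeval u (rho p q F) = eval (u • up K p + up K q) (map (algebraMap k K) F) := by
  have h2 : ((Polynomial.aeval u : Polynomial k →ₐ[k] K) : Polynomial k →+* K).comp
      ((rho p q : MvPolynomial (Fin (n + 1)) k →ₐ[k] Polynomial k) :
        MvPolynomial (Fin (n + 1)) k →+* Polynomial k) =
      (eval (u • up K p + up K q)).comp (map (algebraMap k K)) := by
    apply MvPolynomial.ringHom_ext
    · intro c
      rw [RingHom.comp_apply, RingHom.comp_apply, map_C, eval_C]
      change Polynomial.aeval u (rho p q (C c)) = _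
      rw [rho, aeval_C]
      exact Polynomial.aeval_C _ _
    · intro l
      rw [RingHom.comp_apply, RingHom.comp_apply, map_X, eval_X]
      change Polynomial.aeval u (rho p q (X l)) = _
      rw [rho_X, map_add, map_mul, Polynomial.aeval_C, Polynomial.aeval_C, Polynomial.aeval_X,
        Pi.add_apply, Pi.smul_apply, smul_eq_mul, mul_comm]
      rfl
  exact DFunLike.congr_fun h2 F

theorem rho_ne [Infinite k] {n d : ℕ} (hd : 0 < d) {F : MvPolynomial (Fin (n + 1)) k}
    (hF : F.IsHomogeneous d) (hno : ∀ p, ¬ OnL F p) {p q : Fin (n + 1) → k}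
    {ik : Fin (n + 1) × Fin (n + 1)} (hik : pl p q ik ≠ 0) : rho p q F ≠ 0 := by
  intro h0
  have h1 : ∀ u : k, eval (u • p + q) F = 0 := by
    intro u
    rw [← eval_rho, h0, Polynomial.eval_zero]
  have hq : eval q F = 0 := by
    have := h1 0
    rwa [zero_smul, zero_add] at this
  have hR : rho q p F = 0 := by
    have h2 : Polynomial.X * rho q p F = 0 := by
      apply Polynomial.funext
      intro t
      rw [Polynomial.eval_mul, Polynomial.eval_X, Polynomial.eval_zero, eval_rho]
      by_cases ht : t = 0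
      · rw [ht, zero_mul]
      · have h3 : t • q + p = t • (t⁻¹ • p + q) := by
          rw [smul_add, smul_smul, mul_inv_cancel₀ ht, one_smul]
          exact add_comm _ _
        rw [h3, eval_smul_hom hF, h1, mul_zero, mul_zero]
    exact (mul_eq_zero.1 h2).resolve_left Polynomial.X_ne_zero
  refine hno q (onL_of hF hq hd (y := p) (ik := (ik.2, ik.1)) ?_ fun t => ?_)
  · have h3 : pl q p (ik.2, ik.1) = pl p q ik := by
      simp only [pl]
      ring
    rw [h3]
    exact hik
  · rw [← eval_rho, hR, Polynomial.eval_zero]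

/-- Points on lines over the smaller field. -/
theorem of_line [IsAlgClosed k] {n d : ℕ} (hd : 0 < d) {F : MvPolynomial (Fin (n + 1)) k}
    (hF : F.IsHomogeneous d) (hno : ∀ p, ¬ OnL F p) {x : Fin (n + 1) → K} {l0 : Fin (n + 1)}
    (hx : x l0 = 1) (hxF : eval x (map (algebraMap k K) F) = 0) {p q : Fin (n + 1) → k} {s t : K}
    (h : ∀ l, x l = s * algebraMap k K (p l) + t * algebraMap k K (q l)) (l : Fin (n + 1)) :
    In k (x l) := by
  have : Infinite k := IsAlgClosed.instInfinite
  by_cases hpl : ∃ ik, pl p q ik ≠ 0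
  · obtain ⟨ik, hik⟩ := hpl
    by_cases ht : t = 0
    · refine of_pt (v := fun l => algebraMap k K (p l)) (fun l => In.alg _) hx (s := s)
        (fun l => ?_) l
      rw [h, ht, zero_mul, add_zero]
    · have hu : In k (s / t) := by
        refine root_in (rho_ne hd hF hno hik) ?_
        rw [aeval_rho]
        have h1 : x = t • ((s / t) • up K p + up K q) := by
          funext l
          rw [h]
          simp only [Pi.smul_apply, Pi.add_apply, smul_eq_mul, up]
          field_simp
        have h2 := hxF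
        rw [h1, eval_smul_hom (hF.map _)] at h2
        exact (mul_eq_zero.1 h2).resolve_left (pow_ne_zero _ ht)
      refine of_pt (v := fun l => s / t * algebraMap k K (p l) + algebraMap k K (q l))
        (fun l => (hu.mul (In.alg _)).add (In.alg _)) hx (s := t) (fun l => ?_) l
      rw [h]
      field_simp
  · push Not at hpl
    by_cases hp : p = 0
    · refine of_pt (v := fun l => algebraMap k K (q l)) (fun l => In.alg _) hx (s := t)
        (fun l => ?_) l
      rw [h, hp, Pi.zero_apply, map_zero, mul_zero, zero_add]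
    · obtain ⟨i, hi⟩ := Function.ne_iff.1 hp
      have hi' : p i ≠ 0 := hi
      have hi'' : algebraMap k K (p i) ≠ 0 := fun h0 =>
        hi' ((algebraMap k K).injective (by rw [h0, map_zero]))
      refine of_pt (v := fun l => algebraMap k K (p l)) (fun l => In.alg _) hx
        (s := s + t * (algebraMap k K (q i) / algebraMap k K (p i))) (fun l => ?_) l
      have h1 := hpl (i, l)
      have h2 : p i * q l = p l * q i := by
        have h3 : p i * q l - p l * q i = 0 := h1
        exact sub_eq_zero.1 h3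
      have h3 : algebraMap k K (p i) * algebraMap k K (q l) =
          algebraMap k K (p l) * algebraMap k K (q i) := by
        rw [← map_mul, h2, map_mul]
      rw [h]
      field_simp
      linear_combination t * h3

/-- Points in spaces of dimension two over the smaller field. -/
theorem exists_pq {n : ℕ} {x : Fin (n + 1) → K} (N : Submodule k (Fin (n + 1) → k))
    (hN : Module.finrank k N ≤ 2) (h : ∀ ξ : K →ₗ[k] k, (fun l => ξ (x l)) ∈ N) :
    ∃ (p q : Fin (n + 1) → k) (s t : K),
      ∀ l, x l = s * algebraMap k K (p l) + t * algebraMap k K (q l) := by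
  classical
  obtain ⟨p, q, hpq⟩ : ∃ p q : Fin (n + 1) → k, ∀ v ∈ N, ∃ a b : k, v = a • p + b • q := by
    obtain ⟨r, hr⟩ : ∃ r, r = Module.finrank k N := ⟨_, rfl⟩
    let bs := Module.finBasisOfFinrankEq k N hr.symm
    have hr2 : r ≤ 2 := by omega
    interval_cases r
    · refine ⟨0, 0, fun v hv => ⟨0, 0, ?_⟩⟩
      have := bs.sum_repr ⟨v, hv⟩
      rw [Fin.sum_univ_zero] at this
      have h3 : (0 : Fin (n + 1) → k) = v := congrArg Subtype.val this
      rw [← h3, smul_zero, add_zero]
    · refine ⟨bs 0, 0, fun v hv => ⟨bs.repr ⟨v, hv⟩ 0, 0, ?_⟩⟩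
      have := bs.sum_repr ⟨v, hv⟩
      rw [Fin.sum_univ_one] at this
      have h3 := congrArg Subtype.val this
      rw [Submodule.coe_smul] at h3
      rw [h3, smul_zero, add_zero]
    · refine ⟨bs 0, bs 1, fun v hv => ⟨bs.repr ⟨v, hv⟩ 0, bs.repr ⟨v, hv⟩ 1, ?_⟩⟩
      have := bs.sum_repr ⟨v, hv⟩
      rw [Fin.sum_univ_two] at this
      have h3 := congrArg Subtype.val this
      rw [Submodule.coe_add, Submodule.coe_smul, Submodule.coe_smul] at h3
      rw [h3]
  obtain ⟨V, hV⟩ : ∃ V : Submodule k K, V = Submodule.span k (Set.range x) := ⟨_, rfl⟩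
  have hVf : FiniteDimensional k V := by
    rw [hV]
    exact FiniteDimensional.span_of_finite k (Set.finite_range _)
  have hxV : ∀ l, x l ∈ V := fun l => by
    rw [hV]
    exact Submodule.subset_span ⟨l, rfl⟩
  let bs := Module.finBasis k V
  have h1 : ∀ i, ∃ a b : k, ∀ l, bs.repr ⟨x l, hxV l⟩ i = a * p l + b * q l := by
    intro i
    obtain ⟨ξ, hξ⟩ := LinearMap.exists_extend (bs.coord i)
    obtain ⟨a, b, hab⟩ := hpq _ (h ξ)
    refine ⟨a, b, fun l => ?_⟩
    have h2 := congrFun hab l
    have h3 : ξ (x l) = bs.repr ⟨x l, hxV l⟩ i := LinearMap.congr_fun hξ ⟨x l, hxV l⟩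
    rw [← h3]
    exact h2
  choose a b hab using h1
  refine ⟨p, q, ∑ i, algebraMap k K (a i) * (bs i : K), ∑ i, algebraMap k K (b i) * (bs i : K),
    fun l => ?_⟩
  have h2 := congrArg (fun v : V => (v : K)) (bs.sum_repr ⟨x l, hxV l⟩)
  dsimp only at h2
  rw [Submodule.coe_sum] at h2
  rw [← h2, Finset.sum_mul, Finset.sum_mul, ← Finset.sum_add_distrib]
  refine Finset.sum_congr rfl fun i _ => ?_
  rw [Submodule.coe_smul, Algebra.smul_def, hab, map_add, map_mul, map_mul]
  ring

/-- Points on the lines given by two equations. -/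
theorem of_TwoLn [IsAlgClosed k] {d : ℕ} (hd : 0 < d) {F : MvPolynomial (Fin (3 + 1)) k}
    (hF : F.IsHomogeneous d) (hno : ∀ p, ¬ OnL F p) {x : Fin (3 + 1) → K} {l0 : Fin (3 + 1)}
    (hx : x l0 = 1) (hxF : eval x (map (algebraMap k K) F) = 0) (h : TwoLn k x)
    (l : Fin (3 + 1)) : In k (x l) := by
  classical
  obtain ⟨ν, ν', hi, h1, h2⟩ := h
  obtain ⟨f, hf⟩ : ∃ f : (Fin (3 + 1) → k) →ₗ[k] (k × k), ∀ v,
      f v = (∑ l, ν l * v l, ∑ l, ν' l * v l) :=
    ⟨LinearMap.prod (∑ l, ν l • LinearMap.proj l) (∑ l, ν' l • LinearMap.proj l), fun v => by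
      refine Prod.ext ?_ ?_
      · change (∑ l, ν l • LinearMap.proj (R := k) (φ := fun _ : Fin (3 + 1) => k) l) v = _
        rw [LinearMap.sum_apply]
        rfl
      · change (∑ l, ν' l • LinearMap.proj (R := k) (φ := fun _ : Fin (3 + 1) => k) l) v = _
        rw [LinearMap.sum_apply]
        rfl⟩
  have hsur : LinearMap.range f = ⊤ := by
    by_contra hne
    obtain ⟨φ, hφ0, hφ⟩ := Submodule.exists_le_ker_of_lt_top _ (lt_top_iff_ne_top.2 hne)
    have h3 : ∀ z : k × k, φ z = z.1 * φ (1, 0) + z.2 * φ (0, 1) := by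
      intro z
      have h4 : z = z.1 • ((1, 0) : k × k) + z.2 • ((0, 1) : k × k) := by
        refine Prod.ext ?_ ?_ <;> simp
      conv_lhs => rw [h4]
      rw [map_add, map_smul, map_smul, smul_eq_mul, smul_eq_mul]
    have h4 := hi (φ (1, 0)) (φ (0, 1)) fun l => by
      have h5 : φ (f (Pi.single l 1)) = 0 := hφ ⟨_, rfl⟩
      rw [hf, h3] at h5
      have h6 : ∀ w : Fin (3 + 1) → k, ∑ l', w l' * (Pi.single l 1 : Fin (3 + 1) → k) l' = w l := by
        intro w
        rw [Finset.sum_eq_single l]
        · rw [Pi.single_eq_same, mul_one]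
        · intro l' _ hl'
          rw [Pi.single_eq_of_ne hl', mul_zero]
        · intro h; exact absurd (Finset.mem_univ l) h
      rw [h6, h6] at h5
      linear_combination h5
    apply hφ0
    ext <;> simp [h4.1, h4.2]
  have hker : Module.finrank k (LinearMap.ker f) = 2 := by
    have h3 := LinearMap.finrank_range_add_finrank_ker f
    rw [hsur, finrank_top, Module.finrank_prod, Module.finrank_self, Module.finrank_fin_fun] at h3
    omega
  obtain ⟨p, q, s, t, hpq⟩ := exists_pq (x := x) (LinearMap.ker f) hker.le (by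
    intro ξ
    rw [LinearMap.mem_ker, hf]
    have h3 : ∀ w : Fin (3 + 1) → k, ∑ l, algebraMap k K (w l) * x l = 0 →
        ∑ l, w l * ξ (x l) = 0 := by
      intro w hw
      have h4 := congrArg ξ hw
      rw [map_sum, map_zero] at h4
      rw [← h4]
      refine Finset.sum_congr rfl fun l _ => ?_
      rw [← Algebra.smul_def, map_smul, smul_eq_mul]
    exact Prod.ext (h3 ν h1) (h3 ν' h2))
  exact of_line hd hF hno hx hxF hpq l

/-- Points on conics. -/
theorem of_Quad [IsAlgClosed k] {n d : ℕ} (hd : 0 < d) {F : MvPolynomial (Fin (n + 1)) k}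
    (hF : F.IsHomogeneous d) (hno : ∀ p, ¬ OnL F p)
    (hcon : ∀ ψ : Fin (n + 1) → Fin 3 → k,
      (∀ c : Fin 3 → k, (∀ l, ∑ i, ψ l i * c i = 0) → c = 0) →
      ¬ ∀ v : k, eval (fun l => ψ l 0 * v ^ 2 + ψ l 1 * v + ψ l 2) F = 0)
    {x : Fin (n + 1) → K} {l0 : Fin (n + 1)}
    (hx : x l0 = 1) (hxF : eval x (map (algebraMap k K) F) = 0) (h : Quad k x)
    (l : Fin (n + 1)) : In k (x l) := by
  classical
  have hinf : Infinite k := IsAlgClosed.instInfinite
  obtain ⟨s, t, c, ψ, h⟩ := h
  by_cases ht : t = 0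
  · refine of_pt (v := fun l => algebraMap k K (ψ l 0)) (fun l => In.alg _) hx (s := c * s ^ 2)
      (fun l => ?_) l
    rw [h, ht]
    ring
  by_cases hi : ∀ c : Fin 3 → k, (∀ l, ∑ i, ψ l i * c i = 0) → c = 0
  · have hH := hcon ψ hi
    obtain ⟨H, hHd⟩ : ∃ H, H = aeval (pe ψ) F := ⟨_, rfl⟩
    have hH0 : H ≠ 0 := by
      intro h0
      apply hH
      intro v
      have h2 : (Polynomial.evalRingHom v).comp
          ((aeval (pe ψ) : MvPolynomial (Fin (n + 1)) k →ₐ[k] Polynomial k) :
            MvPolynomial (Fin (n + 1)) k →+* Polynomial k) =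
          eval (fun l => ψ l 0 * v ^ 2 + ψ l 1 * v + ψ l 2) := by
        apply MvPolynomial.ringHom_ext
        · intro c
          simp
        · intro l
          simp [pe]
      rw [← h2]
      change Polynomial.eval v (aeval (pe ψ) F) = 0
      rw [← hHd, h0, Polynomial.eval_zero]
    have hc : c ≠ 0 := by
      rintro rfl
      rw [h, zero_mul] at hx
      exact zero_ne_one hx
    have hu : In k (s / t) := by
      refine root_in hH0 ?_
      have h2 : ((Polynomial.aeval (s / t) : Polynomial k →ₐ[k] K) : Polynomial k →+* K).comp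
          ((aeval (pe ψ) : MvPolynomial (Fin (n + 1)) k →ₐ[k] Polynomial k) :
            MvPolynomial (Fin (n + 1)) k →+* Polynomial k) =
          (eval (fun l => algebraMap k K (ψ l 0) * (s / t) ^ 2 + algebraMap k K (ψ l 1) * (s / t) +
            algebraMap k K (ψ l 2))).comp (map (algebraMap k K)) := by
        apply MvPolynomial.ringHom_ext
        · intro c
          simp
        · intro l
          simp [pe]
      have h3 := DFunLike.congr_fun h2 F
      rw [RingHom.comp_apply, RingHom.comp_apply] at h3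
      rw [hHd]
      refine Eq.trans h3 ?_
      have h4 : x = (c * t ^ 2) • fun l => algebraMap k K (ψ l 0) * (s / t) ^ 2 +
          algebraMap k K (ψ l 1) * (s / t) + algebraMap k K (ψ l 2) := by
        funext l
        rw [h, Pi.smul_apply, smul_eq_mul]
        field_simp
      have h5 := hxF
      rw [h4, eval_smul_hom (hF.map _)] at h5
      exact (mul_eq_zero.1 h5).resolve_left (pow_ne_zero _ (mul_ne_zero hc (pow_ne_zero _ ht)))
    refine of_pt (v := fun l => algebraMap k K (ψ l 0) * (s / t) ^ 2 +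
        algebraMap k K (ψ l 1) * (s / t) + algebraMap k K (ψ l 2)) (fun l => ?_) hx
        (s := c * t ^ 2) (fun l => ?_) l
    · rw [pow_two]
      exact (((In.alg _).mul (hu.mul hu)).add ((In.alg _).mul hu)).add (In.alg _)
    · rw [h]
      field_simp
  · push Not at hi
    obtain ⟨cc, hcc, hcc0⟩ := hi
    obtain ⟨N, hN⟩ : ∃ N : Submodule k (Fin (n + 1) → k),
      N = Submodule.span k (Set.range fun (i : Fin 3) l => ψ l i) := ⟨_, rfl⟩
    have hNf : Module.finrank k N ≤ 2 := by
      by_contra hlt
      have h1 : LinearIndependent k fun (i : Fin 3) l => ψ l i := by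
        rw [linearIndependent_iff_card_le_finrank_span, Set.finrank, ← hN, Fintype.card_fin]
        omega
      rw [Fintype.linearIndependent_iff] at h1
      apply hcc0
      funext i
      refine h1 cc ?_ i
      funext l
      rw [Finset.sum_apply, Pi.zero_apply, ← hcc l]
      exact Finset.sum_congr rfl fun i _ => by rw [Pi.smul_apply, smul_eq_mul, mul_comm]
    obtain ⟨p, q, s', t', hpq⟩ := exists_pq (x := x) N hNf (by
      intro ξ
      have h1 : (fun l => ξ (x l)) = ξ (c * s ^ 2) • (fun l => ψ l 0) +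
          ξ (c * (s * t)) • (fun l => ψ l 1) + ξ (c * t ^ 2) • (fun l => ψ l 2) := by
        funext l
        rw [Pi.add_apply, Pi.add_apply, Pi.smul_apply, Pi.smul_apply, Pi.smul_apply, smul_eq_mul,
          smul_eq_mul, smul_eq_mul, h]
        have h2 : c * (algebraMap k K (ψ l 0) * s ^ 2 + algebraMap k K (ψ l 1) * (s * t) +
            algebraMap k K (ψ l 2) * t ^ 2) = ψ l 0 • (c * s ^ 2) + ψ l 1 • (c * (s * t)) +
              ψ l 2 • (c * t ^ 2) := by
          rw [Algebra.smul_def, Algebra.smul_def, Algebra.smul_def]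
          ring
        rw [h2, map_add, map_add, map_smul, map_smul, map_smul, smul_eq_mul, smul_eq_mul,
          smul_eq_mul]
        ring
      rw [h1, hN]
      refine add_mem (add_mem ?_ ?_) ?_
      · exact Submodule.smul_mem _ _ (Submodule.subset_span ⟨0, rfl⟩)
      · exact Submodule.smul_mem _ _ (Submodule.subset_span ⟨1, rfl⟩)
      · exact Submodule.smul_mem _ _ (Submodule.subset_span ⟨2, rfl⟩))
    exact of_line hd hF hno hx hxF hpq l

end Pool.Agent.Y735.S
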