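import Mathlib

/-!
Spaces of two by two matrices with traces and determinants in a smaller field.
-/

set_option autoImplicit false

namespace Pool.Agent.Y735.S

variable {k K : Type} [Field k] [Field K] [Algebra k K]

/-- Elements of the smaller field. -/
def In (k : Type) {K : Type} [Field k] [Field K] [Algebra k K] (c : K) : Prop :=
  ∃ a : k, algebraMap k K a = c

namespace In

theorem alg (a : k) : In k (algebraMap k K a) := ⟨a, rfl⟩

theorem zero : In k (0 : K) := ⟨0, map_zero _⟩

theorem one : In k (1 : K) := ⟨1, map_one _⟩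

theorem add {a b : K} (ha : In k a) (hb : In k b) : In k (a + b) := by
  obtain ⟨x, rfl⟩ := ha
  obtain ⟨y, rfl⟩ := hb
  exact ⟨x + y, map_add _ _ _⟩

theorem mul {a b : K} (ha : In k a) (hb : In k b) : In k (a * b) := by
  obtain ⟨x, rfl⟩ := ha
  obtain ⟨y, rfl⟩ := hb
  exact ⟨x * y, map_mul _ _ _⟩

theorem neg {a : K} (ha : In k a) : In k (-a) := by
  obtain ⟨x, rfl⟩ := ha
  exact ⟨-x, map_neg _ _⟩

theorem sub {a b : K} (ha : In k a) (hb : In k b) : In k (a - b) := by
  rw [sub_eq_add_neg]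
  exact ha.add hb.neg

theorem inv {a : K} (ha : In k a) : In k a⁻¹ := by
  obtain ⟨x, rfl⟩ := ha
  exact ⟨x⁻¹, map_inv₀ _ _⟩

theorem div {a b : K} (ha : In k a) (hb : In k b) : In k (a / b) := by
  rw [div_eq_mul_inv]
  exact ha.mul hb.inv

theorem sum {ι : Type} (s : Finset ι) (f : ι → K) (h : ∀ i ∈ s, In k (f i)) :
    In k (∑ i ∈ s, f i) := by
  classical
  induction s using Finset.induction_on with
  | empty => rw [Finset.sum_empty]; exact zero
  | insert i s hi ih =>
    rw [Finset.sum_insert hi]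
    exact (h i (Finset.mem_insert_self _ _)).add
      (ih fun j hj => h j (Finset.mem_insert_of_mem hj))

theorem nat (n : ℕ) : In k (n : K) := ⟨n, map_natCast _ _⟩

/-- Roots of quadratic polynomials. -/
theorem quad [IsAlgClosed k] {a b c u : K} (ha : In k a) (hb : In k b) (hc : In k c)
    (ha0 : a ≠ 0) (h : a * u ^ 2 + b * u + c = 0) : In k u := by
  obtain ⟨a, rfl⟩ := ha
  obtain ⟨b, rfl⟩ := hb
  obtain ⟨c, rfl⟩ := hc
  have ha' : a ≠ 0 := by
    rintro rfl
    exact ha0 (map_zero _)
  obtain ⟨r, hr⟩ : ∃ r : k, a * r ^ 2 + b * r + c = 0 := by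
    obtain ⟨r, hr⟩ := IsAlgClosed.exists_root (Polynomial.C a * Polynomial.X ^ 2 +
      Polynomial.C b * Polynomial.X + Polynomial.C c : Polynomial k) (by
        rw [Polynomial.degree_quadratic ha']
        decide)
    refine ⟨r, ?_⟩
    simpa using hr
  have hr' := congrArg (algebraMap k K) hr
  rw [map_add, map_add, map_mul, map_mul, map_pow, map_zero] at hr'
  have h1 : (u - algebraMap k K r) * (algebraMap k K a * (u + algebraMap k K r) +
      algebraMap k K b) = 0 := by linear_combination h - hr'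
  rcases mul_eq_zero.1 h1 with h2 | h2
  · exact ⟨r, (sub_eq_zero.1 h2).symm⟩
  · refine ⟨-b / a - r, ?_⟩
    rw [map_sub, map_div₀, map_neg]
    field_simp
    linear_combination -h2

end In

/-- The trace and the determinant in a basis. -/
theorem tr_det {c00 c01 c10 c11 v0 v1 w0 w1 a b c d : K} (hD : v0 * w1 - v1 * w0 ≠ 0)
    (h1 : c00 * v0 + c01 * v1 = a * v0 + c * w0) (h2 : c10 * v0 + c11 * v1 = a * v1 + c * w1)
    (h3 : c00 * w0 + c01 * w1 = b * v0 + d * w0) (h4 : c10 * w0 + c11 * w1 = b * v1 + d * w1) :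
    c00 + c11 = a + d ∧ c00 * c11 - c01 * c10 = a * d - b * c := by
  have h5 : (c00 + c11) * (v0 * w1 - v1 * w0) = (a + d) * (v0 * w1 - v1 * w0) := by
    linear_combination w1 * h1 - w0 * h2 - v1 * h3 + v0 * h4
  have h6 : (c00 * c11 - c01 * c10) * (v0 * w1 - v1 * w0) =
      (a * d - b * c) * (v0 * w1 - v1 * w0) := by
    have h7 : (c00 * c11 - c01 * c10) * (v0 * w1 - v1 * w0) =
        (c00 * v0 + c01 * v1) * (c10 * w0 + c11 * w1) -
          (c10 * v0 + c11 * v1) * (c00 * w0 + c01 * w1) := by ring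
    rw [h7, h1, h2, h3, h4]
    ring
  exact ⟨mul_right_cancel₀ hD h5, mul_right_cancel₀ hD h6⟩

/-- A vector in the kernel of a singular matrix. -/
theorem ker_vec {a b c d : K} (h : a * d - b * c = 0) :
    ∃ v0 v1 : K, (v0 ≠ 0 ∨ v1 ≠ 0) ∧ a * v0 + b * v1 = 0 ∧ c * v0 + d * v1 = 0 := by
  by_cases h1 : a = 0 ∧ b = 0
  · by_cases h2 : c = 0 ∧ d = 0
    · exact ⟨1, 0, Or.inl one_ne_zero, by rw [h1.1, h1.2]; ring, by rw [h2.1, h2.2]; ring⟩
    · refine ⟨d, -c, ?_, by rw [h1.1, h1.2]; ring, by ring⟩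
      by_contra hcon
      push Not at hcon
      exact h2 ⟨neg_eq_zero.1 hcon.2, hcon.1⟩
  · refine ⟨b, -a, ?_, by ring, by linear_combination -h⟩
    by_contra hcon
    push Not at hcon
    exact h1 ⟨neg_eq_zero.1 hcon.2, hcon.1⟩

/-- Coordinates in a basis. -/
theorem coords2 {v0 v1 w0 w1 : K} (hD : v0 * w1 - v1 * w0 ≠ 0) (z0 z1 : K) :
    ∃ a c : K, z0 = a * v0 + c * w0 ∧ z1 = a * v1 + c * w1 := by
  refine ⟨(z0 * w1 - z1 * w0) / (v0 * w1 - v1 * w0), (v0 * z1 - v1 * z0) / (v0 * w1 - v1 * w0),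
    ?_, ?_⟩
  · rw [div_mul_eq_mul_div, div_mul_eq_mul_div, ← add_div, eq_div_iff hD]
    ring
  · rw [div_mul_eq_mul_div, div_mul_eq_mul_div, ← add_div, eq_div_iff hD]
    ring

/-- The eigenvector case or the case of a basis. -/
theorem mat2 [IsAlgClosed k] [CharZero k] (W : Submodule k (Matrix (Fin 2) (Fin 2) K))
    (htr : ∀ A ∈ W, In k (A 0 0 + A 1 1))
    (hdet : ∀ A ∈ W, In k (A 0 0 * A 1 1 - A 0 1 * A 1 0)) :
    (∃ v0 v1 : K, (v0 ≠ 0 ∨ v1 ≠ 0) ∧ ∀ A ∈ W, ∃ c : K,
      A 0 0 * v0 + A 0 1 * v1 = c * v0 ∧ A 1 0 * v0 + A 1 1 * v1 = c * v1) ∨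
    ∃ v0 v1 w0 w1 : K, v0 * w1 - v1 * w0 ≠ 0 ∧ ∀ A ∈ W, ∃ a b c d : K, In k a ∧ In k b ∧ In k c ∧
      In k d ∧ A 0 0 * v0 + A 0 1 * v1 = a * v0 + c * w0 ∧
      A 1 0 * v0 + A 1 1 * v1 = a * v1 + c * w1 ∧
      A 0 0 * w0 + A 0 1 * w1 = b * v0 + d * w0 ∧
      A 1 0 * w0 + A 1 1 * w1 = b * v1 + d * w1 := by
  classical
  have hczK : CharZero K := charZero_of_injective_algebraMap (algebraMap k K).injective
  by_cases hdisc : ∃ A ∈ W, (A 0 0 + A 1 1) ^ 2 - 4 * (A 0 0 * A 1 1 - A 0 1 * A 1 0) ≠ 0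
  · obtain ⟨A, hA, hA0⟩ := hdisc
    obtain ⟨t, ht⟩ := htr A hA
    obtain ⟨δ, hδ⟩ := hdet A hA
    -- the eigenvalues
    obtain ⟨a1, ha1⟩ : ∃ a : k, a ^ 2 - t * a + δ = 0 := by
      have h2 := IsAlgClosed.exists_root (Polynomial.X ^ 2 - Polynomial.C t * Polynomial.X +
        Polynomial.C δ : Polynomial k) (by
          have : (Polynomial.X ^ 2 - Polynomial.C t * Polynomial.X +
            Polynomial.C δ : Polynomial k).degree = 2 := by compute_degree!
          rw [this]
          decide)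
      obtain ⟨a, ha⟩ := h2
      refine ⟨a, ?_⟩
      simpa using ha
    obtain ⟨a2, ha2⟩ : ∃ a2 : k, a2 = t - a1 := ⟨_, rfl⟩
    have ha12 : a1 ≠ a2 := by
      intro h
      apply hA0
      rw [← ht, ← hδ]
      have h3 : t = 2 * a1 := by rw [two_mul]; nth_rewrite 2 [h]; rw [ha2]; ring
      have h4 : t ^ 2 - 4 * δ = 0 := by
        have : δ = t * a1 - a1 ^ 2 := by linear_combination ha1
        rw [this, h3]; ring
      have h5 := congrArg (algebraMap k K) h4
      rw [map_sub, map_pow, map_mul, map_zero, map_ofNat] at h5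
      exact h5
    have hroot : ∀ a : k, a ^ 2 - t * a + δ = 0 →
        (A 0 0 - algebraMap k K a) * (A 1 1 - algebraMap k K a) - A 0 1 * A 1 0 = 0 := by
      intro a ha
      have h5 := congrArg (algebraMap k K) ha
      rw [map_add, map_sub, map_pow, map_mul, map_zero, ht, hδ] at h5
      linear_combination h5
    obtain ⟨v0, v1, hv, hv1, hv2⟩ := ker_vec (hroot a1 ha1)
    obtain ⟨w0, w1, hw, hw1, hw2⟩ := ker_vec (hroot a2 (by rw [ha2]; linear_combination ha1))
    have hD : v0 * w1 - v1 * w0 ≠ 0 := by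
      intro hD
      have h5 : (algebraMap k K a1 - algebraMap k K a2) ≠ 0 :=
        sub_ne_zero.2 fun h => ha12 ((algebraMap k K).injective h)
      have h6 : v0 * w0 = 0 := by
        have : (algebraMap k K a1 - algebraMap k K a2) * (v0 * w0) = 0 := by
          linear_combination (-w0) * hv1 + v0 * hw1 - A 0 1 * hD
        exact (mul_eq_zero.1 this).resolve_left h5
      have h7 : v1 * w1 = 0 := by
        have : (algebraMap k K a1 - algebraMap k K a2) * (v1 * w1) = 0 := by
          linear_combination (-w1) * hv2 + v1 * hw2 + A 1 0 * hD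
        exact (mul_eq_zero.1 this).resolve_left h5
      rcases hv with hv | hv
      · have h8 : w0 = 0 := (mul_eq_zero.1 h6).resolve_left hv
        have h9 : v0 * w1 = 0 := by rw [h8] at hD; linear_combination hD
        have h10 : w1 = 0 := (mul_eq_zero.1 h9).resolve_left hv
        rcases hw with hw | hw
        · exact hw h8
        · exact hw h10
      · have h8 : w1 = 0 := (mul_eq_zero.1 h7).resolve_left hv
        have h9 : v1 * w0 = 0 := by rw [h8] at hD; linear_combination -hD
        have h10 : w0 = 0 := (mul_eq_zero.1 h9).resolve_left hv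
        rcases hw with hw | hw
        · exact hw h10
        · exact hw h8
    -- coordinates of the matrices
    have hco : ∀ C ∈ W, ∃ a b c d : K, In k a ∧ In k d ∧ In k (b * c) ∧
        C 0 0 * v0 + C 0 1 * v1 = a * v0 + c * w0 ∧
        C 1 0 * v0 + C 1 1 * v1 = a * v1 + c * w1 ∧
        C 0 0 * w0 + C 0 1 * w1 = b * v0 + d * w0 ∧
        C 1 0 * w0 + C 1 1 * w1 = b * v1 + d * w1 := by
      intro C hC
      obtain ⟨a, c, e1, e2⟩ := coords2 hD (C 0 0 * v0 + C 0 1 * v1) (C 1 0 * v0 + C 1 1 * v1)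
      obtain ⟨b, d, e3, e4⟩ := coords2 hD (C 0 0 * w0 + C 0 1 * w1) (C 1 0 * w0 + C 1 1 * w1)
      obtain ⟨g1, g2⟩ := tr_det hD e1 e2 e3 e4
      have g3 := htr C hC
      have g4 := hdet C hC
      have g5 := hdet (A + C) (W.add_mem hA hC)
      rw [g1] at g3
      rw [g2] at g4
      have g6 : (A + C) 0 0 * (A + C) 1 1 - (A + C) 0 1 * (A + C) 1 0 =
          (a + algebraMap k K a1) * (d + algebraMap k K a2) - b * c := by
        refine (tr_det (c00 := (A + C) 0 0) (c01 := (A + C) 0 1) (c10 := (A + C) 1 0)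
          (c11 := (A + C) 1 1) (a := a + algebraMap k K a1) (b := b) (c := c)
          (d := d + algebraMap k K a2) hD ?_ ?_ ?_ ?_).2
        · simp only [Matrix.add_apply]; linear_combination e1 + hv1
        · simp only [Matrix.add_apply]; linear_combination e2 + hv2
        · simp only [Matrix.add_apply]; linear_combination e3 + hw1
        · simp only [Matrix.add_apply]; linear_combination e4 + hw2
      rw [g6] at g5
      -- solve for `a` and `d`
      have g7 : In k (algebraMap k K a2 * a + algebraMap k K a1 * d) := by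
        have : algebraMap k K a2 * a + algebraMap k K a1 * d =
            ((a + algebraMap k K a1) * (d + algebraMap k K a2) - b * c) - (a * d - b * c) -
              algebraMap k K a1 * algebraMap k K a2 := by ring
        rw [this]
        exact (g5.sub g4).sub ((In.alg a1).mul (In.alg a2))
      have h5 : (algebraMap k K a2 - algebraMap k K a1) ≠ 0 :=
        sub_ne_zero.2 fun h => ha12 ((algebraMap k K).injective h.symm)
      have g8 : In k a := by
        have : a = ((algebraMap k K a2 * a + algebraMap k K a1 * d) -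
            algebraMap k K a1 * (a + d)) / (algebraMap k K a2 - algebraMap k K a1) := by
          field_simp; ring
        rw [this]
        exact (g7.sub ((In.alg a1).mul g3)).div ((In.alg a2).sub (In.alg a1))
      have g9 : In k d := by
        have : d = (a + d) - a := by ring
        rw [this]
        exact g3.sub g8
      refine ⟨a, b, c, d, g8, g9, ?_, e1, e2, e3, e4⟩
      have : b * c = a * d - (a * d - b * c) := by ring
      rw [this]
      exact (g8.mul g9).sub g4
    choose! fa fb fc fd hfa hfd hfbc f1 f2 f3 f4 using hco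
    -- the coordinates are additive
    have hadd : ∀ C ∈ W, ∀ C' ∈ W, fb (C + C') = fb C + fb C' ∧ fc (C + C') = fc C + fc C' := by
      intro C hC C' hC'
      have hCC := W.add_mem hC hC'
      have q1 := f1 (C + C') hCC
      have q2 := f2 (C + C') hCC
      have q3 := f3 (C + C') hCC
      have q4 := f4 (C + C') hCC
      simp only [Matrix.add_apply] at q1 q2 q3 q4
      constructor
      · have : (fb (C + C')) * (v0 * w1 - v1 * w0) = (fb C + fb C') * (v0 * w1 - v1 * w0) := by
          linear_combination -w1 * q3 + w0 * q4 + w1 * (f3 C hC) - w0 * (f4 C hC) +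
            w1 * (f3 C' hC') - w0 * (f4 C' hC')
        exact mul_right_cancel₀ hD this
      · have : (fc (C + C')) * (v0 * w1 - v1 * w0) = (fc C + fc C') * (v0 * w1 - v1 * w0) := by
          linear_combination v1 * q1 - v0 * q2 - v1 * (f1 C hC) + v0 * (f2 C hC) -
            v1 * (f1 C' hC') + v0 * (f2 C' hC')
        exact mul_right_cancel₀ hD this
    by_cases hc0 : ∀ C ∈ W, fc C = 0
    · left
      refine ⟨v0, v1, hv, fun C hC => ⟨fa C, ?_, ?_⟩⟩
      · rw [f1 C hC, hc0 C hC]; ring
      · rw [f2 C hC, hc0 C hC]; ring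
    by_cases hb0 : ∀ C ∈ W, fb C = 0
    · left
      refine ⟨w0, w1, hw, fun C hC => ⟨fd C, ?_, ?_⟩⟩
      · rw [f3 C hC, hb0 C hC]; ring
      · rw [f4 C hC, hb0 C hC]; ring
    push Not at hc0 hb0
    obtain ⟨C0, hC0, hbC, hcC⟩ : ∃ C0 ∈ W, fb C0 ≠ 0 ∧ fc C0 ≠ 0 := by
      obtain ⟨C1, hC1, hc1⟩ := hc0
      obtain ⟨C2, hC2, hb2⟩ := hb0
      by_cases hb1 : fb C1 = 0
      · by_cases hc2 : fc C2 = 0
        · refine ⟨C1 + C2, W.add_mem hC1 hC2, ?_, ?_⟩
          · rw [(hadd C1 hC1 C2 hC2).1, hb1, zero_add]; exact hb2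
          · rw [(hadd C1 hC1 C2 hC2).2, hc2, add_zero]; exact hc1
        · exact ⟨C2, hC2, hb2, hc2⟩
      · exact ⟨C1, hC1, hb1, hc1⟩
    right
    refine ⟨v0, v1, fc C0 * w0, fc C0 * w1, ?_, fun C hC => ?_⟩
    · have : v0 * (fc C0 * w1) - v1 * (fc C0 * w0) = fc C0 * (v0 * w1 - v1 * w0) := by ring
      rw [this]
      exact mul_ne_zero hcC hD
    · have e0 : In k (fb C * fc C) := hfbc C hC
      have e1 : In k (fb C0 * fc C0) := hfbc C0 hC0
      have e2 : In k (fb C * fc C0 + fb C0 * fc C) := by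
        have h6 := hfbc (C + C0) (W.add_mem hC hC0)
        rw [(hadd C hC C0 hC0).1, (hadd C hC C0 hC0).2] at h6
        have : fb C * fc C0 + fb C0 * fc C = (fb C + fb C0) * (fc C + fc C0) - fb C * fc C -
            fb C0 * fc C0 := by ring
        rw [this]
        exact (h6.sub e0).sub e1
      have e3 : In k (fc C / fc C0) := by
        refine In.quad (a := fb C0 * fc C0) (b := -(fb C * fc C0 + fb C0 * fc C))
          (c := fb C * fc C) e1 e2.neg e0 (mul_ne_zero hbC hcC) ?_
        field_simp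
        ring
      have e4 : In k (fb C * fc C0) := by
        have : fb C * fc C0 = (fb C * fc C0 + fb C0 * fc C) -
            (fb C0 * fc C0) * (fc C / fc C0) := by field_simp; ring
        rw [this]
        exact e2.sub (e1.mul e3)
      refine ⟨fa C, fb C * fc C0, fc C / fc C0, fd C, hfa C hC, e4, e3, hfd C hC, ?_, ?_, ?_, ?_⟩
      · rw [f1 C hC]; field_simp
      · rw [f2 C hC]; field_simp
      · linear_combination fc C0 * (f3 C hC)
      · linear_combination fc C0 * (f4 C hC)
  · left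
    push Not at hdisc
    -- nilpotent matrices
    have hnil : ∀ A ∈ W, ∃ a p q r : K, A 0 0 = a + p ∧ A 1 1 = a - p ∧ A 0 1 = q ∧ A 1 0 = r ∧
        p ^ 2 + q * r = 0 ∧ In k a := by
      intro A hA
      refine ⟨(A 0 0 + A 1 1) / 2, (A 0 0 - A 1 1) / 2, A 0 1, A 1 0, by ring, by ring, rfl, rfl,
        ?_, (htr A hA).div ?_⟩
      · have := hdisc A hA
        linear_combination this / 4
      · exact_mod_cast In.nat (k := k) (K := K) 2
    by_cases hsc : ∀ A ∈ W, A 0 1 = 0 ∧ A 1 0 = 0 ∧ A 0 0 = A 1 1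
    · refine ⟨1, 0, Or.inl one_ne_zero, fun A hA => ⟨A 0 0, by ring, ?_⟩⟩
      rw [(hsc A hA).2.1]; ring
    push Not at hsc
    obtain ⟨N, hN, hN0⟩ := hsc
    obtain ⟨a, p, q, r, e1, e2, e3, e4, e5, ha⟩ := hnil N hN
    -- the polarization
    have hpol : ∀ A ∈ W, ∃ a' p' q' r' : K, A 0 0 = a' + p' ∧ A 1 1 = a' - p' ∧ A 0 1 = q' ∧
        A 1 0 = r' ∧ 2 * p * p' + q * r' + q' * r = 0 := by
      intro A hA
      obtain ⟨a', p', q', r', e1', e2', e3', e4', e5', ha'⟩ := hnil A hA
      refine ⟨a', p', q', r', e1', e2', e3', e4', ?_⟩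
      have h5 := hdisc (N + A) (W.add_mem hN hA)
      simp only [Matrix.add_apply] at h5
      rw [e1, e2, e3, e4, e1', e2', e3', e4'] at h5
      linear_combination h5 / 4 - e5 - e5'
    by_cases hq : p = 0 ∧ q = 0
    · refine ⟨0, 1, Or.inr one_ne_zero, fun A hA => ?_⟩
      obtain ⟨a', p', q', r', e1', e2', e3', e4', e5'⟩ := hpol A hA
      have hr : r ≠ 0 := by
        rintro rfl
        refine hN0 ?_ ?_ ?_
        · rw [e3, hq.2]
        · rw [e4]
        · rw [e1, e2, hq.1]; ring
      have hq' : q' = 0 := by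
        rw [hq.1, hq.2] at e5'
        have : q' * r = 0 := by linear_combination e5'
        exact (mul_eq_zero.1 this).resolve_right hr
      exact ⟨A 1 1, by rw [e3', hq']; ring, by ring⟩
    · refine ⟨q, -p, ?_, fun A hA => ?_⟩
      · by_contra hcon
        push Not at hcon
        exact hq ⟨neg_eq_zero.1 hcon.2, hcon.1⟩
      · obtain ⟨a', p', q', r', e1', e2', e3', e4', e5'⟩ := hpol A hA
        rw [e1', e2', e3', e4']
        by_cases hq0 : q = 0
        · have hp : p = 0 := by
            rw [hq0] at e5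
            have : p ^ 2 = 0 := by linear_combination e5
            exact pow_eq_zero_iff (two_ne_zero) |>.1 this
          exact absurd ⟨hp, hq0⟩ hq
        · refine ⟨a' + p' - q' * p / q, ?_, ?_⟩
          · field_simp; ring
          · field_simp
            linear_combination -q' * e5 + q * e5'

end Pool.Agent.Y735.S
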