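import Pool.Agent.Y735.Lines
import Pool.Agent.Y735.S.Mat2

/-!
A generic quintic surface contains no conics.
-/

set_option autoImplicit false

open MvPolynomial Pool.Agent.TH145.GH

namespace Pool.Agent.Y735.S

/-- Linear relations determine coordinates. -/
theorem exists_small {E Ω ι : Type} [Field E] [Field Ω] [Algebra E Ω] [Fintype ι] [DecidableEq ι]
    {r : ℕ} (w : ι → Fin r → E) (hw : Submodule.span E (Set.range w) = ⊤) (c : ι → Ω)
    (h : ∀ m, ∑ j, c j * algebraMap E Ω (w j m) = 0) :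
    ∃ T : Finset ι, T.card + r = Fintype.card ι ∧ ∀ L : Subfield Ω, (∀ a : E, algebraMap E Ω a ∈ L) →
      (∀ j ∈ T, c j ∈ L) → ∀ j, c j ∈ L := by
  classical
  obtain ⟨κ, a, ha, hsp, hli⟩ := exists_linearIndependent' E w
  have hκ : Finite κ := Finite.of_injective a ha
  have : Fintype κ := Fintype.ofFinite κ
  let b := Module.Basis.mk hli (by rw [hsp, hw])
  have hb : ∀ i, b i = w (a i) := fun i => by rw [Module.Basis.mk_apply]; rfl
  have hcard : Fintype.card κ = r := by
    have h1 := Module.finrank_eq_card_basis b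
    rw [Module.finrank_fin_fun] at h1
    exact h1.symm
  refine ⟨(Finset.univ.image a)ᶜ, ?_, fun L hE hT => ?_⟩
  · have h1 := Finset.card_compl_add_card (Finset.univ.image a)
    rw [Finset.card_image_of_injective _ ha, Finset.card_univ, hcard] at h1
    exact h1
  · have key : ∀ i, c (a i) ∈ L := by
      intro i
      obtain ⟨θ, hθ⟩ : ∃ θ : (Fin r → E) →ₗ[E] E, θ = b.coord i := ⟨_, rfl⟩
      have h1 : ∀ v, θ v = ∑ m, θ (Pi.single m 1) * v m := by
        intro v
        have h2 : v = ∑ m, v m • (Pi.single m 1 : Fin r → E) := by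
          funext m'
          rw [Finset.sum_apply, Finset.sum_eq_single m']
          · rw [Pi.smul_apply, Pi.single_eq_same, smul_eq_mul, mul_one]
          · intro j _ hj
            rw [Pi.smul_apply, Pi.single_eq_of_ne hj.symm, smul_zero]
          · intro h; exact absurd (Finset.mem_univ m') h
        conv_lhs => rw [h2]
        rw [map_sum]
        exact Finset.sum_congr rfl fun m _ => by rw [map_smul, smul_eq_mul, mul_comm]
      have h2 : ∑ j, c j * algebraMap E Ω (θ (w j)) = 0 := by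
        have h3 : ∀ j, c j * algebraMap E Ω (θ (w j)) =
            ∑ m, algebraMap E Ω (θ (Pi.single m 1)) * (c j * algebraMap E Ω (w j m)) := by
          intro j
          rw [h1 (w j), map_sum, Finset.mul_sum]
          exact Finset.sum_congr rfl fun m _ => by rw [map_mul]; ring
        rw [Finset.sum_congr rfl fun j _ => h3 j, Finset.sum_comm]
        refine Finset.sum_eq_zero fun m _ => ?_
        rw [← Finset.mul_sum, h, mul_zero]
      have h3 : ∀ i', θ (w (a i')) = if i' = i then 1 else 0 := by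
        intro i'
        rw [← hb, hθ, Module.Basis.coord_apply, Module.Basis.repr_self, Finsupp.single_apply]
      rw [← Finset.sum_add_sum_compl (Finset.univ.image a),
        Finset.sum_image (fun i _ j _ hij => ha hij)] at h2
      have h4 : ∑ i', c (a i') * algebraMap E Ω (θ (w (a i'))) = c (a i) := by
        rw [Finset.sum_eq_single i]
        · rw [h3, if_pos rfl, map_one, mul_one]
        · intro i' _ hi'
          rw [h3, if_neg hi', map_zero, mul_zero]
        · intro h; exact absurd (Finset.mem_univ i) h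
      rw [h4] at h2
      rw [eq_neg_of_add_eq_zero_left h2]
      exact neg_mem (sum_mem fun j hj => mul_mem (hT j hj) (hE _))
    intro j
    by_cases hj : j ∈ (Finset.univ.image a)ᶜ
    · exact hT j hj
    · rw [Finset.mem_compl, not_not, Finset.mem_image] at hj
      obtain ⟨i, -, rfl⟩ := hj
      exact key i

theorem sum_all {R : Type} [Field R] {n d : ℕ} [Fintype {I : Fin (n + 1) →₀ ℕ // I.degree = d}]
    {F : MvPolynomial (Fin (n + 1)) R} (hF : F.IsHomogeneous d) :
    F = ∑ I : {I : Fin (n + 1) →₀ ℕ // I.degree = d}, monomial I.1 (F.coeff I.1) := by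
  classical
  ext u
  rw [coeff_sum]
  simp only [coeff_monomial]
  by_cases hu : u.degree = d
  · rw [Finset.sum_eq_single ⟨u, hu⟩]
    · rw [if_pos rfl]
    · intro I _ hI
      rw [if_neg]
      intro h
      exact hI (Subtype.ext h)
    · intro h; exact absurd (Finset.mem_univ _) h
  · rw [Finset.sum_eq_zero]
    · by_contra hne
      exact hu (deg_of_mem hF (mem_support_iff.2 hne))
    · intro I _
      rw [if_neg]
      intro h
      exact hu (by rw [← h]; exact I.2)

/-- The parametrisation. -/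
noncomputable def pe {E : Type} [Field E] {n : ℕ} (e : Fin (n + 1) → Fin 3 → E) (l : Fin (n + 1)) :
    Polynomial E :=
  Polynomial.C (e l 0) * Polynomial.X ^ 2 + Polynomial.C (e l 1) * Polynomial.X +
    Polynomial.C (e l 2)

theorem conic_span {E : Type} [Field E] {n : ℕ} {e : Fin (n + 1) → Fin 3 → E}
    (he : ∀ c : Fin 3 → E, (∀ l, ∑ i, e l i * c i = 0) → c = 0) (d : ℕ) :
    Submodule.span E (Set.range fun (I : {I : Fin (n + 1) →₀ ℕ // I.degree = d})
      (j : Fin (2 * d + 1)) => (∏ l, pe e l ^ I.1 l).coeff j) = ⊤ := by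
  classical
  have hfd := finite_deg n d
  have : Fintype {I : Fin (n + 1) →₀ ℕ // I.degree = d} := Fintype.ofFinite _
  -- the left inverse
  obtain ⟨f, hf⟩ : ∃ f : (Fin 3 → E) →ₗ[E] (Fin (n + 1) → E), ∀ c l, f c l = ∑ i, e l i * c i :=
    ⟨LinearMap.pi fun l => ∑ i, e l i • LinearMap.proj i, fun c l => by
      rw [LinearMap.pi_apply, LinearMap.sum_apply]
      rfl⟩
  have hinj : LinearMap.ker f = ⊥ := by
    rw [Submodule.eq_bot_iff]
    intro c hc
    rw [LinearMap.mem_ker] at hc
    exact he c fun l => by rw [← hf, hc]; rfl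
  obtain ⟨g, hg⟩ := f.exists_leftInverse_of_injective hinj
  obtain ⟨B, hB⟩ : ∃ B : Fin 3 → Fin (n + 1) → E, ∀ i l, B i l = g (Pi.single l 1) i :=
    ⟨fun i l => g (Pi.single l 1) i, fun _ _ => rfl⟩
  have hBe : ∀ i j, ∑ l, B i l * e l j = if i = j then 1 else 0 := by
    intro i j
    have h1 := LinearMap.congr_fun hg (Pi.single j 1)
    rw [LinearMap.comp_apply, LinearMap.id_apply] at h1
    have h2 : f (Pi.single j 1) = ∑ l, e l j • (Pi.single l 1 : Fin (n + 1) → E) := by
      funext l'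
      rw [hf, Finset.sum_apply, Finset.sum_eq_single j, Finset.sum_eq_single l']
      · rw [Pi.single_eq_same, Pi.smul_apply, Pi.single_eq_same, smul_eq_mul]
      · intro l _ hl
        rw [Pi.smul_apply, Pi.single_eq_of_ne hl.symm, smul_zero]
      · intro h; exact absurd (Finset.mem_univ _) h
      · intro i _ hi
        rw [Pi.single_eq_of_ne hi, mul_zero]
      · intro h; exact absurd (Finset.mem_univ _) h
    rw [h2, map_sum] at h1
    have h3 := congrFun h1 i
    rw [Finset.sum_apply] at h3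
    have h4 : ∀ l, g (e l j • (Pi.single l 1 : Fin (n + 1) → E)) i = B i l * e l j := by
      intro l
      rw [map_smul, Pi.smul_apply, smul_eq_mul, hB, mul_comm]
    rw [Finset.sum_congr rfl fun l _ => h4 l] at h3
    rw [h3, Pi.single_apply]
  obtain ⟨Φ, hΦ⟩ : ∃ Φ : MvPolynomial (Fin (n + 1)) E →ₐ[E] Polynomial E, Φ = aeval (pe e) :=
    ⟨_, rfl⟩
  obtain ⟨ℓ, hℓ⟩ : ∃ ℓ : Fin 3 → MvPolynomial (Fin (n + 1)) E, ∀ i, ℓ i = ∑ l, B i l • X l :=
    ⟨_, fun _ => rfl⟩
  have hℓhom : ∀ i, (ℓ i).IsHomogeneous 1 := by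
    intro i
    rw [hℓ]
    refine IsHomogeneous.sum _ _ _ fun l _ => ?_
    rw [smul_eq_C_mul]
    have := (isHomogeneous_C (Fin (n + 1)) (B i l)).mul (isHomogeneous_X E l)
    rwa [zero_add] at this
  have hΦℓ : ∀ i, Φ (ℓ i) = Polynomial.C (if i = 0 then 1 else 0) * Polynomial.X ^ 2 +
      Polynomial.C (if i = 1 then 1 else 0) * Polynomial.X +
      Polynomial.C (if i = 2 then 1 else 0) := by
    intro i
    rw [hℓ, map_sum]
    have h1 : ∀ l, Φ (B i l • X l) = Polynomial.C (B i l * e l 0) * Polynomial.X ^ 2 +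
        Polynomial.C (B i l * e l 1) * Polynomial.X + Polynomial.C (B i l * e l 2) := by
      intro l
      rw [map_smul, hΦ, aeval_X, pe, Polynomial.smul_eq_C_mul, Polynomial.C_mul, Polynomial.C_mul,
        Polynomial.C_mul]
      ring
    rw [Finset.sum_congr rfl fun l _ => h1 l, Finset.sum_add_distrib, Finset.sum_add_distrib,
      ← Finset.sum_mul, ← Finset.sum_mul, ← map_sum, ← map_sum, ← map_sum, hBe, hBe, hBe]
  have h0 : Φ (ℓ 0) = Polynomial.X ^ 2 := by
    rw [hΦℓ, if_pos rfl, if_neg (by decide), if_neg (by decide)]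
    simp
  have h1 : Φ (ℓ 1) = Polynomial.X := by
    rw [hΦℓ, if_pos rfl, if_neg (by decide), if_neg (by decide)]
    simp
  have h2 : Φ (ℓ 2) = 1 := by
    rw [hΦℓ, if_pos rfl, if_neg (by decide), if_neg (by decide)]
    simp
  -- the unit vectors
  have hunit : ∀ j : Fin (2 * d + 1), (Pi.single j 1 : Fin (2 * d + 1) → E) ∈
      Submodule.span E (Set.range fun (I : {I : Fin (n + 1) →₀ ℕ // I.degree = d})
      (j : Fin (2 * d + 1)) => (∏ l, pe e l ^ I.1 l).coeff j) := by
    intro j
    obtain ⟨a, ha⟩ : ∃ a, a = (j : ℕ) / 2 := ⟨_, rfl⟩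
    obtain ⟨b, hb⟩ : ∃ b, b = (j : ℕ) % 2 := ⟨_, rfl⟩
    have hab : 2 * a + b = j := by rw [ha, hb]; exact Nat.div_add_mod _ _
    have hj := j.2
    have habd : a + b ≤ d := by omega
    obtain ⟨G, hG⟩ : ∃ G, G = ℓ 0 ^ a * ℓ 1 ^ b * ℓ 2 ^ (d - (a + b)) := ⟨_, rfl⟩
    have hGhom : G.IsHomogeneous d := by
      rw [hG]
      have h3 := (((hℓhom 0).pow a).mul ((hℓhom 1).pow b)).mul ((hℓhom 2).pow (d - (a + b)))
      have h4 : 1 * a + 1 * b + 1 * (d - (a + b)) = d := by omega
      rwa [h4] at h3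
    have hΦG : Φ G = Polynomial.X ^ (j : ℕ) := by
      rw [hG, map_mul, map_mul, map_pow, map_pow, map_pow, h0, h1, h2, one_pow, mul_one,
        ← pow_mul, ← pow_add, hab]
    rw [sum_all hGhom, map_sum] at hΦG
    have h3 : (Pi.single j 1 : Fin (2 * d + 1) → E) =
        ∑ I : {I : Fin (n + 1) →₀ ℕ // I.degree = d}, G.coeff I.1 •
          fun j : Fin (2 * d + 1) => (∏ l, pe e l ^ I.1 l).coeff j := by
      funext m
      have h4 := congrArg (fun p => Polynomial.coeff p (m : ℕ)) hΦG
      rw [Polynomial.finsetSum_coeff, Polynomial.coeff_X_pow] at h4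
      rw [Finset.sum_apply, Pi.single_apply]
      have h5 : (if m = j then (1 : E) else 0) = if (m : ℕ) = j then 1 else 0 := by
        simp only [Fin.ext_iff]
      rw [h5, ← h4]
      refine Finset.sum_congr rfl fun I _ => ?_
      rw [hΦ, aeval_monomial, Polynomial.algebraMap_eq, Polynomial.coeff_C_mul, Pi.smul_apply,
        smul_eq_mul, Finsupp.prod_fintype _ _ (fun i => pow_zero _)]
    rw [h3]
    exact sum_mem fun I _ => Submodule.smul_mem _ _ (Submodule.subset_span ⟨I, rfl⟩)
  rw [eq_top_iff]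
  intro v _
  have h3 : v = ∑ m, v m • (Pi.single m 1 : Fin (2 * d + 1) → E) := by
    funext m'
    rw [Finset.sum_apply, Finset.sum_eq_single m']
    · rw [Pi.smul_apply, Pi.single_eq_same, smul_eq_mul, mul_one]
    · intro j _ hj
      rw [Pi.smul_apply, Pi.single_eq_of_ne hj.symm, smul_zero]
    · intro h; exact absurd (Finset.mem_univ m') h
  rw [h3]
  exact sum_mem fun m _ => Submodule.smul_mem _ _ (hunit m)

/-- A generic hypersurface contains no conics. -/
theorem no_conics {k0 k : Type} [Field k0] [Field k] [Algebra k0 k] [CharZero k] {n d : ℕ}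
    (hnd : 3 * n < 2 * d) {F : MvPolynomial (Fin (n + 1)) k} (hF : F.IsHomogeneous d)
    (hind : AlgebraicIndependent k0 fun I : {I : Fin (n + 1) →₀ ℕ // I.degree = d} =>
      F.coeff I.1) {ψ : Fin (n + 1) → Fin 3 → k}
    (hψ : ∀ c : Fin 3 → k, (∀ l, ∑ i, ψ l i * c i = 0) → c = 0) :
    ¬ ∀ v : k, eval (fun l => ψ l 0 * v ^ 2 + ψ l 1 * v + ψ l 2) F = 0 := by
  classical
  intro hz
  have hfd := finite_deg n d
  have : Fintype {I : Fin (n + 1) →₀ ℕ // I.degree = d} := Fintype.ofFinite _
  obtain ⟨a, ha⟩ : ∃ a, ψ a 0 ≠ 0 := by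
    by_contra hcon
    push Not at hcon
    have h1 := hψ ![1, 0, 0] fun l => by
      rw [Fin.sum_univ_three]
      change ψ l 0 * 1 + ψ l 1 * 0 + ψ l 2 * 0 = 0
      rw [hcon]
      ring
    exact one_ne_zero (congrFun h1 0)
  obtain ⟨κ, hκ⟩ : ∃ κ, κ = (ψ a 0)⁻¹ := ⟨_, rfl⟩
  have hκ0 : κ ≠ 0 := by rw [hκ]; exact inv_ne_zero ha
  obtain ⟨β, hβ⟩ : ∃ β, β = κ * ψ a 1 / 2 := ⟨_, rfl⟩
  obtain ⟨e, he⟩ : ∃ e : Fin (n + 1) → Fin 3 → k, e = fun l => ![κ * ψ l 0,
    κ * ψ l 1 - 2 * β * (κ * ψ l 0), κ * ψ l 2 - β * (κ * ψ l 1) + β ^ 2 * (κ * ψ l 0)] :=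
    ⟨_, rfl⟩
  have he0 : ∀ l, e l 0 = κ * ψ l 0 := fun l => by rw [he]; rfl
  have he1 : ∀ l, e l 1 = κ * ψ l 1 - 2 * β * (κ * ψ l 0) := fun l => by rw [he]; rfl
  have he2 : ∀ l, e l 2 = κ * ψ l 2 - β * (κ * ψ l 1) + β ^ 2 * (κ * ψ l 0) := fun l => by
    rw [he]; rfl
  have hea0 : e a 0 = 1 := by rw [he0, hκ, inv_mul_cancel₀ ha]
  have hea1 : e a 1 = 0 := by
    rw [he1, ← he0 a, hea0, hβ]
    ring
  have hze : ∀ v : k, eval (fun l => e l 0 * v ^ 2 + e l 1 * v + e l 2) F = 0 := by
    intro v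
    have h1 : (fun l => e l 0 * v ^ 2 + e l 1 * v + e l 2) =
        κ • fun l => ψ l 0 * (v - β) ^ 2 + ψ l 1 * (v - β) + ψ l 2 := by
      funext l
      rw [he0, he1, he2, Pi.smul_apply, smul_eq_mul]
      ring
    rw [h1, eval_smul_hom hF, hz, mul_zero]
  have hei : ∀ c : Fin 3 → k, (∀ l, ∑ i, e l i * c i = 0) → c = 0 := by
    intro c hc
    have h1 := hψ ![c 0 - 2 * β * c 1 + β ^ 2 * c 2, c 1 - β * c 2, c 2] fun l => by
      rw [Fin.sum_univ_three]
      change ψ l 0 * (c 0 - 2 * β * c 1 + β ^ 2 * c 2) + ψ l 1 * (c 1 - β * c 2) + ψ l 2 * c 2 = 0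
      have h2 := hc l
      rw [Fin.sum_univ_three, he0, he1, he2] at h2
      have h3 : κ * (ψ l 0 * (c 0 - 2 * β * c 1 + β ^ 2 * c 2) + ψ l 1 * (c 1 - β * c 2) +
        ψ l 2 * c 2) = 0 := by
        rw [← h2]
        ring
      exact (mul_eq_zero.1 h3).resolve_left hκ0
    have e0 : c 0 - 2 * β * c 1 + β ^ 2 * c 2 = 0 := congrFun h1 0
    have e1 : c 1 - β * c 2 = 0 := congrFun h1 1
    have e2 : c 2 = 0 := congrFun h1 2
    rw [e2, mul_zero, sub_zero] at e1
    rw [e2, e1, mul_zero, mul_zero, sub_zero, add_zero] at e0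
    funext i
    fin_cases i
    · exact e0
    · exact e1
    · exact e2
  -- the field of definition
  obtain ⟨Se, hSe⟩ : ∃ Se : Finset k, Se = (((Finset.univ : Finset (Fin (n + 1) × Fin 3)).erase
    (a, 0)).erase (a, 1)).image fun li => e li.1 li.2 := ⟨_, rfl⟩
  have hSecard : Se.card + 2 ≤ 3 * (n + 1) := by
    have h1 : (((Finset.univ : Finset (Fin (n + 1) × Fin 3)).erase (a, 0)).erase (a, 1)).card + 2 =
        3 * (n + 1) := by
      rw [Finset.card_erase_of_mem (Finset.mem_erase.2 ⟨by simp, Finset.mem_univ _⟩),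
        Finset.card_erase_of_mem (Finset.mem_univ _), Finset.card_univ, Fintype.card_prod,
        Fintype.card_fin, Fintype.card_fin]
      omega
    rw [← h1, hSe]
    exact add_le_add_left Finset.card_image_le 2
  have heS : ∀ (L : Subfield k), (∀ s ∈ Se, s ∈ L) → ∀ l i, e l i ∈ L := by
    intro L hL l i
    by_cases h1 : (l, i) = (a, 0)
    · obtain ⟨rfl, rfl⟩ := Prod.mk_inj.1 h1
      rw [hea0]
      exact one_mem _
    · by_cases h2 : (l, i) = (a, 1)
      · obtain ⟨rfl, rfl⟩ := Prod.mk_inj.1 h2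
        rw [hea1]
        exact zero_mem _
      · apply hL
        rw [hSe]
        exact Finset.mem_image.2 ⟨(l, i), Finset.mem_erase.2 ⟨h2, Finset.mem_erase.2
          ⟨h1, Finset.mem_univ _⟩⟩, rfl⟩
  obtain ⟨E, hE⟩ : ∃ E, E = IntermediateField.adjoin k0 (Se : Set k) := ⟨_, rfl⟩
  have heE : ∀ l i, e l i ∈ E := heS E.toSubfield fun s hs => by
    rw [hE]
    exact IntermediateField.subset_adjoin _ _ hs
  obtain ⟨e', he'⟩ : ∃ e' : Fin (n + 1) → Fin 3 → E, ∀ l i, (e' l i : k) = e l i :=
    ⟨fun l i => ⟨e l i, heE l i⟩, fun _ _ => rfl⟩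
  have he'i : ∀ c : Fin 3 → E, (∀ l, ∑ i, e' l i * c i = 0) → c = 0 := by
    intro c hc
    have h1 := hei (fun i => (c i : k)) fun l => by
      have h2 := congrArg (fun z : E => (z : k)) (hc l)
      rw [Fin.sum_univ_three] at h2 ⊢
      rw [← he', ← he', ← he']
      exact h2
    funext i
    exact Subtype.ext (congrFun h1 i)
  obtain ⟨T, hT, hTL⟩ := exists_small _ (conic_span he'i d)
    (fun I : {I : Fin (n + 1) →₀ ℕ // I.degree = d} => F.coeff I.1) (by
      intro m
      have h1 : aeval (pe e) F = 0 := by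
        apply Polynomial.funext
        intro v
        rw [Polynomial.eval_zero, ← hze v]
        have h2 : (Polynomial.evalRingHom v).comp
            ((aeval (pe e) : MvPolynomial (Fin (n + 1)) k →ₐ[k] Polynomial k) :
              MvPolynomial (Fin (n + 1)) k →+* Polynomial k) =
            eval (fun l => e l 0 * v ^ 2 + e l 1 * v + e l 2) := by
          apply MvPolynomial.ringHom_ext
          · intro c
            simp
          · intro l
            simp [pe]
        exact DFunLike.congr_fun h2 F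
      have h3 := congrArg (fun p => Polynomial.coeff p (m : ℕ)) h1
      rw [sum_all hF, map_sum, Polynomial.finsetSum_coeff, Polynomial.coeff_zero] at h3
      rw [← h3]
      refine Finset.sum_congr rfl fun I _ => ?_
      rw [aeval_monomial, Polynomial.algebraMap_eq, Polynomial.coeff_C_mul,
        Finsupp.prod_fintype _ _ (fun i => pow_zero _)]
      have h4 : ∏ l, pe e l ^ I.1 l = (∏ l, pe e' l ^ I.1 l).map (algebraMap E k) := by
        rw [Polynomial.map_prod]
        refine Finset.prod_congr rfl fun l _ => ?_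
        rw [Polynomial.map_pow]
        congr 1
        unfold pe
        rw [Polynomial.map_add, Polynomial.map_add, Polynomial.map_mul, Polynomial.map_mul,
          Polynomial.map_pow, Polynomial.map_X, Polynomial.map_C, Polynomial.map_C,
          Polynomial.map_C, ← he', ← he', ← he']
        rfl
      rw [h4, Polynomial.coeff_map])
  obtain ⟨S, hS⟩ : ∃ S : Finset k, S = Se ∪ T.image fun I => F.coeff I.1 := ⟨_, rfl⟩
  have hcard := card_le_adjoin hind S (by
    refine hTL (IntermediateField.adjoin k0 (S : Set k)).toSubfield (fun z => ?_) fun j hj => ?_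
    · have h1 : E ≤ IntermediateField.adjoin k0 (S : Set k) := by
        rw [hE]
        apply IntermediateField.adjoin.mono
        rw [hS]
        exact_mod_cast Finset.subset_union_left
      exact h1 z.2
    · refine IntermediateField.subset_adjoin _ _ ?_
      rw [hS]
      exact_mod_cast Finset.mem_union_right _ (Finset.mem_image_of_mem _ hj))
  rw [Nat.card_eq_fintype_card] at hcard
  have h1 : S.card ≤ Se.card + T.card := by
    rw [hS]
    exact (Finset.card_union_le _ _).trans (add_le_add_right Finset.card_image_le _)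
  omega

end Pool.Agent.Y735.S
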