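import Pool.Agent.Y735.S.Lin
import Pool.Agent.Y735.Dich

/-!
The irreducible case.
-/

set_option autoImplicit false

open MvPolynomial

namespace Pool.Agent.Y735.S

variable {k K : Type} [Field k] [Field K] [Algebra k K]

/-- Vectors over the smaller field. -/
def up {n : ℕ} (K : Type) {k : Type} [Field k] [Field K] [Algebra k K] (a : Fin (n + 1) → k) :
    Fin (n + 1) → K := fun l => algebraMap k K (a l)

theorem up_add {n : ℕ} (a b : Fin (n + 1) → k) : up K (a + b) = up K a + up K b :=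
  funext fun _ => map_add _ _ _

theorem up_smul {n : ℕ} (c : k) (a : Fin (n + 1) → k) :
    up K (c • a) = algebraMap k K c • up K a := funext fun _ => map_mul _ _ _

theorem up_zero {n : ℕ} : up K (0 : Fin (n + 1) → k) = 0 := funext fun _ => map_zero _

theorem up_ne {n : ℕ} {a : Fin (n + 1) → k} (h : a ≠ 0) : up K a ≠ 0 := by
  intro h0
  apply h
  funext l
  have h1 : algebraMap k K (a l) = 0 := congrFun h0 l
  exact (algebraMap k K).injective (by rw [h1, Pi.zero_apply, map_zero])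

/-- Functionals that vanish at the forms with constant coefficients. -/
theorem zero_of_CS {n e : ℕ} (ρ : MvPolynomial (Fin (n + 1)) K →ₗ[K] K)
    (h : ∀ Q ∈ CS k K n e, ρ Q = 0) {Q : MvPolynomial (Fin (n + 1)) K} (hQ : Q.IsHomogeneous e) :
    ρ Q = 0 := by
  rw [Q.as_sum, map_sum]
  refine Finset.sum_eq_zero fun u hu => ?_
  have h1 : (monomial u (Q.coeff u) : MvPolynomial (Fin (n + 1)) K) =
      Q.coeff u • monomial u 1 := by
    rw [smul_monomial, smul_eq_mul, mul_one]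
  rw [h1, map_smul, h _ (monomial_mem_CS (Pool.Agent.TH145.GH.deg_of_mem hQ hu)), smul_zero]

/-- Products of forms with constant coefficients. -/
theorem CS_mul_X {n e : ℕ} {T : MvPolynomial (Fin (n + 1)) K} (hT : T ∈ CS k K n e)
    (a : Fin (n + 1)) : T * X a ∈ CS k K n (e + 1) := by
  classical
  refine ⟨hT.1.mul (isHomogeneous_X K a), fun u => ?_⟩
  rw [coeff_mul_X']
  split_ifs
  · exact hT.2 _
  · exact ⟨0, (map_zero _).symm⟩

/-- The linear system. -/
structure Sys (k : Type) {K : Type} [Field k] [Field K] [Algebra k K] (x : Fin (2 + 1) → K)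
    (g : Fin 2 → MvPolynomial (Fin (2 + 1)) K →ₗ[K] K) (m : Fin 2 → Fin (2 + 1) → K) : Prop where
  x_ne : x ≠ 0
  perp : ∀ j, ∑ l, m j l * x l = 0
  indep : ∀ a b : K, (∀ l, a * m 0 l + b * m 1 l = 0) → a = 0 ∧ b = 0
  const : ∀ Q ∈ CS k K 2 4, ∀ i j, In k (g i (Q * lf (m j)))
  irr : ∀ c φ : Fin 2 → K, c ≠ 0 → φ ≠ 0 →
    ∃ Q ∈ CS k K 2 4, ∑ i, φ i * (c 0 * g i (Q * lf (m 0)) + c 1 * g i (Q * lf (m 1))) ≠ 0
  pts : ∀ p : Fin (2 + 1) → k, p ≠ 0 → ∃ P ∈ CS k K 2 4, eval (up K p) P ≠ 0 ∧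
    ∀ i j, g i (P * lf (m j)) = 0
  free : ∃ P : MvPolynomial (Fin (2 + 1)) K, P.IsHomogeneous 4 ∧ eval x P = 0 ∧
    (∀ i j, g i (P * lf (m j)) = 0) ∧ ∃ (μ : Fin (2 + 1) → K) (i : Fin 2), g i (P * lf μ) ≠ 0

/-- The point is given by quadratic forms in two parameters. -/
def Quad (k : Type) {K : Type} [Field k] [Field K] [Algebra k K] {n : ℕ} (x : Fin n → K) : Prop :=
  ∃ (s t c : K) (ψ : Fin n → Fin 3 → k), ∀ l, x l = c * (algebraMap k K (ψ l 0) * s ^ 2 +
    algebraMap k K (ψ l 1) * (s * t) + algebraMap k K (ψ l 2) * t ^ 2)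

/-- The point lies on a line over the smaller field. -/
def OnLn (k : Type) {K : Type} [Field k] [Field K] [Algebra k K] {n : ℕ} (x : Fin n → K) : Prop :=
  ∃ ν : Fin n → k, ν ≠ 0 ∧ ∑ l, algebraMap k K (ν l) * x l = 0

/-- The solutions. -/
def Sol (g : Fin 2 → MvPolynomial (Fin (2 + 1)) K →ₗ[K] K) (m : Fin 2 → Fin (2 + 1) → K) :
    Submodule k ((Fin (2 + 1) → k) × (Fin (2 + 1) → k)) where
  carrier := {s | ∀ T ∈ CS k K 2 3, ∀ i,
    g i (T * lf (up K s.1) * lf (m 1)) = g i (T * lf (up K s.2) * lf (m 0))}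
  add_mem' := by
    intro s s' hs hs' T hT i
    have h1 := hs T hT i
    have h2 := hs' T hT i
    rw [Prod.fst_add, Prod.snd_add, up_add, up_add, map_add, map_add, mul_add, mul_add, add_mul,
      add_mul, map_add, map_add, h1, h2]
  zero_mem' := by
    intro T hT i
    rw [Prod.fst_zero, Prod.snd_zero, up_zero, map_zero, mul_zero, zero_mul, zero_mul]
  smul_mem' := by
    intro c s hs T hT i
    have h1 := hs T hT i
    rw [Prod.smul_fst, Prod.smul_snd, up_smul, up_smul, map_smul, map_smul, mul_smul_comm,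
      mul_smul_comm, smul_mul_assoc, smul_mul_assoc, map_smul, map_smul, h1]

theorem mem_Sol {g : Fin 2 → MvPolynomial (Fin (2 + 1)) K →ₗ[K] K} {m : Fin 2 → Fin (2 + 1) → K}
    {s : (Fin (2 + 1) → k) × (Fin (2 + 1) → k)} : s ∈ Sol g m ↔ ∀ T ∈ CS k K 2 3, ∀ i,
      g i (T * lf (up K s.1) * lf (m 1)) = g i (T * lf (up K s.2) * lf (m 0)) := Iff.rfl

/-- The values of a functional with constant coefficients. -/
theorem dual_val {g : MvPolynomial (Fin (2 + 1)) K →ₗ[K] K} {T : MvPolynomial (Fin (2 + 1)) K}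
    {m m' : Fin (2 + 1) → K} (h : ∀ l, In k (g (T * X l * lf m'))) (ξ : K →ₗ[k] k) :
    g (T * lf (up K fun l => ξ (m l)) * lf m') = algebraMap k K (ξ (g (T * lf m * lf m'))) := by
  have h1 : ∀ v : Fin (2 + 1) → K, g (T * lf v * lf m') = ∑ l, v l * g (T * X l * lf m') := by
    intro v
    rw [lf_apply, Finset.mul_sum, Finset.sum_mul, map_sum]
    refine Finset.sum_congr rfl fun l _ => ?_
    rw [mul_smul_comm, smul_mul_assoc, map_smul, smul_eq_mul]
  rw [h1, h1, map_sum, map_sum]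
  refine Finset.sum_congr rfl fun l _ => ?_
  obtain ⟨c, hc⟩ := h l
  rw [← hc]
  change algebraMap k K (ξ (m l)) * algebraMap k K c = _
  have h2 : m l * algebraMap k K c = c • m l := by rw [Algebra.smul_def, mul_comm]
  rw [h2, map_smul, smul_eq_mul, map_mul, mul_comm]

theorem dual_mem {x : Fin (2 + 1) → K} {g : Fin 2 → MvPolynomial (Fin (2 + 1)) K →ₗ[K] K}
    {m : Fin 2 → Fin (2 + 1) → K} (h : Sys k x g m) (ξ : K →ₗ[k] k) :
    (fun l => ξ (m 0 l), fun l => ξ (m 1 l)) ∈ Sol (k := k) g m := by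
  intro T hT i
  have h1 := dual_val (k := k) (g := g i) (T := T) (m := m 0) (m' := m 1)
    (fun l => h.const _ (CS_mul_X hT l) i 1) ξ
  have h2 := dual_val (k := k) (g := g i) (T := T) (m := m 1) (m' := m 0)
    (fun l => h.const _ (CS_mul_X hT l) i 0) ξ
  dsimp only
  rw [h1, h2, mul_assoc T, mul_assoc T, mul_comm (lf (m 0))]

/-- The dimension of the space of the solutions. -/
theorem finrank_Sol {x : Fin (2 + 1) → K} {g : Fin 2 → MvPolynomial (Fin (2 + 1)) K →ₗ[K] K}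
    {m : Fin 2 → Fin (2 + 1) → K} (h : Sys k x g m) (V : Submodule k K) [FiniteDimensional k V]
    (hV : V = Submodule.span k (Set.range (m 0) ∪ Set.range (m 1))) :
    Module.finrank k V ≤ Module.finrank k (Sol (k := k) g m) := by
  classical
  have hm : ∀ j l, m j l ∈ V := by
    intro j l
    rw [hV]
    apply Submodule.subset_span
    fin_cases j
    · exact Or.inl ⟨l, rfl⟩
    · exact Or.inr ⟨l, rfl⟩
  obtain ⟨f, hf⟩ : ∃ f : Module.Dual k V →ₗ[k] ((Fin (2 + 1) → k) × (Fin (2 + 1) → k)),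
      ∀ ξ, f ξ = (fun l => ξ ⟨m 0 l, hm 0 l⟩, fun l => ξ ⟨m 1 l, hm 1 l⟩) :=
    ⟨{ toFun := fun ξ => (fun l => ξ ⟨m 0 l, hm 0 l⟩, fun l => ξ ⟨m 1 l, hm 1 l⟩)
       map_add' := fun _ _ => rfl
       map_smul' := fun _ _ => rfl }, fun _ => rfl⟩
  have hmem : ∀ ξ, f ξ ∈ Sol (k := k) g m := by
    intro ξ
    obtain ⟨ξ', hξ'⟩ := LinearMap.exists_extend ξ
    have h1 := dual_mem h ξ'
    rw [hf]
    have h2 : ∀ j l, ξ' (m j l) = ξ ⟨m j l, hm j l⟩ := fun j l =>
      LinearMap.congr_fun hξ' ⟨m j l, hm j l⟩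
    simp only [h2] at h1
    exact h1
  have hinj : Function.Injective (f.codRestrict (Sol (k := k) g m) hmem) := by
    rw [← LinearMap.ker_eq_bot, Submodule.eq_bot_iff]
    intro ξ hξ
    rw [LinearMap.ker_codRestrict, LinearMap.mem_ker, hf] at hξ
    have h0 : ∀ j l, ξ ⟨m j l, hm j l⟩ = 0 := by
      intro j l
      fin_cases j
      · exact congrFun (congrArg Prod.fst hξ) l
      · exact congrFun (congrArg Prod.snd hξ) l
    have h1 : V ≤ (LinearMap.ker ξ).map V.subtype := by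
      conv_lhs => rw [hV]
      rw [Submodule.span_le]
      rintro _ (⟨l, rfl⟩ | ⟨l, rfl⟩)
      · exact ⟨⟨m 0 l, hm 0 l⟩, h0 0 l, rfl⟩
      · exact ⟨⟨m 1 l, hm 1 l⟩, h0 1 l, rfl⟩
    refine LinearMap.ext fun v => ?_
    obtain ⟨w, hw, hwv⟩ := h1 v.2
    have h2 : w = v := Subtype.ext hwv
    rw [← h2]
    exact hw
  have h1 := LinearMap.finrank_le_finrank_of_injective hinj
  rwa [Subspace.dual_finrank_eq] at h1

/-- The case of two parameters. -/
theorem quad_of_finrank {x : Fin (2 + 1) → K} {m : Fin 2 → Fin (2 + 1) → K} (V : Submodule k K)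
    [FiniteDimensional k V] (hm : ∀ j l, m j l ∈ V) (hV : Module.finrank k V ≤ 2)
    (hx : ∃ c : K, x 0 = c * (m 0 1 * m 1 2 - m 0 2 * m 1 1) ∧
      x 1 = c * (m 0 2 * m 1 0 - m 0 0 * m 1 2) ∧
      x 2 = c * (m 0 0 * m 1 1 - m 0 1 * m 1 0)) : Quad k x := by
  classical
  obtain ⟨c, h0, h1, h2⟩ := hx
  -- two generators
  obtain ⟨s, t, hst⟩ : ∃ s t : K, ∀ v ∈ V, ∃ a b : k,
      v = algebraMap k K a * s + algebraMap k K b * t := by
    obtain ⟨r, hr⟩ : ∃ r, r = Module.finrank k V := ⟨_, rfl⟩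
    let bs := Module.finBasisOfFinrankEq k V hr.symm
    have hr2 : r ≤ 2 := by omega
    interval_cases r
    · refine ⟨0, 0, fun v hv => ⟨0, 0, ?_⟩⟩
      have := bs.sum_repr ⟨v, hv⟩
      rw [Fin.sum_univ_zero] at this
      have h3 : (0 : K) = v := congrArg Subtype.val this
      rw [← h3, map_zero, zero_mul, add_zero]
    · refine ⟨bs 0, 0, fun v hv => ⟨bs.repr ⟨v, hv⟩ 0, 0, ?_⟩⟩
      have := bs.sum_repr ⟨v, hv⟩
      rw [Fin.sum_univ_one] at this
      have h3 := congrArg Subtype.val this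
      rw [Submodule.coe_smul, Algebra.smul_def] at h3
      rw [h3]
      simp
    · refine ⟨bs 0, bs 1, fun v hv => ⟨bs.repr ⟨v, hv⟩ 0, bs.repr ⟨v, hv⟩ 1, ?_⟩⟩
      have := bs.sum_repr ⟨v, hv⟩
      rw [Fin.sum_univ_two] at this
      have h3 := congrArg Subtype.val this
      rw [Submodule.coe_add, Submodule.coe_smul, Submodule.coe_smul, Algebra.smul_def,
        Algebra.smul_def] at h3
      rw [h3]
  choose a b hab using fun (j : Fin 2) (l : Fin (2 + 1)) => hst _ (hm j l)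
  refine ⟨s, t, c, ![
    ![a 0 1 * a 1 2 - a 0 2 * a 1 1,
      a 0 1 * b 1 2 + b 0 1 * a 1 2 - a 0 2 * b 1 1 - b 0 2 * a 1 1,
      b 0 1 * b 1 2 - b 0 2 * b 1 1],
    ![a 0 2 * a 1 0 - a 0 0 * a 1 2,
      a 0 2 * b 1 0 + b 0 2 * a 1 0 - a 0 0 * b 1 2 - b 0 0 * a 1 2,
      b 0 2 * b 1 0 - b 0 0 * b 1 2],
    ![a 0 0 * a 1 1 - a 0 1 * a 1 0,
      a 0 0 * b 1 1 + b 0 0 * a 1 1 - a 0 1 * b 1 0 - b 0 1 * a 1 0,
      b 0 0 * b 1 1 - b 0 1 * b 1 0]], fun l => ?_⟩
  fin_cases l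
  · change x 0 = c * (algebraMap k K (a 0 1 * a 1 2 - a 0 2 * a 1 1) * s ^ 2 +
      algebraMap k K (a 0 1 * b 1 2 + b 0 1 * a 1 2 - a 0 2 * b 1 1 - b 0 2 * a 1 1) * (s * t) +
      algebraMap k K (b 0 1 * b 1 2 - b 0 2 * b 1 1) * t ^ 2)
    rw [h0, hab 0 1, hab 1 2, hab 0 2, hab 1 1]
    simp only [map_sub, map_add, map_mul]
    ring
  · change x 1 = c * (algebraMap k K (a 0 2 * a 1 0 - a 0 0 * a 1 2) * s ^ 2 +
      algebraMap k K (a 0 2 * b 1 0 + b 0 2 * a 1 0 - a 0 0 * b 1 2 - b 0 0 * a 1 2) * (s * t) +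
      algebraMap k K (b 0 2 * b 1 0 - b 0 0 * b 1 2) * t ^ 2)
    rw [h1, hab 0 2, hab 1 0, hab 0 0, hab 1 2]
    simp only [map_sub, map_add, map_mul]
    ring
  · change x 2 = c * (algebraMap k K (a 0 0 * a 1 1 - a 0 1 * a 1 0) * s ^ 2 +
      algebraMap k K (a 0 0 * b 1 1 + b 0 0 * a 1 1 - a 0 1 * b 1 0 - b 0 1 * a 1 0) * (s * t) +
      algebraMap k K (b 0 0 * b 1 1 - b 0 1 * b 1 0) * t ^ 2)
    rw [h2, hab 0 0, hab 1 1, hab 0 1, hab 1 0]
    simp only [map_sub, map_add, map_mul]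
    ring

/-- The cross product. -/
theorem cross_eq {x : Fin (2 + 1) → K} {m : Fin 2 → Fin (2 + 1) → K}
    (perp : ∀ j, ∑ l, m j l * x l = 0)
    (indep : ∀ a b : K, (∀ l, a * m 0 l + b * m 1 l = 0) → a = 0 ∧ b = 0) :
    ∃ c : K, x 0 = c * (m 0 1 * m 1 2 - m 0 2 * m 1 1) ∧
      x 1 = c * (m 0 2 * m 1 0 - m 0 0 * m 1 2) ∧
      x 2 = c * (m 0 0 * m 1 1 - m 0 1 * m 1 0) := by
  have p0 := perp 0
  have p1 := perp 1
  rw [Fin.sum_univ_three] at p0 p1
  obtain ⟨y0, hy0⟩ : ∃ y, y = m 0 1 * m 1 2 - m 0 2 * m 1 1 := ⟨_, rfl⟩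
  obtain ⟨y1, hy1⟩ : ∃ y, y = m 0 2 * m 1 0 - m 0 0 * m 1 2 := ⟨_, rfl⟩
  obtain ⟨y2, hy2⟩ : ∃ y, y = m 0 0 * m 1 1 - m 0 1 * m 1 0 := ⟨_, rfl⟩
  rw [← hy0, ← hy1, ← hy2]
  -- the cross product of `x` and `y` vanishes
  have e01 : x 0 * y1 = x 1 * y0 := by
    rw [hy0, hy1]
    linear_combination -(m 1 2) * p0 + (m 0 2) * p1
  have e02 : x 0 * y2 = x 2 * y0 := by
    rw [hy0, hy2]
    linear_combination (m 1 1) * p0 - (m 0 1) * p1
  have e12 : x 1 * y2 = x 2 * y1 := by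
    rw [hy1, hy2]
    linear_combination -(m 1 0) * p0 + (m 0 0) * p1
  have hy : y0 ≠ 0 ∨ y1 ≠ 0 ∨ y2 ≠ 0 := by
    by_contra hcon
    push Not at hcon
    obtain ⟨z0, z1, z2⟩ := hcon
    rw [hy0] at z0
    rw [hy1] at z1
    rw [hy2] at z2
    -- proportional
    have h10 : ∀ l, m 0 l = 0 := by
      intro l
      by_contra hl
      have h3 := indep (m 1 l) (-(m 0 l)) (fun l' => by
        have : ∀ i j : Fin (2 + 1), m 1 i * m 0 j - m 0 i * m 1 j = 0 := by
          intro i j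
          fin_cases i <;> fin_cases j <;> dsimp only [Fin.zero_eta, Fin.mk_one, Fin.reduceFinMk] <;>
            first
            | ring1
            | linear_combination z0
            | linear_combination -z0
            | linear_combination z1
            | linear_combination -z1
            | linear_combination z2
            | linear_combination -z2
        have h4 := this l l'
        linear_combination h4)
      exact hl (neg_eq_zero.1 h3.2)
    have h4 := indep 1 0 (fun l => by rw [h10 l]; ring)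
    exact one_ne_zero h4.1
  have hdiv : ∀ {a b u v : K}, v ≠ 0 → a * v = u * b → a = u / v * b := by
    intro a b u v hv h
    rw [div_mul_eq_mul_div, eq_div_iff hv, h]
  rcases hy with h | h | h
  · exact ⟨x 0 / y0, hdiv h rfl, hdiv h (by linear_combination -e01),
      hdiv h (by linear_combination -e02)⟩
  · exact ⟨x 1 / y1, hdiv h (by linear_combination e01), hdiv h rfl,
      hdiv h (by linear_combination -e12)⟩
  · exact ⟨x 2 / y2, hdiv h (by linear_combination e02), hdiv h (by linear_combination e12),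
      hdiv h rfl⟩

end Pool.Agent.Y735.S
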