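import Pool.Agent.Y735.S.Irr

/-!
The irreducible case, continued.
-/

set_option autoImplicit false

open MvPolynomial

namespace Pool.Agent.Y735.S

variable {k K : Type} [Field k] [Field K] [Algebra k K]

theorem up_pm {n : ℕ} (p : Fin (n + 1) → k) (i j : Fin (n + 1)) :
    up K (pm p i j) = pm (up K p) i j := by
  funext l
  simp only [up, pm]
  split_ifs <;> simp

theorem CS_mul_lf {n e : ℕ} {T : MvPolynomial (Fin (n + 1)) K} (hT : T ∈ CS k K n e)
    (a : Fin (n + 1) → k) : T * lf (up K a) ∈ CS k K n (e + 1) := by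
  rw [lf_apply, Finset.mul_sum]
  refine sum_mem fun l _ => ?_
  have h1 := CS_mul_X hT l
  rw [mul_smul_comm]
  refine ⟨?_, fun u => ?_⟩
  · rw [smul_eq_C_mul]
    have := (isHomogeneous_C (Fin (n + 1)) (up K a l)).mul h1.1
    rwa [zero_add] at this
  · obtain ⟨c, hc⟩ := h1.2 u
    exact ⟨a l * c, by rw [coeff_smul, hc, smul_eq_mul, map_mul]; rfl⟩

/-- Functionals that vanish on the multiples of many linear forms. -/
theorem eval_of_N {n e : ℕ} {N : Submodule k (Fin (n + 1) → k)} {p : Fin (n + 1) → k}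
    (hpN : ∀ a : Fin (n + 1) → k, ∑ l, a l * p l = 0 → a ∈ N) {c : Fin (n + 1)} (hc : p c ≠ 0)
    (τ : MvPolynomial (Fin (n + 1)) K →ₗ[K] K)
    (hτ : ∀ b ∈ N, ∀ T ∈ CS k K n e, τ (T * lf (up K b)) = 0)
    {Q : MvPolynomial (Fin (n + 1)) K} (hQ : Q.IsHomogeneous (e + 1)) :
    up K p c ^ (e + 1) * τ Q = eval (up K p) Q * τ (X c ^ (e + 1)) := by
  refine fun_eval τ (up K p) (c := c) ?_ ?_ hQ
  · intro h0
    exact hc ((algebraMap k K).injective (by rw [map_zero]; exact h0))
  · intro a u hu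
    have h1 := hτ (pm p c a) (hpN _ (by
      have h2 := eval_pm p c a
      rw [eval_lf] at h2
      exact h2)) (monomial u 1) (monomial_mem_CS (by omega))
    rw [up_pm, lf_pm, mul_sub, mul_smul_comm, mul_smul_comm, map_sub, map_smul, map_smul,
      sub_eq_zero] at h1
    exact h1

theorem zero_of_N {g : Fin 2 → MvPolynomial (Fin (2 + 1)) K →ₗ[K] K}
    {m : Fin 2 → Fin (2 + 1) → K}
    (pts : ∀ p : Fin (2 + 1) → k, p ≠ 0 → ∃ P ∈ CS k K 2 4, eval (up K p) P ≠ 0 ∧
      ∀ i j, g i (P * lf (m j)) = 0) {N : Submodule k (Fin (2 + 1) → k)}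
    (hN : 2 ≤ Module.finrank k N) (τ : MvPolynomial (Fin (2 + 1)) K →ₗ[K] K)
    (hτ : ∀ b ∈ N, ∀ T ∈ CS k K 2 3, τ (T * lf (up K b)) = 0)
    (hP : ∀ P ∈ CS k K 2 4, (∀ i j, g i (P * lf (m j)) = 0) → τ P = 0)
    {Q : MvPolynomial (Fin (2 + 1)) K} (hQ : Q.IsHomogeneous 4) : τ Q = 0 := by
  obtain ⟨p, hp0, hpN⟩ := exists_pt N hN
  obtain ⟨c, hc⟩ := Function.ne_iff.1 hp0
  have hc' : p c ≠ 0 := hc
  obtain ⟨P, hPC, hPp, hPg⟩ := pts p hp0
  have h1 := eval_of_N hpN hc' τ hτ hPC.1
  rw [hP P hPC hPg, mul_zero] at h1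
  have h2 : τ (X c ^ (3 + 1)) = 0 := (mul_eq_zero.1 h1.symm).resolve_left hPp
  have h3 := eval_of_N hpN hc' τ hτ hQ
  rw [h2, mul_zero] at h3
  refine (mul_eq_zero.1 h3).resolve_left (pow_ne_zero _ ?_)
  intro h0
  exact hc' ((algebraMap k K).injective (by rw [map_zero]; exact h0))

/-- The functional `Q ↦ g (Q W)`. -/
noncomputable def mulR {n : ℕ} (g : MvPolynomial (Fin (n + 1)) K →ₗ[K] K)
    (W : MvPolynomial (Fin (n + 1)) K) : MvPolynomial (Fin (n + 1)) K →ₗ[K] K :=
  g ∘ₗ LinearMap.mulRight K W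

theorem mulR_apply {n : ℕ} (g : MvPolynomial (Fin (n + 1)) K →ₗ[K] K)
    (W Q : MvPolynomial (Fin (n + 1)) K) : mulR g W Q = g (Q * W) := rfl

/-- The main argument. -/
theorem irr_core [IsAlgClosed k] {x : Fin (2 + 1) → K}
    {g : Fin 2 → MvPolynomial (Fin (2 + 1)) K →ₗ[K] K} {m : Fin 2 → Fin (2 + 1) → K}
    (h : Sys k x g m) {μ : Fin (2 + 1) → k} (hμ : μ ≠ 0)
    (hstar : ∀ T ∈ CS k K 2 3, ∀ i, g i (T * lf (up K μ) * lf (m 1)) = 0) :
    Quad k x ∨ OnLn k x := by
  classical
  by_cases hμx : ∑ l, algebraMap k K (μ l) * x l = 0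
  · exact Or.inr ⟨μ, hμ, hμx⟩
  left
  -- the dimension of the space of solutions
  obtain ⟨V, hV⟩ : ∃ V, V = Submodule.span k (Set.range (m 0) ∪ Set.range (m 1)) := ⟨_, rfl⟩
  have hVf : FiniteDimensional k V := by
    rw [hV]
    exact FiniteDimensional.span_of_finite k ((Set.finite_range _).union (Set.finite_range _))
  have hmV : ∀ j l, m j l ∈ V := by
    intro j l
    rw [hV]
    apply Submodule.subset_span
    fin_cases j
    · exact Or.inl ⟨l, rfl⟩
    · exact Or.inr ⟨l, rfl⟩
  by_cases hV2 : Module.finrank k V ≤ 2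
  · exact quad_of_finrank V hmV hV2 (cross_eq h.perp h.indep)
  exfalso
  have hS3 : 3 ≤ Module.finrank k (Sol (k := k) g m) :=
    le_trans (by omega) (finrank_Sol h V hV)
  obtain ⟨S, hS⟩ : ∃ S, S = Sol (k := k) g m := ⟨_, rfl⟩
  rw [← hS] at hS3
  have hmemS : ∀ s, s ∈ S ↔ ∀ T ∈ CS k K 2 3, ∀ i,
      g i (T * lf (up K s.1) * lf (m 1)) = g i (T * lf (up K s.2) * lf (m 0)) := by
    intro s
    rw [hS]
    exact mem_Sol
  -- the kernel of the second projection
  obtain ⟨K0, hK0⟩ : ∃ K0, K0 = S.comap (LinearMap.inl k (Fin (2 + 1) → k) (Fin (2 + 1) → k)) :=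
    ⟨_, rfl⟩
  have hK0f : Module.finrank k K0 ≤ 1 := by
    by_contra hcon
    have h1 : ∀ Q ∈ CS k K 2 4, mulR (g 0) (lf (m 1)) Q = 0 := by
      intro Q hQ
      refine zero_of_N h.pts (N := K0) (by omega) _ (fun b hb T hT => ?_)
        (fun P hP hPg => hPg 0 1) hQ.1
      rw [hK0, Submodule.mem_comap, hmemS] at hb
      have h2 := hb T hT 0
      rw [LinearMap.inl_apply, up_zero, map_zero, mul_zero, zero_mul, map_zero] at h2
      exact h2
    obtain ⟨Q, hQ, hne⟩ := h.irr ![0, 1] ![1, 0] (fun h0 => by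
      have := congrFun h0 1
      simp at this) (fun h0 => by
      have := congrFun h0 0
      simp at this)
    apply hne
    have h2 := h1 Q hQ
    rw [mulR_apply] at h2
    rw [Fin.sum_univ_two]
    simp [h2]
  obtain ⟨f, hf⟩ : ∃ f : S →ₗ[k] (Fin (2 + 1) → k), ∀ s : S, f s = (s : (Fin (2 + 1) → k) × (Fin (2 + 1) → k)).2 :=
    ⟨LinearMap.snd k _ _ ∘ₗ S.subtype, fun _ => rfl⟩
  have hkerf : Module.finrank k (LinearMap.ker f) ≤ Module.finrank k K0 := by
    obtain ⟨e, he⟩ : ∃ e : LinearMap.ker f →ₗ[k] (Fin (2 + 1) → k),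
        ∀ s, e s = ((s : S) : (Fin (2 + 1) → k) × (Fin (2 + 1) → k)).1 :=
      ⟨LinearMap.fst k _ _ ∘ₗ S.subtype ∘ₗ (LinearMap.ker f).subtype, fun _ => rfl⟩
    have hmem : ∀ s, e s ∈ K0 := by
      intro s
      rw [hK0, Submodule.mem_comap, he]
      have h1 : LinearMap.inl k (Fin (2 + 1) → k) (Fin (2 + 1) → k) (((s : S) : (Fin (2 + 1) → k) × (Fin (2 + 1) → k)).1) =
          ((s : S) : (Fin (2 + 1) → k) × (Fin (2 + 1) → k)) := by
        refine Prod.ext rfl ?_
        have h2 := s.2
        rw [LinearMap.mem_ker, hf] at h2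
        exact h2.symm
      rw [h1]
      exact (s : S).2
    refine LinearMap.finrank_le_finrank_of_injective (f := e.codRestrict K0 hmem) ?_
    intro s s' hss
    have h1 := congrArg Subtype.val hss
    change e s = e s' at h1
    rw [he, he] at h1
    apply Subtype.ext
    apply Subtype.ext
    refine Prod.ext h1 ?_
    have h2 := s.2
    have h3 := s'.2
    rw [LinearMap.mem_ker, hf] at h2 h3
    rw [h2, h3]
  have hN2 : 2 ≤ Module.finrank k (LinearMap.range f) := by
    have := LinearMap.finrank_range_add_finrank_ker f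
    omega
  -- the functionals of degree three
  have hσ : ∀ i, ∀ b ∈ LinearMap.range f, ∀ T ∈ CS k K 2 2,
      mulR (g i) (lf (up K μ) * lf (m 0)) (T * lf (up K b)) = 0 := by
    rintro i b ⟨s, rfl⟩ T hT
    have h1 := (hmemS s).1 s.2 (T * lf (up K μ)) (CS_mul_lf hT μ) i
    have h2 := hstar (T * lf (up K (s : (Fin (2 + 1) → k) × (Fin (2 + 1) → k)).1)) (CS_mul_lf hT _) i
    rw [hf, mulR_apply]
    have h3 : T * lf (up K μ) * lf (up K (s : (Fin (2 + 1) → k) × (Fin (2 + 1) → k)).1) * lf (m 1) =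
        T * lf (up K (s : (Fin (2 + 1) → k) × (Fin (2 + 1) → k)).1) * lf (up K μ) * lf (m 1) := by ring
    have h4 : T * lf (up K (s : (Fin (2 + 1) → k) × (Fin (2 + 1) → k)).2) * (lf (up K μ) * lf (m 0)) =
        T * lf (up K μ) * lf (up K (s : (Fin (2 + 1) → k) × (Fin (2 + 1) → k)).2) * lf (m 0) := by ring
    rw [h4, ← h1, h3, h2]
  obtain ⟨φ, hφ0, hφ⟩ : ∃ φ : Fin 2 → K, φ ≠ 0 ∧ ∀ T : MvPolynomial (Fin (2 + 1)) K,
      T.IsHomogeneous 3 → φ 0 * g 0 (T * lf (up K μ) * lf (m 0)) +
        φ 1 * g 1 (T * lf (up K μ) * lf (m 0)) = 0 := by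
    obtain ⟨p, hp0, hpN⟩ := exists_pt (LinearMap.range f) hN2
    obtain ⟨c, hc⟩ := Function.ne_iff.1 hp0
    have hc' : p c ≠ 0 := hc
    have hup : up K p c ≠ 0 := by
      intro h0
      exact hc' ((algebraMap k K).injective (by rw [map_zero]; exact h0))
    have h1 := fun (i : Fin 2) (T : MvPolynomial (Fin (2 + 1)) K) (hT : T.IsHomogeneous 3) =>
      eval_of_N hpN hc' (mulR (g i) (lf (up K μ) * lf (m 0))) (hσ i) hT
    have h2 : ∀ φ : Fin 2 → K,
        φ 0 * mulR (g 0) (lf (up K μ) * lf (m 0)) (X c ^ (2 + 1)) +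
          φ 1 * mulR (g 1) (lf (up K μ) * lf (m 0)) (X c ^ (2 + 1)) = 0 →
        ∀ T : MvPolynomial (Fin (2 + 1)) K,
      T.IsHomogeneous 3 → φ 0 * g 0 (T * lf (up K μ) * lf (m 0)) +
        φ 1 * g 1 (T * lf (up K μ) * lf (m 0)) = 0 := by
      intro φ hφ T hT
      have h3 := h1 0 T hT
      have h4 := h1 1 T hT
      rw [mulR_apply] at h3 h4
      rw [← mul_assoc] at h3 h4
      have h5 : up K p c ^ (2 + 1) * (φ 0 * g 0 (T * lf (up K μ) * lf (m 0)) +
          φ 1 * g 1 (T * lf (up K μ) * lf (m 0))) = 0 := by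
        linear_combination φ 0 * h3 + φ 1 * h4 + eval (up K p) T * hφ
      exact (mul_eq_zero.1 h5).resolve_left (pow_ne_zero _ hup)
    by_cases h3 : mulR (g 0) (lf (up K μ) * lf (m 0)) (X c ^ (2 + 1)) = 0
    · exact ⟨![1, 0], fun h0 => by
        have := congrFun h0 0
        simp at this, h2 _ (by simp [h3])⟩
    · exact ⟨![mulR (g 1) (lf (up K μ) * lf (m 0)) (X c ^ (2 + 1)),
        -mulR (g 0) (lf (up K μ) * lf (m 0)) (X c ^ (2 + 1))], fun h0 => by
        have := congrFun h0 1
        simp at this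
        exact h3 this, h2 _ (by simp; ring)⟩
  -- the quotient
  obtain ⟨Q0, hQ0⟩ : ∃ Q0 : Submodule k (Fin (2 + 1) → k), Q0 = Submodule.span k {μ} := ⟨_, rfl⟩
  have hQ0f : Module.finrank k Q0 = 1 := by rw [hQ0]; exact finrank_span_singleton hμ
  have hQ0m : ∀ v ∈ Q0, ∃ c : k, c • μ = v := by
    intro v hv
    rw [hQ0] at hv
    exact Submodule.mem_span_singleton.1 hv
  have hquo : Module.finrank k ((Fin (2 + 1) → k) ⧸ Q0) = 2 := by
    have := Submodule.finrank_quotient_add_finrank Q0
    rw [Module.finrank_fin_fun] at this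
    omega
  obtain ⟨G, hG⟩ : ∃ G : S →ₗ[k] ((Fin (2 + 1) → k) ⧸ Q0) × ((Fin (2 + 1) → k) ⧸ Q0),
      ∀ s : S, G s = (Q0.mkQ (s : (Fin (2 + 1) → k) × (Fin (2 + 1) → k)).1, Q0.mkQ (s : (Fin (2 + 1) → k) × (Fin (2 + 1) → k)).2) :=
    ⟨(LinearMap.prodMap Q0.mkQ Q0.mkQ) ∘ₗ S.subtype, fun _ => rfl⟩
  have hmulR0 : ∀ T ∈ CS k K 2 3, ∀ i (c : k), g i (T * lf (up K (c • μ)) * lf (m 1)) = 0 := by
    intro T hT i c
    rw [up_smul, map_smul, mul_smul_comm, smul_mul_assoc, map_smul, hstar T hT i, smul_zero]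
  by_cases hG2 : 2 ≤ Module.finrank k (LinearMap.range G)
  · -- an element of rank one
    obtain ⟨α, β, v, hαβ, hv, s, hs⟩ := rank_one (by rw [hquo]; norm_num) (LinearMap.range G)
      (by rw [hquo]; exact hG2)
    obtain ⟨e, he⟩ := Q0.mkQ_surjective v
    rw [hG] at hs
    have hs1 : Q0.mkQ (s : (Fin (2 + 1) → k) × (Fin (2 + 1) → k)).1 = α • v := congrArg Prod.fst hs
    have hs2 : Q0.mkQ (s : (Fin (2 + 1) → k) × (Fin (2 + 1) → k)).2 = β • v := congrArg Prod.snd hs
    rw [← he, ← map_smul, ← sub_eq_zero, ← map_sub, Submodule.mkQ_apply,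
      Submodule.Quotient.mk_eq_zero, hQ0, Submodule.mem_span_singleton] at hs1 hs2
    obtain ⟨s1, hs1⟩ := hs1
    obtain ⟨s2, hs2⟩ := hs2
    have heQ : e ∉ Q0 := by
      intro h0
      apply hv
      rw [← he, Submodule.mkQ_apply, Submodule.Quotient.mk_eq_zero]
      exact h0
    -- the functional
    obtain ⟨τ, hτ⟩ : ∃ τ : MvPolynomial (Fin (2 + 1)) K →ₗ[K] K, ∀ Q, τ Q =
        φ 0 * (algebraMap k K α * g 0 (Q * lf (m 1)) - algebraMap k K β * g 0 (Q * lf (m 0))) +
        φ 1 * (algebraMap k K α * g 1 (Q * lf (m 1)) - algebraMap k K β * g 1 (Q * lf (m 0))) :=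
      ⟨φ 0 • (algebraMap k K α • mulR (g 0) (lf (m 1)) - algebraMap k K β •
        mulR (g 0) (lf (m 0))) + φ 1 • (algebraMap k K α • mulR (g 1) (lf (m 1)) -
        algebraMap k K β • mulR (g 1) (lf (m 0))), fun _ => rfl⟩
    have hτμ : ∀ T ∈ CS k K 2 3, τ (T * lf (up K μ)) = 0 := by
      intro T hT
      rw [hτ, hstar T hT 0, hstar T hT 1]
      have := hφ T hT.1
      linear_combination (-algebraMap k K β) * this
    have hτe : ∀ T ∈ CS k K 2 3, τ (T * lf (up K e)) = 0 := by
      intro T hT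
      have h1 : ∀ i, algebraMap k K α * g i (T * lf (up K e) * lf (m 1)) =
          g i (T * lf (up K (s : (Fin (2 + 1) → k) × (Fin (2 + 1) → k)).1) * lf (m 1)) := by
        intro i
        have h2 : (s : (Fin (2 + 1) → k) × (Fin (2 + 1) → k)).1 = α • e + s1 • μ := by rw [hs1]; abel
        have h3 := hmulR0 T hT i s1
        rw [h2, up_add, map_add, mul_add, add_mul, map_add, h3, add_zero, up_smul, map_smul,
          mul_smul_comm, smul_mul_assoc, map_smul, smul_eq_mul]
      have h4 : ∀ i, algebraMap k K β * g i (T * lf (up K e) * lf (m 0)) =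
          g i (T * lf (up K (s : (Fin (2 + 1) → k) × (Fin (2 + 1) → k)).2) * lf (m 0)) -
            algebraMap k K s2 * g i (T * lf (up K μ) * lf (m 0)) := by
        intro i
        have h2 : (s : (Fin (2 + 1) → k) × (Fin (2 + 1) → k)).2 = β • e + s2 • μ := by rw [hs2]; abel
        rw [h2, up_add, map_add, mul_add, add_mul, map_add, up_smul, up_smul, map_smul, map_smul,
          mul_smul_comm, mul_smul_comm, smul_mul_assoc, smul_mul_assoc, map_smul, map_smul,
          smul_eq_mul, smul_eq_mul]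
        ring
      rw [hτ, h1, h1, h4, h4]
      have h5 := (hmemS s).1 s.2 T hT 0
      have h6 := (hmemS s).1 s.2 T hT 1
      have h7 := hφ T hT.1
      linear_combination φ 0 * h5 + φ 1 * h6 + algebraMap k K s2 * h7
    have hNf : 2 ≤ Module.finrank k (Submodule.span k ({μ} ∪ {e}) : Submodule k _) := by
      have h1 : (Submodule.span k ({μ} ∪ {e}) : Submodule k (Fin (2 + 1) → k)) =
          Q0 ⊔ Submodule.span k {e} := by
        rw [Submodule.span_union, hQ0]
      rw [h1, finrank_sup_one heQ, hQ0f]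
    have hz := fun (Q : MvPolynomial (Fin (2 + 1)) K) (hQ : Q.IsHomogeneous 4) =>
      zero_of_N h.pts hNf τ (fun b hb T hT => by
        rw [Submodule.span_union, Submodule.mem_sup] at hb
        obtain ⟨b1, hb1, b2, hb2, rfl⟩ := hb
        obtain ⟨c1, rfl⟩ := Submodule.mem_span_singleton.1 hb1
        obtain ⟨c2, rfl⟩ := Submodule.mem_span_singleton.1 hb2
        rw [up_add, up_smul, up_smul, map_add, map_smul, map_smul, mul_add, mul_smul_comm,
          mul_smul_comm, map_add, map_smul, map_smul, hτμ T hT, hτe T hT, smul_zero, smul_zero,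
          add_zero]) (fun P hP hPg => by
        rw [hτ, hPg, hPg, hPg, hPg]; ring) hQ
    obtain ⟨Q, hQ, hne⟩ := h.irr ![-algebraMap k K β, algebraMap k K α] φ (fun h0 => by
      have h1 := congrFun h0 0
      have h2 := congrFun h0 1
      simp at h1 h2
      rcases hαβ with h3 | h3
      · exact h3 h2
      · exact h3 h1) hφ0
    apply hne
    have h1 := hz Q hQ.1
    rw [hτ] at h1
    rw [Fin.sum_univ_two]
    simp
    linear_combination h1
  -- the multiples of `μ`
  have hker : 2 ≤ Module.finrank k (LinearMap.ker G) := by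
    have := LinearMap.finrank_range_add_finrank_ker G
    omega
  have hstar2 : ∀ T ∈ CS k K 2 3, ∀ i, g i (T * lf (up K μ) * lf (m 0)) = 0 := by
    have hkerm : ∀ s : LinearMap.ker G, ∃ c1 c2 : k, c1 • μ = ((s : S) : (Fin (2 + 1) → k) × (Fin (2 + 1) → k)).1 ∧
        c2 • μ = ((s : S) : (Fin (2 + 1) → k) × (Fin (2 + 1) → k)).2 := by
      intro s
      have h1 := s.2
      rw [LinearMap.mem_ker, hG] at h1
      have h2 : Q0.mkQ ((s : S) : (Fin (2 + 1) → k) × (Fin (2 + 1) → k)).1 = 0 :=
        congrArg Prod.fst h1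
      have h3 : Q0.mkQ ((s : S) : (Fin (2 + 1) → k) × (Fin (2 + 1) → k)).2 = 0 :=
        congrArg Prod.snd h1
      rw [Submodule.mkQ_apply, Submodule.Quotient.mk_eq_zero] at h2 h3
      obtain ⟨c1, h2⟩ := hQ0m _ h2
      obtain ⟨c2, h3⟩ := hQ0m _ h3
      exact ⟨c1, c2, h2, h3⟩
    obtain ⟨s, hs⟩ : ∃ s : LinearMap.ker G, ((s : S) : (Fin (2 + 1) → k) × (Fin (2 + 1) → k)).2 ≠ 0 := by
      by_contra hcon
      push Not at hcon
      obtain ⟨e, he⟩ : ∃ e : LinearMap.ker G →ₗ[k] (Fin (2 + 1) → k),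
          ∀ s, e s = ((s : S) : (Fin (2 + 1) → k) × (Fin (2 + 1) → k)).1 :=
        ⟨LinearMap.fst k _ _ ∘ₗ S.subtype ∘ₗ (LinearMap.ker G).subtype, fun _ => rfl⟩
      have hmem : ∀ s, e s ∈ Q0 := by
        intro s
        obtain ⟨c1, c2, h1, h2⟩ := hkerm s
        rw [he, ← h1, hQ0]
        exact Submodule.smul_mem _ _ (Submodule.mem_span_singleton_self _)
      have h1 := LinearMap.finrank_le_finrank_of_injective (f := e.codRestrict Q0 hmem) (by
        intro s s' hss
        have h1 := congrArg Subtype.val hss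
        change e s = e s' at h1
        rw [he, he] at h1
        apply Subtype.ext
        apply Subtype.ext
        exact Prod.ext h1 (by rw [hcon, hcon]))
      omega
    obtain ⟨c1, c2, h1, h2⟩ := hkerm s
    have hc2 : c2 ≠ 0 := by
      rintro rfl
      rw [zero_smul] at h2
      exact hs h2.symm
    intro T hT i
    have h3 := (hmemS (s : S)).1 (s : S).2 T hT i
    rw [← h1, ← h2, hmulR0 T hT i c1, up_smul, map_smul, mul_smul_comm, smul_mul_assoc, map_smul,
      smul_eq_mul] at h3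
    exact (mul_eq_zero.1 h3.symm).resolve_left fun h0 =>
      hc2 ((algebraMap k K).injective (by rw [h0, map_zero]))
  -- the contradiction
  obtain ⟨P, hP, hPx, hPg, ν, i, hν⟩ := h.free
  have hμP : g i (P * lf (up K μ)) = 0 := by
    obtain ⟨c, hc⟩ := Function.ne_iff.1 h.x_ne
    have hc' : x c ≠ 0 := hc
    have hT : ∀ j, ∀ T : MvPolynomial (Fin (2 + 1)) K, T.IsHomogeneous 3 →
        g i (T * lf (m j) * lf (up K μ)) = 0 := by
      intro j T hT
      have h1 : T * lf (m j) * lf (up K μ) = T * lf (up K μ) * lf (m j) := by ring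
      rw [h1]
      have h2 := zero_of_CS (k := k) (mulR (g i) (lf (up K μ) * lf (m j))) (fun Q hQ => by
        rw [mulR_apply, ← mul_assoc]
        fin_cases j
        · exact hstar2 Q hQ i
        · exact hstar Q hQ i) hT
      rw [mulR_apply, ← mul_assoc] at h2
      exact h2
    have h1 := fun_eval (e := 4) (mulR (g i) (lf (up K μ))) x hc' (by
      intro a u hu
      -- the linear form is a combination
      have h2 : ∃ a0 a1 : K, ∀ l, pm x c a l = a0 * m 0 l + a1 * m 1 l := by
        have h3 := eval_pm x c a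
        rw [eval_lf] at h3
        -- the orthogonal space of `x`
        obtain ⟨E, hE⟩ : ∃ E : (Fin (2 + 1) → K) →ₗ[K] K, ∀ v, E v = ∑ l, v l * x l :=
          ⟨∑ l, x l • LinearMap.proj l, fun v => by
            rw [LinearMap.sum_apply]
            refine Finset.sum_congr rfl fun l _ => ?_
            rw [LinearMap.smul_apply, LinearMap.proj_apply, smul_eq_mul, mul_comm]⟩
        have hE0 : E ≠ 0 := by
          intro h0
          have h4 := hE (Pi.single c 1)
          rw [h0, LinearMap.zero_apply, Finset.sum_eq_single c] at h4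
          · rw [Pi.single_eq_same, one_mul] at h4
            exact hc' h4.symm
          · intro l _ hl
            rw [Pi.single_eq_of_ne hl, zero_mul]
          · intro h; exact absurd (Finset.mem_univ c) h
        have hEk : Module.finrank K (LinearMap.ker E) = 2 := by
          have h2 := LinearMap.finrank_range_add_finrank_ker E
          have h3 : LinearMap.range E = ⊤ :=
            LinearMap.range_eq_top.2 (LinearMap.surjective hE0)
          rw [h3, finrank_top, Module.finrank_self, Module.finrank_fin_fun] at h2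
          omega
        have hli : LinearIndependent K ![m 0, m 1] := by
          rw [LinearIndependent.pair_iff]
          intro s t hst
          exact h.indep s t fun l => by
            have := congrFun hst l
            simpa using this
        have hsp : Submodule.span K (Set.range ![m 0, m 1]) = LinearMap.ker E := by
          refine Submodule.eq_of_le_of_finrank_eq ?_ ?_
          · rw [Submodule.span_le]
            rintro _ ⟨j, rfl⟩
            rw [SetLike.mem_coe, LinearMap.mem_ker, hE]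
            fin_cases j
            · exact h.perp 0
            · exact h.perp 1
          · rw [hEk, finrank_span_eq_card hli, Fintype.card_fin]
        have hmem : pm x c a ∈ Submodule.span K (Set.range ![m 0, m 1]) := by
          rw [hsp, LinearMap.mem_ker, hE, h3]
        rw [Submodule.mem_span_range_iff_exists_fun] at hmem
        obtain ⟨cc, hcc⟩ := hmem
        refine ⟨cc 0, cc 1, fun l => ?_⟩
        rw [← hcc, Fin.sum_univ_two]
        simp
      obtain ⟨a0, a1, h2⟩ := h2
      have h3 : lf (pm x c a) = a0 • lf (m 0) + a1 • lf (m 1) := by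
        rw [← map_smul, ← map_smul, ← map_add]
        congr 1
        funext l
        exact h2 l
      have hmon : (monomial u 1 : MvPolynomial (Fin (2 + 1)) K).IsHomogeneous 3 :=
        isHomogeneous_monomial _ (by omega)
      have h4 : mulR (g i) (lf (up K μ)) (monomial u 1 * lf (pm x c a)) = 0 := by
        rw [h3, mul_add, mul_smul_comm, mul_smul_comm, map_add, map_smul, map_smul, mulR_apply,
          mulR_apply, hT 0 _ hmon, hT 1 _ hmon, smul_zero, smul_zero, add_zero]
      rw [lf_pm, mul_sub, mul_smul_comm, mul_smul_comm, map_sub, map_smul, map_smul,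
        sub_eq_zero] at h4
      exact h4) hP
    rw [hPx, zero_mul, mulR_apply] at h1
    exact (mul_eq_zero.1 h1).resolve_left (pow_ne_zero _ hc')
  -- the linear forms are combinations
  apply hν
  have hli : LinearIndependent K ![m 0, m 1, up K μ] := by
    rw [Fintype.linearIndependent_iff]
    intro w hw
    rw [Fin.sum_univ_three] at hw
    have hw' : ∀ l, w 0 * m 0 l + w 1 * m 1 l + w 2 * up K μ l = 0 := by
      intro l
      have := congrFun hw l
      simpa using this
    have hw2 : w 2 = 0 := by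
      have h1 : w 2 * ∑ l, up K μ l * x l = 0 := by
        have h2 : ∑ l, (w 0 * m 0 l + w 1 * m 1 l + w 2 * up K μ l) * x l = 0 :=
          Finset.sum_eq_zero fun l _ => by rw [hw' l, zero_mul]
        have h3 : ∑ l, (w 0 * m 0 l + w 1 * m 1 l + w 2 * up K μ l) * x l =
            w 0 * ∑ l, m 0 l * x l + w 1 * ∑ l, m 1 l * x l + w 2 * ∑ l, up K μ l * x l := by
          rw [Finset.mul_sum, Finset.mul_sum, Finset.mul_sum, ← Finset.sum_add_distrib,
            ← Finset.sum_add_distrib]
          exact Finset.sum_congr rfl fun l _ => by ring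
        rw [h3, h.perp, h.perp, mul_zero, mul_zero, zero_add, zero_add] at h2
        exact h2
      exact (mul_eq_zero.1 h1).resolve_right hμx
    have h4 := h.indep (w 0) (w 1) fun l => by
      have := hw' l
      rw [hw2] at this
      linear_combination this
    intro j
    fin_cases j
    · exact h4.1
    · exact h4.2
    · exact hw2
  have hmem : ν ∈ Submodule.span K (Set.range ![m 0, m 1, up K μ]) := by
    rw [hli.span_eq_top_of_card_eq_finrank' (by
      rw [Fintype.card_fin, Module.finrank_fin_fun])]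
    trivial
  rw [Submodule.mem_span_range_iff_exists_fun] at hmem
  obtain ⟨cc, hcc⟩ := hmem
  rw [Fin.sum_univ_three] at hcc
  have h1 : lf ν = cc 0 • lf (m 0) + cc 1 • lf (m 1) + cc 2 • lf (up K μ) := by
    rw [← hcc, map_add, map_add, map_smul, map_smul, map_smul]
    rfl
  rw [h1, mul_add, mul_add, mul_smul_comm, mul_smul_comm, mul_smul_comm, map_add, map_add,
    map_smul, map_smul, map_smul, hPg, hPg, hμP, smul_zero, smul_zero, smul_zero, add_zero,
    add_zero]

end Pool.Agent.Y735.S
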