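import Pool.Agent.Y735.S.Alg5
import Pool.Agent.Y735.S.PairHt

/-!
The functionals given by the derivations.
-/

set_option autoImplicit false

open MvPolynomial Pool.Agent.TH145.GH

namespace Pool.Agent.Y735.S

section polar

variable {k K : Type} [Field k] [Field K] [Algebra k K]

/-- The minors as bilinear forms. -/
noncomputable def Bl {n : ℕ}
    (A : MvPolynomial (Fin (n + 1)) K →ₗ[K] MvPolynomial (Fin (n + 1)) K →ₗ[K] K)
    (x : Fin (n + 1) → K) (Q R : MvPolynomial (Fin (n + 1)) K) (a b c : Fin (n + 1)) : K :=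
  x a * A (Q * X b) (R * X c) - x b * A (Q * X a) (R * X c) + x c * A (Q * X a) (R * X b)

theorem exists_S {n : ℕ}
    (A : MvPolynomial (Fin (n + 1)) K →ₗ[K] MvPolynomial (Fin (n + 1)) K →ₗ[K] K)
    (x : Fin (n + 1) → K) (a b c : Fin (n + 1)) :
    ∃ S : MvPolynomial (Fin (n + 1)) K →ₗ[K] MvPolynomial (Fin (n + 1)) K →ₗ[K] K,
      ∀ Q R, S Q R = Bl A x Q R a b c + Bl A x R Q a b c := by
  refine ⟨LinearMap.mk₂ K (fun Q R => Bl A x Q R a b c + Bl A x R Q a b c) ?_ ?_ ?_ ?_,
    fun Q R => rfl⟩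
  · intro Q Q' R
    unfold Bl
    simp only [add_mul, map_add, LinearMap.add_apply]
    ring
  · intro r Q R
    unfold Bl
    simp only [smul_mul_assoc, map_smul, LinearMap.smul_apply, smul_eq_mul]
    ring
  · intro Q R R'
    unfold Bl
    simp only [add_mul, map_add, LinearMap.add_apply]
    ring
  · intro r Q R
    unfold Bl
    simp only [smul_mul_assoc, map_smul, LinearMap.smul_apply, smul_eq_mul]
    ring

/-- Polarisation. -/
theorem Bl_all [CharZero k] {n e : ℕ}
    {A : MvPolynomial (Fin (n + 1)) K →ₗ[K] MvPolynomial (Fin (n + 1)) K →ₗ[K] K}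
    {x : Fin (n + 1) → K} {τ : K}
    (h : ∀ I J : Fin (n + 1) →₀ ℕ, I.degree = e → J.degree = e → ∀ a b c, ∃ r : k,
      Bl A x (monomial I 1 + monomial J 1) (monomial I 1 + monomial J 1) a b c =
        algebraMap k K r * τ)
    {Q : MvPolynomial (Fin (n + 1)) K} (hQ : Q ∈ CS k K n e) (a b c : Fin (n + 1)) :
    ∃ r : k, Bl A x Q Q a b c = algebraMap k K r * τ := by
  classical
  have hczK : CharZero K := charZero_of_injective_algebraMap (algebraMap k K).injective
  obtain ⟨S, hS⟩ := exists_S A x a b c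
  obtain ⟨T, hT⟩ : ∃ T : Submodule k K, ∀ z, z ∈ T ↔ ∃ r : k, z = algebraMap k K r * τ := by
    refine ⟨Submodule.span k {τ}, fun z => ?_⟩
    rw [Submodule.mem_span_singleton]
    constructor
    · rintro ⟨r, rfl⟩
      exact ⟨r, Algebra.smul_def _ _⟩
    · rintro ⟨r, rfl⟩
      exact ⟨r, Algebra.smul_def _ _⟩
  have hM : ∀ I : Fin (n + 1) →₀ ℕ, I.degree = e →
      Bl A x (monomial I 1) (monomial I 1) a b c ∈ T := by
    intro I hI
    have h1 := (hT _).2 (h I I hI hI a b c)
    have h2 : Bl A x (monomial I 1 + monomial I 1) (monomial I 1 + monomial I 1) a b c =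
        (4 : k) • Bl A x (monomial I 1) (monomial I 1) a b c := by
      rw [Algebra.smul_def, map_ofNat]
      unfold Bl
      simp only [add_mul, map_add, LinearMap.add_apply]
      ring
    rw [h2] at h1
    have h3 := T.smul_mem (4 : k)⁻¹ h1
    rwa [smul_smul, inv_mul_cancel₀ (by norm_num), one_smul] at h3
  have hMM : ∀ I J : Fin (n + 1) →₀ ℕ, I.degree = e → J.degree = e →
      S (monomial I 1) (monomial J 1) ∈ T := by
    intro I J hI hJ
    have h1 := (hT _).2 (h I J hI hJ a b c)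
    have h2 : S (monomial I 1) (monomial J 1) =
        Bl A x (monomial I 1 + monomial J 1) (monomial I 1 + monomial J 1) a b c -
          Bl A x (monomial I 1) (monomial I 1) a b c -
          Bl A x (monomial J 1) (monomial J 1) a b c := by
      rw [hS]
      unfold Bl
      simp only [add_mul, map_add, LinearMap.add_apply]
      ring
    rw [h2]
    exact sub_mem (sub_mem h1 (hM I hI)) (hM J hJ)
  have hQs : Q = ∑ u ∈ Q.support, Q.coeff u • (monomial u 1 : MvPolynomial (Fin (n + 1)) K) := by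
    conv_lhs => rw [Q.as_sum]
    exact Finset.sum_congr rfl fun u _ => by rw [smul_monomial, smul_eq_mul, mul_one]
  have hSQ : S Q Q ∈ T := by
    have h1 : S Q Q = ∑ u ∈ Q.support, ∑ v ∈ Q.support,
        Q.coeff u * (Q.coeff v * S (monomial u 1) (monomial v 1)) := by
      have e1 : ∀ R, S Q R = ∑ u ∈ Q.support, Q.coeff u * S (monomial u 1) R := by
        intro R
        conv_lhs => rw [hQs]
        rw [map_sum, LinearMap.sum_apply]
        exact Finset.sum_congr rfl fun u _ => by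
          rw [map_smul, LinearMap.smul_apply, smul_eq_mul]
      have e2 : ∀ R, S R Q = ∑ v ∈ Q.support, Q.coeff v * S R (monomial v 1) := by
        intro R
        conv_lhs => rw [hQs]
        rw [map_sum]
        exact Finset.sum_congr rfl fun u _ => by rw [map_smul, smul_eq_mul]
      rw [e1]
      refine Finset.sum_congr rfl fun u _ => ?_
      rw [e2, Finset.mul_sum]
    rw [h1]
    refine sum_mem fun u hu => sum_mem fun v hv => ?_
    obtain ⟨r, hr⟩ := hQ.2 u
    obtain ⟨s, hs⟩ := hQ.2 v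
    rw [hr, hs, ← Algebra.smul_def, ← Algebra.smul_def]
    exact T.smul_mem _ (T.smul_mem _ (hMM u v (deg_of_mem hQ.1 hu) (deg_of_mem hQ.1 hv)))
  have h2 : S Q Q = (2 : k) • Bl A x Q Q a b c := by
    rw [hS, Algebra.smul_def, map_ofNat]
    ring
  rw [h2] at hSQ
  have h3 := T.smul_mem (2 : k)⁻¹ hSQ
  rw [smul_smul, inv_mul_cancel₀ two_ne_zero, one_smul] at h3
  exact (hT _).1 h3

end polar

/-- Extension of scalars of functionals. -/
theorem exists_bc {L K : Type} [Field L] [Field K] (ι : L →+* K) {n : ℕ}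
    (g : MvPolynomial (Fin (n + 1)) L →ₗ[L] L) :
    ∃ g' : MvPolynomial (Fin (n + 1)) K →ₗ[K] K, ∀ G, g' (map ι G) = ι (g G) := by
  refine ⟨(MvPolynomial.basisMonomials (Fin (n + 1)) K).constr K
    fun J => ι (g (monomial J 1)), fun G => ?_⟩
  have h1 : ∀ J : Fin (n + 1) →₀ ℕ, (MvPolynomial.basisMonomials (Fin (n + 1)) K).constr K
      (fun J => ι (g (monomial J 1))) (monomial J 1) = ι (g (monomial J 1)) := by
    intro J
    have h2 := (MvPolynomial.basisMonomials (Fin (n + 1)) K).constr_basis K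
      (fun J => ι (g (monomial J 1))) J
    rw [coe_basisMonomials] at h2
    exact h2
  rw [G.as_sum, map_sum, map_sum, map_sum, map_sum]
  refine Finset.sum_congr rfl fun J _ => ?_
  have h3 : ∀ {R : Type} [Field R] (a : R), (monomial J a : MvPolynomial (Fin (n + 1)) R) =
      a • monomial J 1 := by
    intro R _ a
    rw [smul_monomial, smul_eq_mul, mul_one]
  rw [map_monomial, h3 (ι _), map_smul, h1, h3 (coeff J G), map_smul, smul_eq_mul, smul_eq_mul,
    map_mul]

/-- The functionals given by the derivations. -/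
theorem exists_g {L : Type} [Field L] {F : MvPolynomial (Fin (3 + 1)) L}
    {D : (Fin (3 + 1) →₀ ℕ) → Derivation ℤ L L} {x : Fin (3 + 1) → L}
    (hW : ∀ pq, ∃ a : L, wv F D x pq = a • x) {j : Fin (3 + 1)} (hj : eval x (pderiv j F) ≠ 0)
    (hne : ∃ Q a b c, Dj D x j Q a b c ≠ 0) :
    ∃ (g : Fin 2 → MvPolynomial (Fin (3 + 1)) L →ₗ[L] L) (η : Fin 2 → Fin (3 + 1) → L),
      (∀ Q a b c, D3 g x Q a b c = Dj D x j Q a b c) ∧
      (∀ i p q, g i (pderiv p F * X q) = -x q * η i p) ∧
      ∃ w : Fin (3 + 1) → L, ∑ p, w p * eval x (pderiv p F) = 0 ∧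
        ∃ i, ∑ p, w p * η i p ≠ 0 := by
  classical
  obtain ⟨e, he⟩ : ∃ e : Fin (3 + 1) → L, e = Pi.single j 1 := ⟨_, rfl⟩
  obtain ⟨A, hA⟩ := exists_vlb e x
  obtain ⟨w1, w2, hw12⟩ : ∃ w1 w2, A w1 w2 ≠ 0 := by
    by_contra hcon
    push Not at hcon
    obtain ⟨Q, a, b, c, hne⟩ := hne
    apply hne
    unfold Dj
    rw [← he, ← hA, ← hA, ← hA, hcon, hcon, hcon]
    ring
  obtain ⟨δ, hδ⟩ : ∃ δ, δ = A w1 w2 := ⟨_, rfl⟩
  rw [← hδ] at hw12
  have hself : ∀ u, A u u = 0 := fun u => by rw [hA, vl_self]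
  have halt : ∀ u v, A v u = -A u v := by
    intro u v
    have h1 := hself (u + v)
    simp only [map_add, LinearMap.add_apply] at h1
    rw [hself, hself] at h1
    linear_combination h1
  have hx1 : ∀ v, A x v = 0 := fun v => by rw [hA, vl_x2]
  have hx2 : ∀ v, A v x = 0 := fun v => by rw [hA, vl_x3]
  have he1 : ∀ v, A e v = 0 := by
    intro v
    rw [hA]
    refine Matrix.det_zero_of_row_eq (i := 0) (j := 2) (by decide) ?_
    rfl
  have he2 : ∀ v, A v e = 0 := fun v => by rw [halt, he1, neg_zero]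
  -- the basis
  have hspan : ∀ u, ∃ c0 c1 c2 c3 : L, u = c0 • e + c1 • x + c2 • w1 + c3 • w2 := by
    intro u
    have h1 : LinearIndependent L ![e, x, w1, w2] := by
      have h2 := Matrix.linearIndependent_rows_iff_isUnit (A := Matrix.of ![e, x, w1, w2])
      rw [Matrix.isUnit_iff_isUnit_det, isUnit_iff_ne_zero] at h2
      refine h2.2 ?_
      have h3 : Matrix.det (Matrix.of ![e, x, w1, w2]) = A w1 w2 := (hA w1 w2).symm
      rw [h3, ← hδ]
      exact hw12
    have h2 : u ∈ Submodule.span L (Set.range ![e, x, w1, w2]) := by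
      rw [h1.span_eq_top_of_card_eq_finrank' (by rw [Fintype.card_fin, Module.finrank_fin_fun])]
      trivial
    rw [Submodule.mem_span_range_iff_exists_fun] at h2
    obtain ⟨cc, hcc⟩ := h2
    rw [Fin.sum_univ_four] at hcc
    exact ⟨cc 0, cc 1, cc 2, cc 3, hcc.symm⟩
  have hpl : ∀ u v, A u v * δ = A u w2 * A w1 v - A v w2 * A w1 u := by
    intro u v
    obtain ⟨a0, a1, a2, a3, rfl⟩ := hspan u
    obtain ⟨b0, b1, b2, b3, rfl⟩ := hspan v
    simp only [map_add, map_smul, LinearMap.add_apply, LinearMap.smul_apply, smul_eq_mul, hself,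
      hx1, hx2, he1, he2, ← hδ, halt w1 w2]
    ring
  -- the functionals
  obtain ⟨g, hg⟩ : ∃ g : Fin 2 → MvPolynomial (Fin (3 + 1)) L →ₗ[L] L,
      (∀ G, g 0 G = A (vec D x G) w2) ∧ ∀ G, g 1 G = δ⁻¹ * A w1 (vec D x G) :=
    ⟨![(A.flip w2) ∘ₗ vec D x, δ⁻¹ • (A w1 ∘ₗ vec D x)], fun _ => rfl, fun _ => rfl⟩
  obtain ⟨hg0, hg1⟩ := hg
  obtain ⟨η, hη⟩ : ∃ η : Fin 2 → Fin (3 + 1) → L, (∀ p, η 0 p = A (Pi.single p 1) w2) ∧
      ∀ p, η 1 p = δ⁻¹ * A w1 (Pi.single p 1) :=
    ⟨![fun p => A (Pi.single p 1) w2, fun p => δ⁻¹ * A w1 (Pi.single p 1)], fun _ => rfl,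
      fun _ => rfl⟩
  obtain ⟨hη0, hη1⟩ := hη
  have hgg : ∀ G H, g 0 G * g 1 H - g 0 H * g 1 G = A (vec D x G) (vec D x H) := by
    intro G H
    rw [hg0, hg0, hg1, hg1]
    have h1 := hpl (vec D x G) (vec D x H)
    field_simp
    linear_combination -h1
  have hvec : ∀ p q, ∃ a : L, vec D x (pderiv p F * X q) =
      a • x - x q • (Pi.single p 1 : Fin (3 + 1) → L) := by
    intro p q
    obtain ⟨a, ha⟩ := hW (p, q)
    refine ⟨a, ?_⟩
    rw [← ha]
    unfold wv
    rw [mul_comm (pderiv p F)]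
    simp only [add_sub_cancel_left]
  refine ⟨g, η, fun Q a b c => ?_, fun i p q => ?_, ?_⟩
  · unfold D3 Dj
    rw [hgg, hgg, hgg, ← he, ← hA, ← hA, ← hA]
  · obtain ⟨a, ha⟩ := hvec p q
    fin_cases i
    · change g 0 _ = -x q * η 0 p
      rw [hg0, ha, hη0]
      simp only [map_sub, map_smul, LinearMap.sub_apply, LinearMap.smul_apply, smul_eq_mul, hx1]
      ring
    · change g 1 _ = -x q * η 1 p
      rw [hg1, ha, hη1]
      simp only [map_sub, map_smul, smul_eq_mul, hx2]
      ring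
  · -- the tangent vector
    have hdF : ∀ w : Fin (3 + 1) → L, ∑ p, w p * eval x (pderiv p F) = dFl F x w := by
      intro w
      rw [dFl_apply]
      unfold dF
      exact Finset.sum_congr rfl fun p _ => mul_comm _ _
    have hde : dFl F x e = eval x (pderiv j F) := by
      rw [dFl_apply, he]
      have := dF_single F x j 1
      simpa using this
    refine ⟨w1 - (dFl F x w1 / eval x (pderiv j F)) • e, ?_, 0, ?_⟩
    · rw [hdF, map_sub, map_smul, hde, smul_eq_mul, div_mul_cancel₀ _ hj, sub_self]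
    · have h1 : ∀ w : Fin (3 + 1) → L, ∑ p, w p * η 0 p = A w w2 := by
        intro w
        have h2 : w = ∑ p, w p • (Pi.single p 1 : Fin (3 + 1) → L) := by
          funext m'
          rw [Finset.sum_apply, Finset.sum_eq_single m']
          · rw [Pi.smul_apply, Pi.single_eq_same, smul_eq_mul, mul_one]
          · intro j _ hj
            rw [Pi.smul_apply, Pi.single_eq_of_ne hj.symm, smul_zero]
          · intro h; exact absurd (Finset.mem_univ m') h
        conv_rhs => rw [h2]
        rw [map_sum, LinearMap.sum_apply]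
        exact Finset.sum_congr rfl fun p _ => by
          rw [hη0, map_smul, LinearMap.smul_apply, smul_eq_mul]
      rw [h1]
      simp only [map_sub, map_smul, LinearMap.sub_apply, LinearMap.smul_apply, he1, smul_zero,
        sub_zero]
      rw [← hδ]
      exact hw12

end Pool.Agent.Y735.S
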