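import Pool.Agent.Y735.S.Mat2
import Pool.Agent.Y735.Vec

/-!
Linear algebra over the smaller field.
-/

set_option autoImplicit false

open MvPolynomial

namespace Pool.Agent.Y735.S

/-- Elements of rank one. -/
theorem rank_one {k V : Type*} [Field k] [IsAlgClosed k] [AddCommGroup V] [Module k V]
    [FiniteDimensional k V] (hV : 0 < Module.finrank k V) (S : Submodule k (V × V))
    (h : Module.finrank k V ≤ Module.finrank k S) :
    ∃ (a b : k) (v : V), (a ≠ 0 ∨ b ≠ 0) ∧ v ≠ 0 ∧ (a • v, b • v) ∈ S := by
  classical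
  obtain ⟨f, hf⟩ : ∃ f : S →ₗ[k] V, ∀ s : S, f s = (s : V × V).2 :=
    ⟨LinearMap.snd k V V ∘ₗ S.subtype, fun _ => rfl⟩
  by_cases hinj : Function.Injective f
  · have hfin : Module.finrank k S = Module.finrank k V :=
      le_antisymm (LinearMap.finrank_le_finrank_of_injective hinj) h
    have hsur : Function.Surjective f := (LinearMap.injective_iff_surjective_of_finrank_eq_finrank
      hfin).1 hinj
    let e : S ≃ₗ[k] V := LinearEquiv.ofBijective f ⟨hinj, hsur⟩
    obtain ⟨φ, hφ⟩ : ∃ φ : V →ₗ[k] V, ∀ v, φ v = ((e.symm v : S) : V × V).1 :=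
      ⟨LinearMap.fst k V V ∘ₗ S.subtype ∘ₗ e.symm.toLinearMap, fun _ => rfl⟩
    have : Nontrivial V := Module.finrank_pos_iff.1 hV
    obtain ⟨μ, hμ⟩ := Module.End.exists_eigenvalue φ
    obtain ⟨v, hv⟩ := hμ.exists_hasEigenvector
    refine ⟨μ, 1, v, Or.inr one_ne_zero, hv.2, ?_⟩
    have h1 : φ v = μ • v := hv.apply_eq_smul
    have h2 : ((e.symm v : S) : V × V) = (μ • v, (1 : k) • v) := by
      refine Prod.ext ?_ ?_
      · rw [← hφ, h1]
      · rw [← hf, one_smul]
        exact e.apply_symm_apply v
    rw [← h2]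
    exact (e.symm v).2
  · rw [← LinearMap.ker_eq_bot, Submodule.eq_bot_iff] at hinj
    push Not at hinj
    obtain ⟨s, hs, hs0⟩ := hinj
    refine ⟨1, 0, (s : V × V).1, Or.inl one_ne_zero, ?_, ?_⟩
    · intro h0
      apply hs0
      apply Subtype.ext
      refine Prod.ext h0 ?_
      rw [← hf]
      exact hs
    · rw [one_smul, zero_smul]
      have h1 : ((s : V × V).1, (0 : V)) = (s : V × V) := by
        refine Prod.ext rfl ?_
        rw [← hf]
        exact hs.symm
      rw [h1]
      exact s.2

/-- The point of a space of linear forms. -/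
theorem exists_pt {k : Type} [Field k] (N : Submodule k (Fin (2 + 1) → k))
    (h : 2 ≤ Module.finrank k N) :
    ∃ p : Fin (2 + 1) → k, p ≠ 0 ∧ ∀ a : Fin (2 + 1) → k, ∑ l, a l * p l = 0 → a ∈ N := by
  classical
  by_cases hN : N = ⊤
  · exact ⟨fun _ => 1, fun h0 => one_ne_zero (congrFun h0 0), fun a _ => by rw [hN]; trivial⟩
  · obtain ⟨f, hf0, hf⟩ := Submodule.exists_le_ker_of_lt_top N (lt_top_iff_ne_top.2 hN)
    have hfp : ∀ a : Fin (2 + 1) → k, f a = ∑ l, a l * f (Pi.single l 1) := by
      intro a
      have h2 : a = ∑ l, a l • (Pi.single l 1 : Fin (2 + 1) → k) := by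
        funext i
        rw [Finset.sum_apply, Finset.sum_eq_single i]
        · rw [Pi.smul_apply, Pi.single_eq_same, smul_eq_mul, mul_one]
        · intro j _ hj
          rw [Pi.smul_apply, Pi.single_eq_of_ne hj.symm, smul_zero]
        · intro h; exact absurd (Finset.mem_univ i) h
      conv_lhs => rw [h2]
      rw [map_sum]
      exact Finset.sum_congr rfl fun l _ => by rw [map_smul, smul_eq_mul]
    refine ⟨fun l => f (Pi.single l 1), fun h0 => hf0 ?_, fun a ha => ?_⟩
    · refine LinearMap.ext fun a => ?_
      rw [hfp a, LinearMap.zero_apply]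
      refine Finset.sum_eq_zero fun l _ => ?_
      have := congrFun h0 l
      change f (Pi.single l 1) = 0 at this
      rw [this, mul_zero]
    · have h1 : Module.finrank k (LinearMap.ker f) + 1 = 3 := by
        have h2 := LinearMap.finrank_range_add_finrank_ker f
        have h3 : LinearMap.range f = ⊤ :=
          LinearMap.range_eq_top.2 (LinearMap.surjective hf0)
        rw [h3, finrank_top, Module.finrank_self, Module.finrank_fin_fun] at h2
        omega
      have h2 : N = LinearMap.ker f :=
        Submodule.eq_of_le_of_finrank_le hf (by omega)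
      rw [h2, LinearMap.mem_ker, hfp a]
      exact ha

/-- Functionals that are given by the evaluation at a point. -/
theorem fun_eval {K : Type} [Field K] {n e : ℕ} (ρ : MvPolynomial (Fin (n + 1)) K →ₗ[K] K)
    (p : Fin (n + 1) → K) {c : Fin (n + 1)} (hc : p c ≠ 0)
    (h : ∀ (a : Fin (n + 1)) (u : Fin (n + 1) →₀ ℕ), u.degree + 1 = e →
      p c * ρ (monomial u 1 * X a) = p a * ρ (monomial u 1 * X c))
    {Q : MvPolynomial (Fin (n + 1)) K} (hQ : Q.IsHomogeneous e) :
    p c ^ e * ρ Q = eval p Q * ρ (X c ^ e) := by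
  classical
  have key : ∀ (m : ℕ) (u : Fin (n + 1) →₀ ℕ), u.degree = e → u c + m = e →
      p c ^ e * ρ (monomial u 1) = eval p (monomial u 1) * ρ (X c ^ e) := by
    intro m
    induction m with
    | zero =>
      intro u hu hm
      have h1 : u = Finsupp.single c e := by
        rw [Finsupp.degree_eq_sum, ← Finset.add_sum_erase _ _ (Finset.mem_univ c)] at hu
        have h2 : ∑ x ∈ Finset.univ.erase c, u x = 0 := by omega
        ext l
        by_cases hl : l = c
        · rw [hl, Finsupp.single_eq_same]; omega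
        · rw [Finsupp.single_eq_of_ne hl]
          exact Finset.sum_eq_zero_iff.1 h2 l (Finset.mem_erase.2 ⟨hl, Finset.mem_univ l⟩)
      have h3 : eval p (X c ^ e) = p c ^ e := by rw [map_pow, eval_X]
      rw [h1, ← X_pow_eq_monomial, h3]
    | succ m ih =>
      intro u hu hm
      obtain ⟨a, hac, ha⟩ : ∃ a, a ≠ c ∧ u a ≠ 0 := by
        by_contra hcon
        push Not at hcon
        rw [Finsupp.degree_eq_sum, ← Finset.add_sum_erase _ _ (Finset.mem_univ c),
          Finset.sum_eq_zero (fun l hl => hcon l (Finset.ne_of_mem_erase hl))] at hu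
        omega
      obtain ⟨u', hu'⟩ : ∃ u', u' + Finsupp.single a 1 = u := by
        refine ⟨u - Finsupp.single a 1, tsub_add_cancel_of_le ?_⟩
        rw [Finsupp.single_le_iff]
        omega
      have hd : u'.degree + 1 = e := by
        rw [← hu, ← hu', map_add, Finsupp.degree_single]
      have hcu : u' c = u c := by
        rw [← hu', Finsupp.add_apply, Finsupp.single_eq_of_ne hac.symm, add_zero]
      have hm1 : ∀ b, (monomial u' 1 * X b : MvPolynomial (Fin (n + 1)) K) =
          monomial (u' + Finsupp.single b 1) 1 := by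
        intro b
        rw [X, monomial_mul, mul_one]
      have h1 := h a u' hd
      have h2 := ih (u' + Finsupp.single c 1) (by rw [map_add, Finsupp.degree_single, hd]) (by
        rw [Finsupp.add_apply, Finsupp.single_eq_same, hcu]; omega)
      have hev : ∀ b, eval p (monomial u' 1 * X b) = eval p (monomial u' 1) * p b := by
        intro b
        rw [map_mul, eval_X]
      rw [← hm1 c, hev] at h2
      rw [← hu', ← hm1 a, hev]
      have h3 : p c * (p c ^ e * ρ (monomial u' 1 * X a)) =
          p c * (eval p (monomial u' 1) * p a * ρ (X c ^ e)) := by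
        linear_combination p c ^ e * h1 + p a * h2
      exact mul_left_cancel₀ hc h3
  have hcoe : ∀ u ∈ Q.support, p c ^ e * ρ (monomial u (Q.coeff u)) =
      eval p (monomial u (Q.coeff u)) * ρ (X c ^ e) := by
    intro u hu
    have hue := Pool.Agent.TH145.GH.deg_of_mem hQ hu
    have h1 : (monomial u (Q.coeff u) : MvPolynomial (Fin (n + 1)) K) =
        Q.coeff u • monomial u 1 := by
      rw [smul_monomial, smul_eq_mul, mul_one]
    have h2 : u c ≤ e := by
      rw [← hue, Finsupp.degree_eq_sum]
      exact Finset.single_le_sum (fun _ _ => Nat.zero_le _) (Finset.mem_univ c)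
    have h3 := key (e - u c) u hue (by omega)
    rw [h1, map_smul, smul_eval, smul_eq_mul]
    linear_combination Q.coeff u * h3
  conv_lhs => rw [Q.as_sum]
  conv_rhs => rw [Q.as_sum]
  rw [map_sum, map_sum, Finset.mul_sum, Finset.sum_mul]
  exact Finset.sum_congr rfl hcoe

end Pool.Agent.Y735.S
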