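import Pool.Agent.Y735.S.Irr2

/-!
The reducible case, and change of basis in the irreducible case.
-/

set_option autoImplicit false

open MvPolynomial

namespace Pool.Agent.Y735.S

variable {k K : Type} [Field k] [Field K] [Algebra k K]

theorem dual_val' {n : ℕ} {τ : MvPolynomial (Fin (n + 1)) K →ₗ[K] K}
    {T : MvPolynomial (Fin (n + 1)) K} {m : Fin (n + 1) → K}
    (h : ∀ l, In k (τ (T * X l))) (ξ : K →ₗ[k] k) :
    τ (T * lf (up K fun l => ξ (m l))) = algebraMap k K (ξ (τ (T * lf m))) := by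
  have h1 : ∀ v : Fin (n + 1) → K, τ (T * lf v) = ∑ l, v l * τ (T * X l) := by
    intro v
    rw [lf_apply, Finset.mul_sum, map_sum]
    refine Finset.sum_congr rfl fun l _ => ?_
    rw [mul_smul_comm, map_smul, smul_eq_mul]
  rw [h1, h1, map_sum, map_sum]
  refine Finset.sum_congr rfl fun l _ => ?_
  obtain ⟨c, hc⟩ := h l
  rw [← hc]
  change algebraMap k K (ξ (m l)) * algebraMap k K c = _
  have h2 : m l * algebraMap k K c = c • m l := by rw [Algebra.smul_def, mul_comm]
  rw [h2, map_smul, smul_eq_mul, map_mul, mul_comm]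

/-- The constant solutions of a system of linear equations with constant coefficients. -/
theorem prop_of_N {n : ℕ} {m x : Fin (n + 1) → K} (hm : m ≠ 0) (hmx : ∑ l, m l * x l = 0)
    {N : Submodule k (Fin (n + 1) → k)} (hN : Module.finrank k N ≤ 1)
    (h : ∀ ξ : K →ₗ[k] k, (fun l => ξ (m l)) ∈ N) :
    ∃ ν : Fin (n + 1) → k, ν ≠ 0 ∧ ∑ l, algebraMap k K (ν l) * x l = 0 := by
  obtain ⟨⟨ν, hνN⟩, hν⟩ := finrank_le_one_iff.1 hN
  have h1 : ∀ ξ : K →ₗ[k] k, ∃ c : k, ∀ l, ξ (m l) = c * ν l := by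
    intro ξ
    obtain ⟨c, hc⟩ := hν ⟨_, h ξ⟩
    refine ⟨c, fun l => ?_⟩
    have h2 := congrArg (fun w : N => (w : Fin (n + 1) → k) l) hc
    exact h2.symm
  have h2 : ∀ l l', m l * algebraMap k K (ν l') = m l' * algebraMap k K (ν l) := by
    intro l l'
    rw [← sub_eq_zero, ← Module.forall_dual_apply_eq_zero_iff k]
    intro ξ
    obtain ⟨c, hc⟩ := h1 ξ
    have h3 : ∀ (a : K) (b : k), a * algebraMap k K b = b • a := fun a b => by
      rw [Algebra.smul_def, mul_comm]
    rw [map_sub, h3, h3, map_smul, map_smul, hc, hc, smul_eq_mul, smul_eq_mul]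
    ring
  obtain ⟨l', hl'⟩ := Function.ne_iff.1 hm
  have hl : m l' ≠ 0 := hl'
  refine ⟨ν, ?_, ?_⟩
  · rintro rfl
    apply hl
    rw [← Module.forall_dual_apply_eq_zero_iff k]
    intro ξ
    obtain ⟨c, hc⟩ := h1 ξ
    rw [hc, Pi.zero_apply, mul_zero]
  · have h3 : m l' * ∑ l, algebraMap k K (ν l) * x l = 0 := by
      rw [Finset.mul_sum]
      have h4 : ∀ l, m l' * (algebraMap k K (ν l) * x l) =
          algebraMap k K (ν l') * (m l * x l) := by
        intro l
        rw [← mul_assoc, h2 l' l]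
        ring
      rw [Finset.sum_congr rfl fun l _ => h4 l, ← Finset.mul_sum, hmx, mul_zero]
    exact (mul_eq_zero.1 h3).resolve_left hl

/-- The reducible case. -/
theorem red_core [IsAlgClosed k] {x : Fin (2 + 1) → K}
    {g0 g1 : MvPolynomial (Fin (2 + 1)) K →ₗ[K] K} {m0 m1 : Fin (2 + 1) → K}
    (p0 : ∑ l, m0 l * x l = 0) (p1 : ∑ l, m1 l * x l = 0)
    (indep : ∀ a b : K, (∀ l, a * m0 l + b * m1 l = 0) → a = 0 ∧ b = 0)
    {v0 v1 : K} (hv : v0 ≠ 0)
    (heig : ∀ Q ∈ CS k K 2 4, ∃ c : K, g0 (Q * lf m0) * v0 + g0 (Q * lf m1) * v1 = c * v0 ∧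
      g1 (Q * lf m0) * v0 + g1 (Q * lf m1) * v1 = c * v1)
    (htr : ∀ Q ∈ CS k K 2 4, In k (g0 (Q * lf m0) + g1 (Q * lf m1)))
    (hdet : ∀ Q ∈ CS k K 2 4, In k (g0 (Q * lf m0) * g1 (Q * lf m1) -
      g0 (Q * lf m1) * g1 (Q * lf m0)))
    (hne : ∃ Q ∈ CS k K 2 4, v0 * g1 (Q * lf m1) - v1 * g0 (Q * lf m1) ≠ 0)
    (pts : ∀ p : Fin (2 + 1) → k, p ≠ 0 → ∃ P ∈ CS k K 2 4, eval (up K p) P ≠ 0 ∧
      g0 (P * lf m1) = 0 ∧ g1 (P * lf m1) = 0) :
    OnLn k x := by
  classical
  obtain ⟨M, hM⟩ : ∃ M : Fin (2 + 1) → K, M = v0 • m0 + v1 • m1 := ⟨_, rfl⟩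
  have hM0 : M ≠ 0 := by
    intro h0
    have h1 := indep v0 v1 fun l => by
      have := congrFun h0 l
      rw [hM] at this
      simpa using this
    exact hv h1.1
  have hMx : ∑ l, M l * x l = 0 := by
    rw [hM]
    have h1 : ∀ l, (v0 • m0 + v1 • m1) l * x l = v0 * (m0 l * x l) + v1 * (m1 l * x l) := by
      intro l
      rw [Pi.add_apply, Pi.smul_apply, Pi.smul_apply, smul_eq_mul, smul_eq_mul]
      ring
    rw [Finset.sum_congr rfl fun l _ => h1 l, Finset.sum_add_distrib, ← Finset.mul_sum,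
      ← Finset.mul_sum, p0, p1, mul_zero, mul_zero, add_zero]
  -- the functional
  obtain ⟨χ, hχ⟩ : ∃ χ : MvPolynomial (Fin (2 + 1)) K →ₗ[K] K, ∀ Q, χ Q =
      v0⁻¹ * (v0 * g1 (Q * lf m1) - v1 * g0 (Q * lf m1)) :=
    ⟨v0⁻¹ • (v0 • mulR g1 (lf m1) - v1 • mulR g0 (lf m1)), fun _ => rfl⟩
  have hχk : ∀ Q ∈ CS k K 2 4, In k (χ Q) := by
    intro Q hQ
    obtain ⟨c, h1, h2⟩ := heig Q hQ
    obtain ⟨r00, hr00⟩ : ∃ r, r = g0 (Q * lf m0) := ⟨_, rfl⟩
    obtain ⟨r01, hr01⟩ : ∃ r, r = g0 (Q * lf m1) := ⟨_, rfl⟩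
    obtain ⟨r10, hr10⟩ : ∃ r, r = g1 (Q * lf m0) := ⟨_, rfl⟩
    obtain ⟨r11, hr11⟩ : ∃ r, r = g1 (Q * lf m1) := ⟨_, rfl⟩
    have htr' := htr Q hQ
    have hdet' := hdet Q hQ
    rw [← hr00, ← hr11] at htr'
    rw [← hr00, ← hr01, ← hr10, ← hr11] at hdet'
    rw [← hr00, ← hr01] at h1
    rw [← hr10, ← hr11] at h2
    have h3 : χ Q = v0⁻¹ * (v0 * r11 - v1 * r01) := by rw [hχ, hr11, hr01]
    obtain ⟨t, ht⟩ : ∃ t, t = v1 / v0 := ⟨_, rfl⟩
    have hv1 : v1 = t * v0 := by rw [ht, div_mul_cancel₀ _ hv]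
    rw [hv1] at h1 h2
    have h1' : r00 + r01 * t = c := mul_right_cancel₀ hv (by linear_combination h1)
    have h2' : r10 + r11 * t = c * t := mul_right_cancel₀ hv (by linear_combination h2)
    have h4 : χ Q = r11 - t * r01 := by
      rw [h3, hv1]
      field_simp
    refine In.quad (a := 1) (b := -(r00 + r11)) (c := r00 * r11 - r01 * r10) In.one htr'.neg
      hdet' one_ne_zero ?_
    rw [h4]
    have h5 : r10 = (r00 + r01 * t) * t - r11 * t := by rw [h1']; linear_combination h2'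
    rw [h5]
    ring
  have hρ : ∀ T : MvPolynomial (Fin (2 + 1)) K, T.IsHomogeneous 3 → χ (T * lf M) = 0 := by
    intro T hT
    have h1 : ∀ Q ∈ CS k K 2 4, v0 * g1 (Q * lf M) - v1 * g0 (Q * lf M) = 0 := by
      intro Q hQ
      obtain ⟨c, h1, h2⟩ := heig Q hQ
      rw [hM, map_add, map_smul, map_smul, mul_add, mul_smul_comm, mul_smul_comm, map_add,
        map_add, map_smul, map_smul, map_smul, map_smul, smul_eq_mul, smul_eq_mul, smul_eq_mul,
        smul_eq_mul]
      linear_combination v0 * h2 - v1 * h1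
    obtain ⟨ρ, hρ⟩ : ∃ ρ : MvPolynomial (Fin (2 + 1)) K →ₗ[K] K, ∀ Q, ρ Q =
        v0 * g1 (Q * lf M) - v1 * g0 (Q * lf M) :=
      ⟨v0 • mulR g1 (lf M) - v1 • mulR g0 (lf M), fun _ => rfl⟩
    have h2 : ρ (T * lf m1) = 0 := by
      refine zero_of_CS (k := k) (e := 4) ρ (fun Q hQ => ?_) ?_
      · rw [hρ]; exact h1 Q hQ
      · have := hT.mul (lf_hom m1)
        exact this
    rw [hρ] at h2
    rw [hχ]
    have h3 : T * lf M * lf m1 = T * lf m1 * lf M := by ring
    rw [h3, h2, mul_zero]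
  -- the space of the solutions
  obtain ⟨N, hN⟩ : ∃ N : Submodule k (Fin (2 + 1) → k), ∀ a, a ∈ N ↔
      ∀ T ∈ CS k K 2 3, χ (T * lf (up K a)) = 0 := by
    refine ⟨{ carrier := {a | ∀ T ∈ CS k K 2 3, χ (T * lf (up K a)) = 0}
              add_mem' := ?_
              zero_mem' := ?_
              smul_mem' := ?_ }, fun a => Iff.rfl⟩
    · intro a b ha hb T hT
      rw [up_add, map_add, mul_add, map_add, ha T hT, hb T hT, add_zero]
    · intro T hT
      rw [up_zero, map_zero, mul_zero, map_zero]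
    · intro c a ha T hT
      rw [up_smul, map_smul, mul_smul_comm, map_smul, ha T hT, smul_zero]
  have hNd : ∀ ξ : K →ₗ[k] k, (fun l => ξ (M l)) ∈ N := by
    intro ξ
    rw [hN]
    intro T hT
    rw [dual_val' (fun l => hχk _ (CS_mul_X hT l)) ξ, hρ T hT.1, map_zero, map_zero]
  refine prop_of_N hM0 hMx (N := N) ?_ hNd
  by_contra hcon
  obtain ⟨Q, hQ, hne⟩ := hne
  have h1 : χ Q = 0 := by
    refine zero_of_N (g := ![g0, g1]) (m := fun _ => m1) ?_ (N := N) (by omega) χ
      (fun b hb T hT => (hN b).1 hb T hT) ?_ hQ.1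
    · intro p hp
      obtain ⟨P, hP, hPp, h0, h1⟩ := pts p hp
      refine ⟨P, hP, hPp, fun i j => ?_⟩
      fin_cases i
      · exact h0
      · exact h1
    · intro P hP hPg
      have h0 : g0 (P * lf m1) = 0 := hPg 0 0
      have h1 : g1 (P * lf m1) = 0 := hPg 1 0
      rw [hχ, h0, h1, mul_zero, mul_zero, sub_zero, mul_zero]
  rw [hχ] at h1
  exact hne ((mul_eq_zero.1 h1).resolve_left (inv_ne_zero hv))

theorem lf_comb {n : ℕ} (a b : K) (m m' : Fin (n + 1) → K) :
    lf (fun l => a * m l + b * m' l) = a • lf m + b • lf m' := by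
  rw [← map_smul, ← map_smul, ← map_add]
  congr 1

/-- Change of basis. -/
theorem Sys.chg {x : Fin (2 + 1) → K} {g : Fin 2 → MvPolynomial (Fin (2 + 1)) K →ₗ[K] K}
    {m : Fin 2 → Fin (2 + 1) → K} (h : Sys k x g m) {a b c d : k} (hD : a * d - b * c ≠ 0) :
    Sys k x g ![fun l => algebraMap k K a * m 0 l + algebraMap k K b * m 1 l,
      fun l => algebraMap k K c * m 0 l + algebraMap k K d * m 1 l] := by
  have hD' : algebraMap k K a * algebraMap k K d - algebraMap k K b * algebraMap k K c ≠ 0 := by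
    rw [← map_mul, ← map_mul, ← map_sub]
    intro h0
    exact hD ((algebraMap k K).injective (by rw [h0, map_zero]))
  obtain ⟨A, hA⟩ : ∃ A, A = algebraMap k K a := ⟨_, rfl⟩
  obtain ⟨B, hB⟩ : ∃ B, B = algebraMap k K b := ⟨_, rfl⟩
  obtain ⟨C', hC⟩ : ∃ C', C' = algebraMap k K c := ⟨_, rfl⟩
  obtain ⟨D, hDD⟩ : ∃ D, D = algebraMap k K d := ⟨_, rfl⟩
  rw [← hA, ← hB, ← hC, ← hDD] at hD'
  rw [← hA, ← hB, ← hC, ← hDD]
  have hcomb : ∀ (p q : K) (Q : MvPolynomial (Fin (2 + 1)) K) (i : Fin 2),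
      g i (Q * lf (fun l => p * m 0 l + q * m 1 l)) =
        p * g i (Q * lf (m 0)) + q * g i (Q * lf (m 1)) := by
    intro p q Q i
    rw [lf_comb, mul_add, mul_smul_comm, mul_smul_comm, map_add, map_smul, map_smul, smul_eq_mul,
      smul_eq_mul]
  have hsum : ∀ p q : K, ∑ l, (p * m 0 l + q * m 1 l) * x l = 0 := by
    intro p q
    have h1 : ∀ l, (p * m 0 l + q * m 1 l) * x l = p * (m 0 l * x l) + q * (m 1 l * x l) :=
      fun l => by ring
    rw [Finset.sum_congr rfl fun l _ => h1 l, Finset.sum_add_distrib, ← Finset.mul_sum,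
      ← Finset.mul_sum, h.perp, h.perp, mul_zero, mul_zero, add_zero]
  have hinA : In k A := by rw [hA]; exact In.alg _
  have hinB : In k B := by rw [hB]; exact In.alg _
  have hinC : In k C' := by rw [hC]; exact In.alg _
  have hinD : In k D := by rw [hDD]; exact In.alg _
  refine ⟨h.x_ne, fun j => ?_, fun p q hpq => ?_, fun Q hQ i j => ?_, fun e φ he hφ => ?_,
    fun p hp => ?_, ?_⟩
  · fin_cases j
    · exact hsum A B
    · exact hsum C' D
  · have h1 := h.indep (p * A + q * C') (p * B + q * D) fun l => by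
      have := hpq l
      change p * (A * m 0 l + B * m 1 l) + q * (C' * m 0 l + D * m 1 l) = 0 at this
      linear_combination this
    have h2 : p * (A * D - B * C') = 0 := by linear_combination D * h1.1 - C' * h1.2
    have h3 : q * (A * D - B * C') = 0 := by linear_combination A * h1.2 - B * h1.1
    exact ⟨(mul_eq_zero.1 h2).resolve_right hD', (mul_eq_zero.1 h3).resolve_right hD'⟩
  · fin_cases j
    · change In k (g i (Q * lf (fun l => A * m 0 l + B * m 1 l)))
      rw [hcomb]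
      exact (hinA.mul (h.const Q hQ i 0)).add (hinB.mul (h.const Q hQ i 1))
    · change In k (g i (Q * lf (fun l => C' * m 0 l + D * m 1 l)))
      rw [hcomb]
      exact (hinC.mul (h.const Q hQ i 0)).add (hinD.mul (h.const Q hQ i 1))
  · have he' : (![e 0 * A + e 1 * C', e 0 * B + e 1 * D] : Fin 2 → K) ≠ 0 := by
      intro h0
      have h1 : e 0 * A + e 1 * C' = 0 := congrFun h0 0
      have h2 : e 0 * B + e 1 * D = 0 := congrFun h0 1
      apply he
      have h3 : e 0 * (A * D - B * C') = 0 := by linear_combination D * h1 - C' * h2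
      have h4 : e 1 * (A * D - B * C') = 0 := by linear_combination A * h2 - B * h1
      funext j
      fin_cases j
      · exact (mul_eq_zero.1 h3).resolve_right hD'
      · exact (mul_eq_zero.1 h4).resolve_right hD'
    obtain ⟨Q, hQ, hne⟩ := h.irr _ φ he' hφ
    refine ⟨Q, hQ, ?_⟩
    change ∑ i, φ i * (e 0 * g i (Q * lf (fun l => A * m 0 l + B * m 1 l)) +
      e 1 * g i (Q * lf (fun l => C' * m 0 l + D * m 1 l))) ≠ 0
    intro h0
    apply hne
    rw [← h0]
    refine Finset.sum_congr rfl fun i _ => ?_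
    rw [hcomb, hcomb]
    change φ i * ((e 0 * A + e 1 * C') * g i (Q * lf (m 0)) +
      (e 0 * B + e 1 * D) * g i (Q * lf (m 1))) = _
    ring
  · obtain ⟨P, hP, hPp, hPg⟩ := h.pts p hp
    refine ⟨P, hP, hPp, fun i j => ?_⟩
    fin_cases j
    · change g i (P * lf (fun l => A * m 0 l + B * m 1 l)) = 0
      rw [hcomb, hPg, hPg, mul_zero, mul_zero, add_zero]
    · change g i (P * lf (fun l => C' * m 0 l + D * m 1 l)) = 0
      rw [hcomb, hPg, hPg, mul_zero, mul_zero, add_zero]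
  · obtain ⟨P, hP, hPx, hPg, hμ⟩ := h.free
    refine ⟨P, hP, hPx, fun i j => ?_, hμ⟩
    fin_cases j
    · change g i (P * lf (fun l => A * m 0 l + B * m 1 l)) = 0
      rw [hcomb, hPg, hPg, mul_zero, mul_zero, add_zero]
    · change g i (P * lf (fun l => C' * m 0 l + D * m 1 l)) = 0
      rw [hcomb, hPg, hPg, mul_zero, mul_zero, add_zero]

/-- The irreducible case. -/
theorem irr_main [IsAlgClosed k] {x : Fin (2 + 1) → K}
    {g : Fin 2 → MvPolynomial (Fin (2 + 1)) K →ₗ[K] K} {m : Fin 2 → Fin (2 + 1) → K}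
    (h : Sys k x g m) : Quad k x ∨ OnLn k x := by
  classical
  obtain ⟨V, hV⟩ : ∃ V, V = Submodule.span k (Set.range (m 0) ∪ Set.range (m 1)) := ⟨_, rfl⟩
  have hVf : FiniteDimensional k V := by
    rw [hV]
    exact FiniteDimensional.span_of_finite k ((Set.finite_range _).union (Set.finite_range _))
  have hmV : ∀ j l, m j l ∈ V := by
    intro j l
    rw [hV]
    apply Submodule.subset_span
    fin_cases j
    · exact Or.inl ⟨l, rfl⟩
    · exact Or.inr ⟨l, rfl⟩
  by_cases hV2 : Module.finrank k V ≤ 2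
  · exact Or.inl (quad_of_finrank V hmV hV2 (cross_eq h.perp h.indep))
  have hS3 : 3 ≤ Module.finrank k (Sol (k := k) g m) :=
    le_trans (by omega) (finrank_Sol h V hV)
  obtain ⟨a, b, μ, hab, hμ, hs⟩ := rank_one (k := k) (V := Fin (2 + 1) → k)
    (by rw [Module.finrank_fin_fun]; norm_num) (Sol (k := k) g m)
    (by rw [Module.finrank_fin_fun]; exact hS3)
  rw [mem_Sol] at hs
  have hs' : ∀ T ∈ CS k K 2 3, ∀ i, algebraMap k K a * g i (T * lf (up K μ) * lf (m 1)) =
      algebraMap k K b * g i (T * lf (up K μ) * lf (m 0)) := by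
    intro T hT i
    have h1 := hs T hT i
    dsimp only at h1
    rw [up_smul, up_smul, map_smul, map_smul, mul_smul_comm, mul_smul_comm, smul_mul_assoc,
      smul_mul_assoc, map_smul, map_smul, smul_eq_mul, smul_eq_mul] at h1
    exact h1
  by_cases ha : a = 0
  · have hb : b ≠ 0 := hab.resolve_left (not_not.2 ha)
    have h1 := h.chg (a := 0) (b := 1) (c := 1) (d := 0) (by norm_num)
    refine irr_core h1 hμ fun T hT i => ?_
    change g i (T * lf (up K μ) *
      lf (fun l => algebraMap k K 1 * m 0 l + algebraMap k K 0 * m 1 l)) = 0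
    rw [lf_comb, mul_add, mul_smul_comm, mul_smul_comm, map_add, map_smul, map_smul, smul_eq_mul,
      smul_eq_mul, map_one, map_zero, one_mul, zero_mul, add_zero]
    have h2 := hs' T hT i
    rw [ha, map_zero, zero_mul] at h2
    exact (mul_eq_zero.1 h2.symm).resolve_left fun h0 =>
      hb ((algebraMap k K).injective (by rw [h0, map_zero]))
  · have h1 := h.chg (a := 1) (b := 0) (c := -b) (d := a) (by simpa using ha)
    refine irr_core h1 hμ fun T hT i => ?_
    change g i (T * lf (up K μ) *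
      lf (fun l => algebraMap k K (-b) * m 0 l + algebraMap k K a * m 1 l)) = 0
    rw [lf_comb, mul_add, mul_smul_comm, mul_smul_comm, map_add, map_smul, map_smul, smul_eq_mul,
      smul_eq_mul, map_neg, hs' T hT i]
    ring

end Pool.Agent.Y735.S
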